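import Pool.Agent.Lib.MP_426fec_lc.Tools

set_option autoImplicit false

namespace Pool.Agent.Lib.MP_426fec_lc

open Finset Matrix

namespace Sch

variable {X Y A R V F : Type} [Fintype A] [Fintype R] [Fintype Y] [Field F] [Fintype F]
  [DecidableEq F] [DecidableEq V] (S : Sch X Y A R V F) (W : X → Y → ℝ)

/-- The reduced sample space. -/
abbrev Om (Y A R F : Type) (n k r : ℕ) : Type :=
  (Key k × Key k × Seed F n k r) × (Fin n → A) × (Fin n → Y × R)

/-- The law of one letter. -/
def P1 (a : A) (o : Y × R) : ℝ := S.pA a * (W (S.ι a) o.1 * S.pR o.2)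

/-- The constant weight of the keys and seeds. -/
noncomputable def c0 (F : Type) [Fintype F] [DecidableEq F] (n k r : ℕ) : ℝ :=
  1 / 2 ^ k * (1 / 2 ^ k) * (1 / Fintype.card (Seed F n k r))

variable {n k r : ℕ}

/-- The law on the reduced space. -/
noncomputable def Pp (ω : Om Y A R F n k r) : ℝ := c0 F n k r * ∏ i, S.P1 W (ω.2.1 i) (ω.2.2 i)

/-- The embedding of the reduced space for the choice bit z. -/
def emb (z : Bool) (ω : Om Y A R F n k r) : (S.prot W n k r).Omega n :=
  ((if z then ω.1.2.1 else ω.1.1, if z then ω.1.1 else ω.1.2.1, (ω.2.1, ω.1.2.2)),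
    ((z, fun i => (ω.2.2 i).2), fun i => (ω.2.2 i).1))

lemma sum_Pz (z : Bool) (φ : (S.prot W n k r).Omega n → ℝ) :
    ∑ ω, (S.prot W n k r).Pz W n z ω * φ ω = ∑ ω, S.Pp W ω * φ (S.emb W z ω) := by
  symm
  refine Fintype.sum_of_injective (S.emb W z) ?_ _ _ ?_ ?_
  · rintro ⟨⟨K, K', g⟩, a, o⟩ ⟨⟨L, L', g'⟩, a', o'⟩ h
    simp only [emb, Prod.mk.injEq] at h
    obtain ⟨⟨h1, h2, h3⟩, ⟨-, h5⟩, h6⟩ := h
    have h3' : (a, g) = (a', g') := h3
    simp only [Prod.mk.injEq] at h3'
    have : o = o' := funext fun i => Prod.ext (congrFun h6 i) (congrFun h5 i)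
    cases z <;> simp_all
  · intro ω hω
    rw [(S.prot W n k r).Pz_eq_zero W n, zero_mul]
    intro hz
    apply hω
    obtain ⟨⟨K, K', a, g⟩, ⟨z', ρ⟩, y⟩ := ω
    refine ⟨((if z then K' else K, if z then K else K', g), a, fun i => (y i, ρ i)), ?_⟩
    simp only at hz
    subst hz
    cases z' <;> rfl
  · intro ω
    congr 1
    simp only [Protocol.Pz, Protocol.P0, Protocol.pA0, Protocol.pBz, chanWt_eq]
    simp only [emb, if_true, prot, Pp, c0, P1, Finset.prod_mul_distrib]
    ring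

omit [Field F] [DecidableEq V] [Fintype Y] [Fintype F] [DecidableEq F] in
lemma P1_nonneg (hW0 : ∀ x y, 0 ≤ W x y) (a : A) (o : Y × R) : 0 ≤ S.P1 W a o :=
  mul_nonneg (S.hA0 _) (mul_nonneg (hW0 _ _) (S.hR0 _))

omit [Field F] [DecidableEq V] [Fintype F] [DecidableEq F] in
lemma P1_sum (hW1 : ∀ x, ∑ y, W x y = 1) : ∑ a, ∑ o, S.P1 W a o = 1 := by
  simp only [P1, Fintype.sum_prod_type, ← Finset.mul_sum, S.hR1, mul_one, hW1, S.hA1]

lemma c0_pos (F : Type) [Fintype F] [DecidableEq F] [Nonempty F] (n k r : ℕ) : 0 < c0 F n k r := by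
  unfold c0; positivity

omit [DecidableEq V] [Fintype Y] in
lemma Pp_nonneg (hW0 : ∀ x y, 0 ≤ W x y) (ω : Om Y A R F n k r) : 0 ≤ S.Pp W ω :=
  mul_nonneg (c0_pos F n k r).le (Finset.prod_nonneg fun _ _ => S.P1_nonneg W hW0 _ _)

omit [DecidableEq V] in
lemma sum_Pp (φ : Seed F n k r → (Fin n → A) → (Fin n → Y × R) → ℝ) :
    ∑ ω : Om Y A R F n k r, S.Pp W ω * φ ω.1.2.2 ω.2.1 ω.2.2 =
      ∑ a, ∑ o, (∏ i, S.P1 W (a i) (o i)) *
        ∑ g, 1 / Fintype.card (Seed F n k r) * φ g a o := by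
  rw [Fintype.sum_prod_type, Finset.sum_comm, Fintype.sum_prod_type]
  refine Finset.sum_congr rfl fun a _ => Finset.sum_congr rfl fun o _ => ?_
  simp only [Fintype.sum_prod_type (α₁ := Key k), Pp, c0, Finset.sum_const, Finset.card_univ,
    card_key, nsmul_eq_mul, Finset.mul_sum]
  refine Finset.sum_congr rfl fun g _ => ?_
  push_cast
  field_simp

omit [DecidableEq V] in
lemma sum_Pp_prod (f : A → Y × R → ℝ) :
    ∑ ω : Om Y A R F n k r, S.Pp W ω * ∏ i, f (ω.2.1 i) (ω.2.2 i) =
      (∑ a, ∑ o, S.P1 W a o * f a o) ^ n := by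
  rw [S.sum_Pp W (fun _ a o => ∏ i, f (a i) (o i)), ← sum_prod_pow]
  refine Finset.sum_congr rfl fun a _ => Finset.sum_congr rfl fun o _ => ?_
  rw [Finset.sum_const, Finset.card_univ, nsmul_eq_mul, ← mul_assoc (Fintype.card _ : ℝ),
    mul_one_div_cancel (by positivity), one_mul, Finset.prod_mul_distrib]

omit [DecidableEq V] in
lemma Pp_sum (hW1 : ∀ x, ∑ y, W x y = 1) : ∑ ω : Om Y A R F n k r, S.Pp W ω = 1 := by
  have := S.sum_Pp_prod W (n := n) (k := k) (r := r) (fun _ _ => 1)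
  simpa [S.P1_sum W hW1] using this

/-- The public letters. -/
def vn (z : Bool) (o : Fin n → Y × R) : Fin n → V := fun i => S.v z (o i)

/-- The labels of Bob. -/
def ln (z : Bool) (o : Fin n → Y × R) : Fin n → F := fun i => S.l z (o i)

/-- The shifted labels. -/
def wn (z : Bool) (a : Fin n → A) (o : Fin n → Y × R) : Fin n → F :=
  S.ln z o + sel z (S.Ev a (S.vn z o))

omit [Fintype Y] [Fintype F] [DecidableEq F] [DecidableEq V] in
lemma wn_apply (z : Bool) (a : Fin n → A) (o : Fin n → Y × R) (i : Fin n) :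
    S.wn z a o i = S.l z (o i) + sel z (S.e (a i) (S.v z (o i))) := by
  cases z <;> simp [wn, ln, sel, Ev, vn]

omit [Fintype Y] [Fintype F] [DecidableEq F] [DecidableEq V] in
lemma sigma_eq (z : Bool) (G : Fin r → Fin n → F) (a : Fin n → A) (o : Fin n → Y × R) :
    Matrix.of G *ᵥ (fun i => S.l z (o i)) + sel z (Matrix.of G *ᵥ S.Ev a fun i => S.v z (o i)) =
      Matrix.of G *ᵥ S.wn z a o := by
  cases z
  · simp [wn, sel]; rfl
  · simp only [wn, sel, if_true, Matrix.mulVec_add]; rfl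

/-- The statistic of Alice. -/
def TA (ω : (S.prot W n k r).Omega n) :
    (Key k × Key k × (S.prot W n k r).M) × (Fin n → V) × (Fin n → F) :=
  (ω.1, S.vn ω.2.1.1 (fun i => (ω.2.2 i, ω.2.1.2 i)),
    S.wn ω.2.1.1 ω.1.2.2.1 (fun i => (ω.2.2 i, ω.2.1.2 i)))

lemma mass_TA (z : Bool) (t : (Key k × Key k × (S.prot W n k r).M) × (Fin n → V) × (Fin n → F)) :
    mass ((S.prot W n k r).Pz W n z) (S.TA W) t =
      c0 F n k r * ∏ i, (S.pA (t.1.2.2.1 i) * S.mu W z (t.1.2.2.1 i) (t.2.1 i) (t.2.2 i)) := by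
  classical
  obtain ⟨⟨K, K', a, g⟩, v, w⟩ := t
  rw [mass_transfer (S.sum_Pz W z), mass_eq, Fintype.sum_prod_type,
    Finset.sum_eq_single (if z then K' else K, if z then K else K', g), Fintype.sum_prod_type,
    Finset.sum_eq_single a]
  · simp only [mu, Finset.mul_sum]
    rw [← sum_pi_prod, Finset.mul_sum]
    refine Finset.sum_congr rfl fun o _ => ?_
    by_cases h : ∀ i, S.v z (o i) = v i ∧ S.l z (o i) + sel z (S.e (a i) (v i)) = w i
    · rw [if_pos]
      · simp only [Pp, P1, h, and_self, if_true]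
      · have h1 : S.vn z o = v := funext fun i => (h i).1
        have h2 : S.wn z a o = w := funext fun i => by rw [wn_apply, (h i).1, (h i).2]
        refine Prod.ext ?_ (Prod.ext h1 h2)
        cases z <;> rfl
    · rw [if_neg]
      · obtain ⟨i, hi⟩ := not_forall.1 h
        rw [Finset.prod_eq_zero (Finset.mem_univ i) (by rw [if_neg hi, mul_zero]), mul_zero]
      · intro h'
        apply h
        intro i
        have h1 : S.vn z o = v := congrArg (fun t => t.2.1) h'
        have h2 : S.wn z a o = w := congrArg (fun t => t.2.2) h'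
        have h3 : S.v z (o i) = v i := congrFun h1 i
        refine ⟨h3, ?_⟩
        rw [← h3, ← wn_apply, h2]
  · intro a' _ ha
    refine Finset.sum_eq_zero fun o _ => if_neg fun h => ha ?_
    exact congrArg (fun t => t.1.2.2.1) h
  · simp
  · rintro ⟨L, L', g'⟩ _ hne
    refine Finset.sum_eq_zero fun o _ => if_neg fun h => hne ?_
    have h1 := congrArg (fun t => t.1.1) h
    have h2 := congrArg (fun t => t.1.2.1) h
    have h3 : g' = g := congrArg (fun t => t.1.2.2.2) h
    cases z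
    · exact Prod.ext h1 (Prod.ext h2 h3)
    · exact Prod.ext h2 (Prod.ext h1 h3)
  · simp

lemma leakA_le (hW0 : ∀ x y, 0 ≤ W x y) (hW1 : ∀ x, ∑ y, W x y = 1)
    (hsym : S.mu W true = S.mu W false) : (S.prot W n k r).leakA W n ≤ 0 := by
  classical
  set π := S.prot W n k r with hπ
  have hP := π.law_nonneg hW0 n
  have h1 := π.law_sum hW1 n
  have d := mi_le_of_det hP h1
    (fun ω => (ω.1, π.inputs ω.1 ω.2.1 (List.ofFn ω.2.2), π.comm n ω)) (S.TA W)
    (fun ω => ω.2.1.1) (fun ω ω' _ _ h => by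
      have e1 : ω.1 = ω'.1 := congrArg (fun t => t.1) h
      have e2 : (fun i => S.v ω.2.1.1 (ω.2.2 i, ω.2.1.2 i)) =
        fun i => S.v ω'.2.1.1 (ω'.2.2 i, ω'.2.1.2 i) := congrArg (fun t => t.2.1) h
      have e3 : S.wn ω.2.1.1 ω.1.2.2.1 (fun i => (ω.2.2 i, ω.2.1.2 i)) =
        S.wn ω'.2.1.1 ω'.1.2.2.1 (fun i => (ω'.2.2 i, ω'.2.1.2 i)) := congrArg (fun t => t.2.2) h
      refine Prod.ext e1 (Prod.ext ?_ ?_)
      · simp only
        rw [e1]
        exact S.inputs_eq W _ _ _ _ _ (by simp)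
      · refine (S.comm_eq W ω).trans (Eq.trans ?_ (S.comm_eq W ω').symm)
        simp only [last, sigma_eq]
        rw [e3, e2, e1])
  have hm : ∀ z t, mass (π.Pz W n z) (S.TA W) t = mass (π.Pz W n false) (S.TA W) t := by
    intro z t
    cases z
    · rfl
    · rw [mass_TA, mass_TA, hsym]
  have hT : ∀ t, mass (π.law W n) (S.TA W) t = mass (π.Pz W n false) (S.TA W) t := by
    intro t
    have : mass (π.law W n) (S.TA W) t =
        1 / 2 * (mass (π.Pz W n false) (S.TA W) t + mass (π.Pz W n true) (S.TA W) t) := by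
      simp only [mass_eq, ← Finset.sum_add_distrib, Finset.mul_sum]
      refine Finset.sum_congr rfl fun ω _ => ?_
      split_ifs
      · exact π.law_eq' W n ω false
      · simp
    rw [this, hm true]; ring
  have hTZ : ∀ t z, mass (π.law W n) (fun ω => (S.TA W ω, ω.2.1.1)) (t, z) =
      1 / 2 * mass (π.Pz W n false) (S.TA W) t := by
    intro t z
    rw [← hm z]
    simp only [mass_eq, Finset.mul_sum]
    refine Finset.sum_congr rfl fun ω _ => ?_
    by_cases h : ω.2.1.1 = z
    · subst h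
      simp only [Prod.mk.injEq, and_true]
      split_ifs
      · exact π.law_eq W n ω
      · simp
    · simp [h, π.Pz_eq_zero W n h]
  have e : H (π.law W n) (fun ω => (S.TA W ω, ω.2.1.1)) = H (π.law W n) (S.TA W) + Real.log 2 := by
    unfold H
    have : Real.log 2 = ∑ ω, π.law W n ω * Real.log 2 := by rw [← Finset.sum_mul, h1, one_mul]
    rw [this, ← Finset.sum_add_distrib]
    refine Finset.sum_congr rfl fun ω _ => ?_
    by_cases h : π.law W n ω = 0
    · simp [h]
    have := mass_pos hP (S.TA W) h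
    rw [hTZ, ← hT, Real.log_mul (by norm_num) this.ne']
    simp only [one_div, Real.log_inv]
    ring
  have hZ := H_le_log_card hP h1 (fun ω => ω.2.1.1)
  simp only [Fintype.card_bool, Nat.cast_ofNat] at hZ
  have : π.leakA W n * Real.log 2 ≤ 0 := by
    unfold Protocol.leakA
    linarith
  exact nonpos_of_mul_nonpos_left this (Real.log_pos one_lt_two)

end Sch

end Pool.Agent.Lib.MP_426fec_lc
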