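import Pool.Agent.Lib.MP_426fec_lc.Achieve1

set_option autoImplicit false

namespace Pool.Agent.Lib.MP_426fec_lc

open Finset Matrix

namespace Sch

variable {X Y A R V F : Type} [Fintype A] [Fintype R] [Fintype Y] [Field F] [Fintype F]
  [DecidableEq F] [DecidableEq V] (S : Sch X Y A R V F) (W : X → Y → ℝ) {n k r : ℕ}

/-- The information density of the shifted label given the view of Alice. -/
noncomputable def LW (z : Bool) (a : A) (o : Y × R) : ℝ :=
  -Real.log (S.mu W false a (S.v z o) (S.l z o + sel z (S.e a (S.v z o))) /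
    ∑ w, S.mu W false a (S.v z o) w)

/-- The decoded vector. -/
noncomputable def dn (z : Bool) (g : Seed F n k r) (a : Fin n → A) (o : Fin n → Y × R) :
    Fin n → F := S.dec W a (S.vn z o) g.1 (Matrix.of g.1 *ᵥ S.wn z a o)

/-- The probability of a decoding error of Alice. -/
noncomputable def errp (n k r : ℕ) (z : Bool) : ℝ :=
  ∑ ω : Om Y A R F n k r, S.Pp W ω *
    if S.dn W z ω.1.2.2 ω.2.1 ω.2.2 ≠ S.wn z ω.2.1 ω.2.2 then 1 else 0

omit [Fintype F] in
lemma mu_nonneg (hW0 : ∀ x y, 0 ≤ W x y) (z : Bool) (a : A) (v : V) (w : F) :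
    0 ≤ S.mu W z a v w := by
  refine Finset.sum_nonneg fun o _ => ?_
  split_ifs
  · exact mul_nonneg (hW0 _ _) (S.hR0 _)
  · exact le_rfl

omit [Fintype F] in
lemma mu_pos (hW0 : ∀ x y, 0 ≤ W x y) (hsym : S.mu W true = S.mu W false) (z : Bool) {a : A}
    {o : Y × R} (h : S.P1 W a o ≠ 0) :
    0 < S.mu W false a (S.v z o) (S.l z o + sel z (S.e a (S.v z o))) := by
  have e : S.mu W false = S.mu W z := by cases z; exacts [rfl, hsym.symm]
  rw [e]
  have h1 : 0 < W (S.ι a) o.1 * S.pR o.2 :=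
    lt_of_le_of_ne (mul_nonneg (hW0 _ _) (S.hR0 _)) (Ne.symm (mul_ne_zero_iff.1 h).2)
  refine lt_of_lt_of_le h1 (le_trans (le_of_eq ?_) (Finset.single_le_sum
    (f := fun o' : Y × R => if S.v z o' = S.v z o ∧ S.l z o' + sel z (S.e a (S.v z o)) =
      S.l z o + sel z (S.e a (S.v z o)) then W (S.ι a) o'.1 * S.pR o'.2 else 0)
    (fun o' _ => ?_) (Finset.mem_univ o)))
  · simp
  · split_ifs
    · exact mul_nonneg (hW0 _ _) (S.hR0 _)
    · exact le_rfl

lemma errz_le (hW0 : ∀ x y, 0 ≤ W x y) (z : Bool) :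
    (S.prot W n k r).errz W n z ≤ S.errp W n k r z := by
  have := S.sum_Pz W (n := n) (k := k) (r := r) z (fun ω =>
    if (S.prot W n k r).out ω.2.1 (List.ofFn ω.2.2) ((S.prot W n k r).comm n ω) ≠
      (S.prot W n k r).key z ω.1 then 1 else 0)
  simp only [mul_ite, mul_one, mul_zero] at this
  unfold Protocol.errz errp
  rw [this]
  refine Finset.sum_le_sum fun ω _ => ?_
  by_cases h : S.dn W z ω.1.2.2 ω.2.1 ω.2.2 = S.wn z ω.2.1 ω.2.2
  · rw [if_neg, if_neg (by simpa using h), mul_zero]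
    rw [out_eq, not_not]
    simp only [last, oM, sigma_eq, cj]
    have h' : S.dec W ω.2.1 (fun i => S.v z (ω.2.2 i)) ω.1.2.2.1
      (Matrix.of ω.1.2.2.1 *ᵥ S.wn z ω.2.1 ω.2.2) = S.wn z ω.2.1 ω.2.2 := h
    cases z
    · change ω.1.1 + ω.1.2.2.2 false (S.dec W ω.2.1 (fun i => S.v false (ω.2.2 i)) ω.1.2.2.1
        (Matrix.of ω.1.2.2.1 *ᵥ S.wn false ω.2.1 ω.2.2) - 0) - ω.1.2.2.2 false (S.ln false ω.2.2)
        = ω.1.1
      rw [h']
      simp [wn, sel]
    · change ω.1.1 + ω.1.2.2.2 true (S.dec W ω.2.1 (fun i => S.v true (ω.2.2 i)) ω.1.2.2.1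
        (Matrix.of ω.1.2.2.1 *ᵥ S.wn true ω.2.1 ω.2.2) - S.Ev ω.2.1 (S.vn true ω.2.2))
        - ω.1.2.2.2 true (S.ln true ω.2.2) = ω.1.1
      rw [h']
      simp [wn, sel]
  · rw [if_pos h, mul_one]
    split_ifs
    · exact le_rfl
    · exact S.Pp_nonneg W hW0 ω

lemma dec_err (hW0 : ∀ x y, 0 ≤ W x y) (a : Fin n → A) (v : Fin n → V) (w : Fin n → F)
    (hw : 0 < S.mun W a v w) :
    ∑ g : Seed F n k r, (1 : ℝ) / Fintype.card (Seed F n k r) *
      (if S.dec W a v g.1 (Matrix.of g.1 *ᵥ w) ≠ w then 1 else 0) ≤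
      1 / Fintype.card F ^ r * ((∏ i, ∑ u, S.mu W false (a i) (v i) u) / S.mun W a v w) := by
  have hm0 : ∀ w', 0 ≤ S.mun W a v w' := fun w' =>
    Finset.prod_nonneg fun i _ => S.mu_nonneg W hW0 _ _ _ _
  calc _ ≤ ∑ g : Seed F n k r, ∑ w' : Fin n → F, (if w' ≠ w then S.mun W a v w' / S.mun W a v w *
        (if Matrix.of g.1 *ᵥ (w' - w) = 0 then (1 : ℝ) / Fintype.card (Seed F n k r) else 0)
        else 0) := by
        refine Finset.sum_le_sum fun g _ => ?_
        have hnn : ∀ w' ∈ (univ : Finset (Fin n → F)), 0 ≤ (if w' ≠ w then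
            S.mun W a v w' / S.mun W a v w * (if Matrix.of g.1 *ᵥ (w' - w) = 0 then
              (1 : ℝ) / Fintype.card (Seed F n k r) else 0) else 0) := by
          intro w' _
          have := hm0 w'
          positivity
        split_ifs with h
        · obtain ⟨h1, h2⟩ := (S.exists_dec W a v g.1 (Matrix.of g.1 *ᵥ w)).choose_spec w rfl
          refine le_trans ?_ (Finset.single_le_sum hnn
            (Finset.mem_univ (S.dec W a v g.1 (Matrix.of g.1 *ᵥ w))))
          rw [if_pos h, if_pos (by rw [Matrix.mulVec_sub, sub_eq_zero]; exact h1), mul_one]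
          exact le_mul_of_one_le_left (by positivity) ((one_le_div hw).2 h2)
        · rw [mul_zero]; exact Finset.sum_nonneg hnn
    _ ≤ ∑ w' : Fin n → F, S.mun W a v w' / S.mun W a v w * (1 / Fintype.card F ^ r) := by
        rw [Finset.sum_comm]
        refine Finset.sum_le_sum fun w' _ => ?_
        by_cases h : w' = w
        · simp only [h, ne_eq, not_true_eq_false, if_false, Finset.sum_const_zero]
          positivity
        · simp only [ne_eq, h, not_false_eq_true, if_true]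
          rw [← Finset.mul_sum, avg_lin (sub_ne_zero.2 h)]
    _ = _ := by
        rw [← Finset.sum_mul, ← Finset.sum_div, mul_comm, ← sum_pi_prod]
        rfl

lemma errp_le (hW0 : ∀ x y, 0 ≤ W x y) (hsym : S.mu W true = S.mu W false) (z : Bool) {s : ℝ}
    (hs : 0 < s) (hs1 : s ≤ 1) :
    S.errp W n k r z ≤ Real.exp (-(s * (r * Real.log (Fintype.card F)))) *
      (∑ a, ∑ o, S.P1 W a o * Real.exp (s * S.LW W z a o)) ^ n := by
  unfold errp
  rw [S.sum_Pp W (fun g a o => if S.dn W z g a o ≠ S.wn z a o then 1 else 0), ← sum_prod_pow,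
    Finset.mul_sum]
  refine Finset.sum_le_sum fun a _ => ?_
  rw [Finset.mul_sum]
  refine Finset.sum_le_sum fun o _ => ?_
  rw [Finset.prod_mul_distrib, mul_left_comm]
  by_cases h : ∏ i, S.P1 W (a i) (o i) = 0
  · simp [h]
  refine mul_le_mul_of_nonneg_left ?_ (Finset.prod_nonneg fun i _ => S.P1_nonneg W hW0 _ _)
  have hp : ∀ i, 0 < S.mu W false (a i) (S.vn z o i) (S.wn z a o i) := fun i => by
    rw [wn_apply]
    exact S.mu_pos W hW0 hsym z (Finset.prod_ne_zero_iff.1 h i (Finset.mem_univ i))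
  have hq : ∀ i, 0 < ∑ u, S.mu W false (a i) (S.vn z o i) u := fun i =>
    lt_of_lt_of_le (hp i) (Finset.single_le_sum (f := fun u => S.mu W false (a i) (S.vn z o i) u)
      (fun u _ => S.mu_nonneg W hW0 _ _ _ _) (Finset.mem_univ _))
  rw [← Real.exp_sum, ← Real.exp_add, ← Finset.mul_sum (a := s), ← mul_neg, ← mul_add]
  refine min_le_exp hs hs1 ?_ ?_
  · calc _ ≤ ∑ g : Seed F n k r, (1 : ℝ) / Fintype.card (Seed F n k r) := by
          refine Finset.sum_le_sum fun g _ => mul_le_of_le_one_right (by positivity) ?_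
          split_ifs <;> norm_num
      _ = 1 := by
          rw [Finset.sum_const, Finset.card_univ, nsmul_eq_mul, mul_one_div_cancel (by positivity)]
  · refine (S.dec_err W hW0 a (S.vn z o) (S.wn z a o) (Finset.prod_pos fun i _ => hp i)).trans
      (le_of_eq ?_)
    rw [Real.exp_add, Real.exp_sum, Real.exp_neg, Real.exp_nat_mul,
      Real.exp_log (by positivity), one_div, mun, ← Finset.prod_div_distrib]
    congr 1
    refine Finset.prod_congr rfl fun i _ => ?_
    have h1 := hp i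
    have h2 := hq i
    rw [wn_apply] at h1 ⊢
    unfold LW
    simp only [vn] at h1 h2 ⊢
    rw [Real.exp_neg, Real.exp_log (div_pos h1 h2), inv_div]

end Sch

end Pool.Agent.Lib.MP_426fec_lc
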