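import Pool.Agent.Lib.MP_426fec_lc.Achieve2

set_option autoImplicit false

namespace Pool.Agent.Lib.MP_426fec_lc

open Finset Matrix

namespace Sch

variable {X Y A R V F : Type} [Fintype A] [Fintype R] [Fintype Y] [Field F] [Fintype F]
  [DecidableEq F] [DecidableEq V] (S : Sch X Y A R V F) (W : X → Y → ℝ) {n k r : ℕ}

/-- The law of the letter of Bob. -/
def pO (o : Y × R) : ℝ := ∑ a, S.P1 W a o

/-- The joint law of the letter of Bob and the shift. -/
def pE (z : Bool) (o : Y × R) (ε : F) : ℝ := ∑ a, if S.e a (S.v z o) = ε then S.P1 W a o else 0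

/-- The information density of the shift given the view of Bob. -/
noncomputable def LE (z : Bool) (a : A) (o : Y × R) : ℝ :=
  -Real.log (S.pE W z o (S.e a (S.v z o)) / S.pO W o)

/-- The two hash values hidden from Bob. -/
def TB (z : Bool) (g : Seed F n k r) (a : Fin n → A) (o : Fin n → Y × R) : (Fin r → F) × Key k :=
  (Matrix.of g.1 *ᵥ S.Ev a (S.vn z o), g.2 (!z) (S.wn z a o - sel (!z) (S.Ev a (S.vn z o))))

/-- The joint weight of the letters of Bob and the hash values. -/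
noncomputable def wT (z : Bool) (g : Seed F n k r) (a : Fin n → A) (o : Fin n → Y × R) : ℝ :=
  ∑ a' : Fin n → A, if S.TB z g a' o = S.TB z g a o then ∏ i, S.P1 W (a' i) (o i) else 0

omit [Fintype Y] [Field F] [Fintype F] [DecidableEq V] in
lemma pE_pos (hW0 : ∀ x y, 0 ≤ W x y) (z : Bool) {a : A} {o : Y × R} (h : S.P1 W a o ≠ 0) :
    0 < S.pE W z o (S.e a (S.v z o)) := by
  refine lt_of_lt_of_le (lt_of_le_of_ne (S.P1_nonneg W hW0 a o) (Ne.symm h))
    (le_trans (le_of_eq ?_) (Finset.single_le_sum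
    (f := fun a' => if S.e a' (S.v z o) = S.e a (S.v z o) then S.P1 W a' o else 0)
    (fun a' _ => ?_) (Finset.mem_univ a)))
  · simp
  · split_ifs
    · exact S.P1_nonneg W hW0 _ _
    · exact le_rfl

omit [Fintype Y] [Field F] [Fintype F] [DecidableEq V] [DecidableEq F] in
lemma pO_nonneg (hW0 : ∀ x y, 0 ≤ W x y) (o : Y × R) : 0 ≤ S.pO W o :=
  Finset.sum_nonneg fun _ _ => S.P1_nonneg W hW0 _ _

omit [Fintype Y] [Field F] [Fintype F] [DecidableEq V] [DecidableEq F] in
lemma pO_pos (hW0 : ∀ x y, 0 ≤ W x y) {a : A} {o : Y × R} (h : S.P1 W a o ≠ 0) :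
    0 < S.pO W o :=
  lt_of_lt_of_le (lt_of_le_of_ne (S.P1_nonneg W hW0 a o) (Ne.symm h))
    (Finset.single_le_sum (f := fun a' => S.P1 W a' o) (fun _ _ => S.P1_nonneg W hW0 _ _)
      (Finset.mem_univ a))

omit [Fintype Y] [Fintype F] [DecidableEq V] in
lemma wT_pos (hW0 : ∀ x y, 0 ≤ W x y) (z : Bool) (g : Seed F n k r) {a : Fin n → A}
    {o : Fin n → Y × R} (h : ∏ i, S.P1 W (a i) (o i) ≠ 0) : 0 < S.wT W z g a o := by
  refine lt_of_lt_of_le (lt_of_le_of_ne
    (Finset.prod_nonneg fun i _ => S.P1_nonneg W hW0 (a i) (o i)) (Ne.symm h))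
    (le_trans (le_of_eq ?_) (Finset.single_le_sum
    (f := fun a' : Fin n → A => if S.TB z g a' o = S.TB z g a o then
      ∏ i, S.P1 W (a' i) (o i) else 0) (fun a' _ => ?_) (Finset.mem_univ a)))
  · simp
  · split_ifs
    · exact Finset.prod_nonneg fun i _ => S.P1_nonneg W hW0 _ _
    · exact le_rfl

omit [Fintype Y] [DecidableEq V] in
lemma avg_wT (hW0 : ∀ x y, 0 ≤ W x y) (z : Bool) (a : Fin n → A) (o : Fin n → Y × R) :
    ∑ g : Seed F n k r, (1 : ℝ) / Fintype.card (Seed F n k r) * S.wT W z g a o ≤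
      ∏ i, S.pE W z (o i) (S.e (a i) (S.v z (o i))) +
        1 / (Fintype.card F ^ r * 2 ^ k) * ∏ i, S.pO W (o i) := by
  have hp : ∀ a' : Fin n → A, 0 ≤ ∏ i, S.P1 W (a' i) (o i) := fun a' =>
    Finset.prod_nonneg fun i _ => S.P1_nonneg W hW0 _ _
  simp only [wT, Finset.mul_sum, pE, pO]
  rw [Finset.sum_comm, ← sum_pi_prod, ← sum_pi_prod, Finset.mul_sum, ← Finset.sum_add_distrib]
  refine Finset.sum_le_sum fun a' _ => ?_
  by_cases h : S.Ev a' (S.vn z o) = S.Ev a (S.vn z o)
  · have h' : ∀ i, S.e (a' i) (S.v z (o i)) = S.e (a i) (S.v z (o i)) := fun i => congrFun h i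
    have hT : ∀ g : Seed F n k r, S.TB z g a' o = S.TB z g a o := fun g => by
      simp only [TB, wn, h]
    simp only [hT, h', if_true]
    rw [Finset.sum_const, Finset.card_univ, nsmul_eq_mul, ← mul_assoc,
      mul_one_div_cancel (by positivity), one_mul]
    exact le_add_of_nonneg_right (mul_nonneg (by positivity) (hp a'))
  · have hne : S.wn z a' o - sel (!z) (S.Ev a' (S.vn z o)) ≠
        S.wn z a o - sel (!z) (S.Ev a (S.vn z o)) := by
      intro h2
      apply h
      cases z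
      · simpa [wn, sel] using h2
      · simpa [wn, sel] using h2
    have := avg_pair (k := k) (r := r) (sub_ne_zero.2 h) hne (!z)
    rw [← this, Finset.sum_mul]
    refine le_add_of_nonneg_of_le (Finset.prod_nonneg fun i _ => ?_) (le_of_eq ?_)
    · split_ifs
      · exact S.P1_nonneg W hW0 _ _
      · exact le_rfl
    · refine Finset.sum_congr rfl fun g _ => ?_
      simp only [TB, Prod.mk.injEq, Matrix.mulVec_sub, sub_eq_zero]
      split_ifs <;> simp

/-- The refined view of Bob. -/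
noncomputable def DB (z : Bool) (ω : Om Y A R F n k r) :
    (Fin n → Y × R) × Seed F n k r × (Fin r → F) × Key k × Key k × Key k :=
  (ω.2.2, ω.1.2.2, (S.TB z ω.1.2.2 ω.2.1 ω.2.2).1,
    ω.1.1 + ω.1.2.2.2 z (S.dn W z ω.1.2.2 ω.2.1 ω.2.2 - sel z (S.Ev ω.2.1 (S.vn z ω.2.2))),
    ω.1.2.1 + (S.TB z ω.1.2.2 ω.2.1 ω.2.2).2,
    ω.1.2.2.2 (!z) (S.dn W z ω.1.2.2 ω.2.1 ω.2.2 - sel (!z) (S.Ev ω.2.1 (S.vn z ω.2.2))) -
      (S.TB z ω.1.2.2 ω.2.1 ω.2.2).2)

lemma comm_of_DB (z : Bool) (ω : Om Y A R F n k r) :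
    (S.prot W n k r).comm n (S.emb W z ω) =
      (fun d : (Fin n → Y × R) × Seed F n k r × (Fin r → F) × Key k × Key k × Key k =>
        [Mg.nil, Mg.fin d.2.1.2 (if z then d.2.2.2.2.1 + d.2.2.2.2.2 else d.2.2.2.1)
          (if z then d.2.2.2.1 else d.2.2.2.2.1 + d.2.2.2.2.2),
          Mg.sg (Matrix.of d.2.1.1 *ᵥ S.ln z d.1 + sel z d.2.2.1), Mg.hc d.2.1.1 d.2.2.1,
          Mg.vv (S.vn z d.1), Mg.nil] ++ List.replicate (6 * n) Mg.nil) (S.DB W z ω) := by
  refine (S.comm_eq W _).trans ?_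
  congr 1
  have e := S.sigma_eq z ω.1.2.2.1 ω.2.1 ω.2.2
  cases z
  · simp only [last, emb, DB, cj, TB, dn, ← e, add_add_sub_cancel]
    rfl
  · simp only [last, emb, DB, cj, TB, dn, ← e, add_add_sub_cancel]
    rfl

lemma mass_DB_le (hW0 : ∀ x y, 0 ≤ W x y) (z : Bool) (ω : Om Y A R F n k r) :
    mass (S.Pp W) (fun ω => (S.DB W z ω, ω.1.2.1)) (S.DB W z ω, ω.1.2.1) ≤
      c0 F n k r * S.wT W z ω.1.2.2 ω.2.1 ω.2.2 := by
  classical
  rw [mass_eq, Fintype.sum_prod_type, Finset.sum_comm, Fintype.sum_prod_type, wT, Finset.mul_sum]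
  refine Finset.sum_le_sum fun a' _ => ?_
  rw [Finset.sum_eq_single ω.2.2, Finset.sum_eq_single ((S.DB W z ω).2.2.2.1 -
      ω.1.2.2.2 z (S.dn W z ω.1.2.2 a' ω.2.2 - sel z (S.Ev a' (S.vn z ω.2.2))), ω.1.2.1, ω.1.2.2)]
  · have hp : 0 ≤ ∏ i, S.P1 W (a' i) (ω.2.2 i) :=
      Finset.prod_nonneg fun i _ => S.P1_nonneg W hW0 _ _
    have hc := (c0_pos F n k r).le
    split_ifs with h1 h2 h2
    · exact le_rfl
    · refine absurd (Prod.ext ?_ ?_) h2
      · exact congrArg (fun t => t.1.2.2.1) h1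
      · exact add_left_cancel (a := ω.1.2.1) (congrArg (fun t => t.1.2.2.2.2.1) h1)
    · positivity
    · simp
  · rintro ⟨K, K', g⟩ _ hne
    refine if_neg fun h => hne ?_
    have h1 : g = ω.1.2.2 := congrArg (fun t => t.1.2.1) h
    have h2 : K' = ω.1.2.1 := congrArg (fun t => t.2) h
    have h3 := congrArg (fun t => t.1.2.2.2.1) h
    subst h1
    refine Prod.ext (eq_sub_of_add_eq h3) (Prod.ext h2 rfl)
  · simp
  · intro o _ hne
    exact Finset.sum_eq_zero fun c _ => if_neg fun h => hne (congrArg (fun t => t.1.1) h)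
  · simp

lemma leakB_le (hW0 : ∀ x y, 0 ≤ W x y) (hW1 : ∀ x, ∑ y, W x y = 1) (z : Bool) {s η : ℝ}
    (hs : 0 < s) (hs1 : s ≤ 1) (hη : 0 < η) (hη1 : η < 1) :
    (S.prot W n k r).leakB W n z * Real.log 2 ≤
      Real.exp (s * (r * Real.log (Fintype.card F) + k * Real.log 2)) *
        (∑ a, ∑ o, S.P1 W a o * Real.exp (s * -S.LE W z a o)) ^ n / s +
      (-Real.log (1 - η) + S.errp W n k r z * (k * Real.log 2 - Real.log η)) := by
  classical
  have hP0 := S.Pp_nonneg W (n := n) (k := k) (r := r) hW0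
  have hP1 := S.Pp_sum W (n := n) (k := k) (r := r) hW1
  have hne : ∀ ω : Om Y A R F n k r, S.Pp W ω ≠ 0 → ∏ i, S.P1 W (ω.2.1 i) (ω.2.2 i) ≠ 0 :=
    fun ω h => (mul_ne_zero_iff.1 h).2
  have hne' : ∀ ω : Om Y A R F n k r, S.Pp W ω ≠ 0 → ∀ i, S.P1 W (ω.2.1 i) (ω.2.2 i) ≠ 0 :=
    fun ω h i => Finset.prod_ne_zero_iff.1 (hne ω h) i (Finset.mem_univ i)
  have e0 : (S.prot W n k r).leakB W n z = mi (S.Pp W) (fun ω => ((S.emb W z ω).2.1.2,
      (S.emb W z ω).2.2, (S.prot W n k r).comm n (S.emb W z ω))) (fun ω => ω.1.2.1) := by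
    unfold Protocol.leakB
    rw [(S.prot W n k r).condOn_eq hW1, mi_transfer (S.sum_Pz W z)]
    cases z <;> rfl
  have d := mi_le_of_det hP0 hP1 (fun ω => ((S.emb W z ω).2.1.2,
      (S.emb W z ω).2.2, (S.prot W n k r).comm n (S.emb W z ω))) (S.DB W z) (fun ω => ω.1.2.1)
    (fun ω ω' _ _ h => by
      have h1 : ω.2.2 = ω'.2.2 := congrArg (fun t => t.1) h
      refine Prod.ext ?_ (Prod.ext ?_ ?_)
      · simp only [emb, h1]
      · simp only [emb, h1]
      · simp only [comm_of_DB, h])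
  set qd : Key k → ℝ := fun δ => (if δ = 0 then 1 - η else 0) + η * (1 / 2 ^ k) with hqd
  have hqd0 : ∀ δ, 0 < qd δ := fun δ => by
    have : 0 < 1 - η := by linarith
    simp only [hqd]; positivity
  have hqd1 : ∑ δ, qd δ = 1 := by
    simp only [hqd, Finset.sum_add_distrib, Finset.sum_ite_eq', Finset.mem_univ, if_true,
      Finset.sum_const, Finset.card_univ, card_key, nsmul_eq_mul]
    push_cast
    field_simp
    ring
  have hpO : ∑ o : Fin n → Y × R, ∏ i, S.pO W (o i) = 1 := by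
    rw [← Fintype.sum_pow]
    unfold pO
    rw [Finset.sum_comm, S.P1_sum W hW1, one_pow]
  set m : ℝ := (Fintype.card F : ℝ) with hm
  have hm0 : 0 < m := by positivity
  have g1 := gibbs hP0 hP1 (S.DB W z) (fun d => (∏ i, S.pO W (d.1 i)) *
      (c0 F n k r * (1 / m ^ r) * qd d.2.2.2.2.2))
    (fun d => mul_nonneg (Finset.prod_nonneg fun i _ => S.pO_nonneg W hW0 _)
      (mul_pos (mul_pos (c0_pos F n k r) (by positivity)) (hqd0 _)).le)
    (by
      simp only [Fintype.sum_prod_type, ← Finset.mul_sum, hqd1, Finset.sum_const, Finset.card_univ,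
        nsmul_eq_mul, mul_one, ← Finset.sum_mul, hpO, one_mul, c0, Fintype.card_fun,
        Fintype.card_fin]
      push_cast
      rw [← hm]
      field_simp
      rfl)
    (fun ω h => mul_pos (Finset.prod_pos fun i _ => S.pO_pos W hW0 (hne' ω h i))
      (mul_pos (mul_pos (c0_pos F n k r) (by positivity)) (hqd0 _)))
  have g2 := H_le_log_card hP0 hP1 (fun ω => ω.1.2.1)
  rw [card_key] at g2
  have g3 := le_H hP0 (fun ω => (S.DB W z ω, ω.1.2.1))
    (fun ω => c0 F n k r * S.wT W z ω.1.2.2 ω.2.1 ω.2.2) (fun ω _ => S.mass_DB_le W hW0 z ω)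
  set T : ℝ := m ^ r * 2 ^ k with hT
  have hT0 : 0 < T := by positivity
  set t : (Fin n → A) → (Fin n → Y × R) → ℝ := fun a o =>
    r * Real.log m + k * Real.log 2 + ∑ i, -S.LE W z (a i) (o i) with ht
  have hexp : ∀ (a : Fin n → A) (o : Fin n → Y × R), (∀ i, S.P1 W (a i) (o i) ≠ 0) →
      Real.exp (t a o) = T * (∏ i, S.pE W z (o i) (S.e (a i) (S.v z (o i)))) /
        ∏ i, S.pO W (o i) := by
    intro a o h
    simp only [ht]
    rw [Real.exp_add, Real.exp_add, Real.exp_nat_mul, Real.exp_nat_mul, Real.exp_log hm0,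
      Real.exp_log two_pos, Real.exp_sum, mul_div_assoc, ← Finset.prod_div_distrib]
    congr 1
    refine Finset.prod_congr rfl fun i _ => ?_
    rw [LE, neg_neg, Real.exp_log (div_pos (S.pE_pos W hW0 z (h i)) (S.pO_pos W hW0 (h i)))]
  have j := jensen hP0 hP1 (fun ω => T * S.wT W z ω.1.2.2 ω.2.1 ω.2.2 / (∏ i, S.pO W (ω.2.2 i)) /
      (1 + Real.exp (t ω.2.1 ω.2.2)))
    (fun ω h => div_pos (div_pos (mul_pos hT0 (S.wT_pos W hW0 z _ (hne ω h)))
      (Finset.prod_pos fun i _ => S.pO_pos W hW0 (hne' ω h i))) (by positivity))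
    (by
      rw [S.sum_Pp W (fun g a o => T * S.wT W z g a o / (∏ i, S.pO W (o i)) /
        (1 + Real.exp (t a o)))]
      calc _ ≤ ∑ a : Fin n → A, ∑ o : Fin n → Y × R, ∏ i, S.P1 W (a i) (o i) := by
            refine Finset.sum_le_sum fun a _ => Finset.sum_le_sum fun o _ => ?_
            by_cases h : ∏ i, S.P1 W (a i) (o i) = 0
            · simp [h]
            refine mul_le_of_le_one_right
              (Finset.prod_nonneg fun i _ => S.P1_nonneg W hW0 _ _) ?_
            have h' : ∀ i, S.P1 W (a i) (o i) ≠ 0 := fun i =>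
              Finset.prod_ne_zero_iff.1 h i (Finset.mem_univ i)
            have hO : 0 < ∏ i, S.pO W (o i) := Finset.prod_pos fun i _ => S.pO_pos W hW0 (h' i)
            have := S.avg_wT W (k := k) (r := r) hW0 z a o
            have e : ∑ g : Seed F n k r, (1 : ℝ) / Fintype.card (Seed F n k r) *
                (T * S.wT W z g a o / (∏ i, S.pO W (o i)) / (1 + Real.exp (t a o))) =
                T * (∑ g : Seed F n k r, (1 : ℝ) / Fintype.card (Seed F n k r) * S.wT W z g a o) /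
                  (∏ i, S.pO W (o i)) / (1 + Real.exp (t a o)) := by
              simp only [Finset.mul_sum, Finset.sum_div]
              exact Finset.sum_congr rfl fun g _ => by ring
            rw [e, div_le_one (by positivity), hexp a o h', div_le_iff₀ hO]
            refine (mul_le_mul_of_nonneg_left this hT0.le).trans (le_of_eq ?_)
            rw [← hm, ← hT]
            field_simp
            ring
        _ = 1 := by rw [sum_prod_pow, S.P1_sum W hW1, one_pow])
  have b1 : ∑ ω : Om Y A R F n k r, S.Pp W ω * Real.log (1 + Real.exp (t ω.2.1 ω.2.2)) ≤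
      Real.exp (s * (r * Real.log m + k * Real.log 2)) *
        (∑ a, ∑ o, S.P1 W a o * Real.exp (s * -S.LE W z a o)) ^ n / s := by
    rw [← S.sum_Pp_prod W (n := n) (k := k) (r := r), Finset.mul_sum, Finset.sum_div]
    refine Finset.sum_le_sum fun ω _ => ?_
    rw [mul_left_comm, mul_div_assoc]
    refine mul_le_mul_of_nonneg_left ((log_one_add_exp_le hs hs1 _).trans (le_of_eq ?_)) (hP0 ω)
    rw [← Real.exp_sum, ← Real.exp_add, ← Finset.mul_sum, ← mul_add]
  have b2 : ∑ ω : Om Y A R F n k r, S.Pp W ω * -Real.log (qd (S.DB W z ω).2.2.2.2.2) ≤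
      -Real.log (1 - η) + S.errp W n k r z * (k * Real.log 2 - Real.log η) := by
    have hl : 0 ≤ -Real.log (1 - η) := by
      rw [neg_nonneg]; exact Real.log_nonpos (by linarith) (by linarith)
    calc _ ≤ ∑ ω : Om Y A R F n k r, S.Pp W ω * (-Real.log (1 - η) +
          (if S.dn W z ω.1.2.2 ω.2.1 ω.2.2 ≠ S.wn z ω.2.1 ω.2.2 then 1 else 0) *
            (k * Real.log 2 - Real.log η)) := by
          refine Finset.sum_le_sum fun ω _ => mul_le_mul_of_nonneg_left ?_ (hP0 ω)
          by_cases h : S.dn W z ω.1.2.2 ω.2.1 ω.2.2 = S.wn z ω.2.1 ω.2.2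
          · have : (S.DB W z ω).2.2.2.2.2 = 0 := by simp only [DB, TB, h, sub_self]
            rw [this, if_neg (by simpa using h), zero_mul, add_zero, neg_le_neg_iff]
            refine Real.log_le_log (by linarith) ?_
            have : 0 ≤ η * (1 / 2 ^ k) := by positivity
            simp only [hqd, if_true]; linarith
          · rw [if_pos h, one_mul]
            have h1 : η * (1 / 2 ^ k) ≤ qd (S.DB W z ω).2.2.2.2.2 := by
              simp only [hqd]
              split_ifs <;> linarith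
            have h2 := Real.log_le_log (by positivity) h1
            rw [Real.log_mul hη.ne' (by positivity)] at h2
            simp only [one_div, Real.log_inv, Real.log_pow] at h2
            linarith
      _ = _ := by
          simp only [mul_add, Finset.sum_add_distrib, ← Finset.sum_mul, hP1, one_mul, ← mul_assoc]
          rfl
  have e1 : ∑ ω : Om Y A R F n k r, S.Pp W ω * -Real.log ((∏ i, S.pO W (ω.2.2 i)) *
        (c0 F n k r * (1 / m ^ r) * qd (S.DB W z ω).2.2.2.2.2)) + k * Real.log 2 -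
      ∑ ω : Om Y A R F n k r, S.Pp W ω * -Real.log (c0 F n k r * S.wT W z ω.1.2.2 ω.2.1 ω.2.2) =
      ∑ ω : Om Y A R F n k r, S.Pp W ω * Real.log (T * S.wT W z ω.1.2.2 ω.2.1 ω.2.2 /
        (∏ i, S.pO W (ω.2.2 i)) / (1 + Real.exp (t ω.2.1 ω.2.2))) +
      ∑ ω : Om Y A R F n k r, S.Pp W ω * Real.log (1 + Real.exp (t ω.2.1 ω.2.2)) +
      ∑ ω : Om Y A R F n k r, S.Pp W ω * -Real.log (qd (S.DB W z ω).2.2.2.2.2) := by
    have : k * Real.log 2 = ∑ ω : Om Y A R F n k r, S.Pp W ω * (k * Real.log 2) := by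
      rw [← Finset.sum_mul, hP1, one_mul]
    rw [this]
    simp only [← Finset.sum_add_distrib, ← Finset.sum_sub_distrib]
    refine Finset.sum_congr rfl fun ω _ => ?_
    by_cases h : S.Pp W ω = 0
    · simp [h]
    have hO : 0 < ∏ i, S.pO W (ω.2.2 i) :=
      Finset.prod_pos fun i _ => S.pO_pos W hW0 (hne' ω h i)
    have hw := S.wT_pos W hW0 z ω.1.2.2 (hne ω h)
    have hc := c0_pos F n k r
    have hq := hqd0 (S.DB W z ω).2.2.2.2.2
    rw [Real.log_div (by positivity) (by positivity), Real.log_div (by positivity) hO.ne',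
      Real.log_mul hT0.ne' hw.ne', Real.log_mul hO.ne' (by positivity),
      Real.log_mul (by positivity) hq.ne', Real.log_mul hc.ne' (by positivity),
      Real.log_mul hc.ne' hw.ne', hT, Real.log_mul (by positivity) (by positivity)]
    simp only [one_div, Real.log_inv, Real.log_pow]
    ring
  rw [e0]
  simp only [Nat.cast_pow, Nat.cast_ofNat, Real.log_pow] at g2
  change H (S.Pp W) (S.DB W z) ≤ ∑ ω : Om Y A R F n k r, S.Pp W ω *
    -Real.log ((∏ i, S.pO W (ω.2.2 i)) *
      (c0 F n k r * (1 / m ^ r) * qd (S.DB W z ω).2.2.2.2.2)) at g1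
  linarith

end Sch

end Pool.Agent.Lib.MP_426fec_lc
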