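import Pool.Agent.Lib.MP_426fec_lc.Achieve3

set_option autoImplicit false

namespace Pool.Agent.Lib.MP_426fec_lc

open Finset Matrix Filter Topology

lemma Protocol.errz_nonneg {X Y : Type} [Fintype Y] {k : ℕ} (π : Protocol X Y k) {W : X → Y → ℝ}
    (hW0 : ∀ x y, 0 ≤ W x y) (n : ℕ) (z : Bool) : 0 ≤ π.errz W n z := by
  refine Finset.sum_nonneg fun ω _ => ?_
  split_ifs
  · exact π.Pz_nonneg hW0 n z ω
  · exact le_rfl

namespace Sch

variable {X Y A R V F : Type} [Fintype A] [Fintype R] [Fintype Y] [Field F] [Fintype F]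
  [DecidableEq F] [DecidableEq V] (S : Sch X Y A R V F) (W : X → Y → ℝ)

/-- The entropy of the shifted label given the view of Alice, in nats. -/
noncomputable def HW (z : Bool) : ℝ := ∑ a, ∑ o, S.P1 W a o * S.LW W z a o

/-- The entropy of the shift given the view of Bob, in nats. -/
noncomputable def HE (z : Bool) : ℝ := ∑ a, ∑ o, S.P1 W a o * S.LE W z a o

lemma HW_nonneg (hW0 : ∀ x y, 0 ≤ W x y) (z : Bool) : 0 ≤ S.HW W z := by
  refine Finset.sum_nonneg fun a _ => Finset.sum_nonneg fun o _ =>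
    mul_nonneg (S.P1_nonneg W hW0 a o) ?_
  rw [LW, neg_nonneg]
  have h0 := S.mu_nonneg W hW0 false a (S.v z o)
  refine Real.log_nonpos (div_nonneg (h0 _) (Finset.sum_nonneg fun w _ => h0 w))
    (div_le_one_of_le₀ ?_ (Finset.sum_nonneg fun w _ => h0 w))
  exact Finset.single_le_sum (fun w _ => h0 w) (Finset.mem_univ _)

omit [Field F] [Fintype F] [DecidableEq F] [DecidableEq V] in
lemma mgf (hW0 : ∀ x y, 0 ≤ W x y) (hW1 : ∀ x, ∑ y, W x y = 1) (L : A → Y × R → ℝ) {δ : ℝ}
    (hδ : 0 < δ) : ∃ s : ℝ, 0 < s ∧ s ≤ 1 ∧ ∑ a, ∑ o, S.P1 W a o * Real.exp (s * L a o) ≤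
      Real.exp (s * (∑ a, ∑ o, S.P1 W a o * L a o + δ)) := by
  have := exists_mgf (P := fun t : A × (Y × R) => S.P1 W t.1 t.2)
    (fun t => S.P1_nonneg W hW0 _ _) (by rw [Fintype.sum_prod_type]; exact S.P1_sum W hW1)
    (fun t => L t.1 t.2) hδ
  simpa only [Fintype.sum_prod_type (α₁ := A)] using this

theorem achieve (hW0 : ∀ x y, 0 ≤ W x y) (hW1 : ∀ x, ∑ y, W x y = 1)
    (hsym : S.mu W true = S.mu W false) {ρ : ℝ} (hρ : 0 ≤ ρ)
    (hlt : ∀ z z', ρ * Real.log 2 < S.HE W z - S.HW W z') : Achievable W ρ := by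
  set h := max (S.HW W false) (S.HW W true) with hh
  have hz : ∀ z, S.HW W z ≤ h := fun z => by cases z; exacts [le_max_left _ _, le_max_right _ _]
  have h0 : 0 ≤ h := (S.HW_nonneg W hW0 false).trans (hz false)
  have hlt' : ∀ z, ρ * Real.log 2 < S.HE W z - h := fun z => by
    rcases max_choice (S.HW W false) (S.HW W true) with e | e <;> rw [hh, e] <;> exact hlt _ _
  set δ := (min (S.HE W false) (S.HE W true) - h - ρ * Real.log 2) / 4 with hδ
  have hδ0 : 0 < δ := by
    have a := hlt' false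
    have b := hlt' true
    rcases min_choice (S.HE W false) (S.HE W true) with e | e <;> rw [hδ, e] <;> linarith
  have hδz : ∀ z, h + 4 * δ + ρ * Real.log 2 ≤ S.HE W z := fun z => by
    have : min (S.HE W false) (S.HE W true) ≤ S.HE W z := by
      cases z; exacts [min_le_left _ _, min_le_right _ _]
    rw [hδ]; linarith
  have hm : 0 < Real.log (Fintype.card F) :=
    Real.log_pos (by exact_mod_cast Fintype.one_lt_card)
  have hl2 := Real.log_pos one_lt_two
  set r : ℕ → ℕ := fun n => ⌈n * (h + 2 * δ) / Real.log (Fintype.card F)⌉₊ with hr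
  set k : ℕ → ℕ := fun n => ⌊ρ * n⌋₊ with hk
  have r1 : ∀ n : ℕ, n * (h + 2 * δ) ≤ r n * Real.log (Fintype.card F) := fun n => by
    rw [← div_le_iff₀ hm]; exact Nat.le_ceil _
  have r2 : ∀ n : ℕ, r n * Real.log (Fintype.card F) ≤
      n * (h + 2 * δ) + Real.log (Fintype.card F) := fun n => by
    have := (Nat.ceil_lt_add_one (show 0 ≤ n * (h + 2 * δ) / Real.log (Fintype.card F) by
      positivity)).le
    have h2 := mul_le_mul_of_nonneg_right this hm.le
    rwa [add_mul, div_mul_cancel₀ _ hm.ne', one_mul] at h2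
  have k1 : ∀ n : ℕ, (k n : ℝ) ≤ ρ * n := fun n => Nat.floor_le (by positivity)
  have herr : ∀ z, ∃ c : ℝ, 0 ≤ c ∧ c < 1 ∧ ∀ n, S.errp W n (k n) (r n) z ≤ c ^ n := by
    intro z
    obtain ⟨s, hs, hs1, hb⟩ := S.mgf W hW0 hW1 (S.LW W z) hδ0
    refine ⟨Real.exp (-(s * δ)), (Real.exp_pos _).le,
      Real.exp_lt_one_iff.2 (by have := mul_pos hs hδ0; linarith), fun n => ?_⟩
    refine (S.errp_le W hW0 hsym z hs hs1).trans ?_
    refine (mul_le_mul_of_nonneg_left (pow_le_pow_left₀ (Finset.sum_nonneg fun a _ =>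
      Finset.sum_nonneg fun o _ => mul_nonneg (S.P1_nonneg W hW0 a o) (Real.exp_pos _).le) hb n)
      (Real.exp_pos _).le).trans ?_
    rw [← Real.exp_nat_mul, ← Real.exp_nat_mul, ← Real.exp_add, Real.exp_le_exp]
    have a1 := mul_le_mul_of_nonneg_left (r1 n) hs.le
    have a2 : (n : ℝ) * (s * S.HW W z) ≤ n * (s * h) := by have := hz z; gcongr
    change _ + n * (s * (S.HW W z + δ)) ≤ _
    nlinarith
  have herr0 : ∀ z n, 0 ≤ S.errp W n (k n) (r n) z := fun z n =>
    ((S.prot W n (k n) (r n)).errz_nonneg hW0 n z).trans (S.errz_le W hW0 z)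
  have hleak : ∀ z, Tendsto (fun n => (S.prot W n (k n) (r n)).leakB W n z) atTop (𝓝 0) := by
    intro z
    obtain ⟨c, hc0, hc1, hc⟩ := herr z
    obtain ⟨s, hs, hs1, hb⟩ := S.mgf W hW0 hW1 (fun a o => -S.LE W z a o) hδ0
    have hd1 : Real.exp (-(s * δ)) < 1 := Real.exp_lt_one_iff.2 (by have := mul_pos hs hδ0; linarith)
    have t1 := (tendsto_pow_atTop_nhds_zero_of_lt_one (Real.exp_pos _).le hd1).const_mul
      (Real.exp (s * Real.log (Fintype.card F)) / s)
    have t2 : Tendsto (fun n : ℕ => -Real.log (1 - 1 / ((n : ℝ) + 2))) atTop (𝓝 0) := by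
      have a : Tendsto (fun n : ℕ => 1 / ((n : ℝ) + 2)) atTop (𝓝 0) :=
        tendsto_const_nhds.div_atTop (tendsto_natCast_atTop_atTop.atTop_add tendsto_const_nhds)
      have := ((a.const_sub 1).log (by norm_num)).neg
      simpa using this
    have t3 := ((tendsto_self_mul_const_pow_of_lt_one hc0 hc1).const_mul
      (ρ * Real.log 2 + 1)).add ((tendsto_pow_atTop_nhds_zero_of_lt_one hc0 hc1).const_mul 2)
    have t4 := ((t1.add (t2.add t3)).div_const (Real.log 2))
    simp only [mul_zero, add_zero, zero_div] at t4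
    refine squeeze_zero (fun n => ?_) (fun n => ?_) t4
    · unfold Protocol.leakB
      rw [(S.prot W n (k n) (r n)).condOn_eq hW1]
      exact mi_nonneg ((S.prot W n (k n) (r n)).Pz_nonneg hW0 n z)
        ((S.prot W n (k n) (r n)).Pz_sum hW1 n z) _ _
    · rw [le_div_iff₀ hl2]
      have hn : (0 : ℝ) ≤ n := n.cast_nonneg
      refine (S.leakB_le W hW0 hW1 z (η := 1 / ((n : ℝ) + 2)) hs hs1 (by positivity)
        (by rw [div_lt_one (by positivity)]; linarith)).trans ?_
      refine add_le_add ?_ (add_le_add le_rfl ?_)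
      · rw [div_mul_eq_mul_div]
        refine div_le_div_of_nonneg_right ?_ hs.le
        refine (mul_le_mul_of_nonneg_left (pow_le_pow_left₀ (Finset.sum_nonneg fun a _ =>
          Finset.sum_nonneg fun o _ => mul_nonneg (S.P1_nonneg W hW0 a o) (Real.exp_pos _).le)
          hb n) (Real.exp_pos _).le).trans ?_
        rw [← Real.exp_nat_mul, ← Real.exp_nat_mul, ← Real.exp_add, ← Real.exp_add,
          Real.exp_le_exp]
        have e : ∑ a, ∑ o, S.P1 W a o * -S.LE W z a o = -S.HE W z := by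
          simp only [HE, mul_neg, Finset.sum_neg_distrib]
        rw [e]
        have a1 := mul_le_mul_of_nonneg_left (r2 n) hs.le
        have a2 : s * (k n * Real.log 2) ≤ s * (ρ * n * Real.log 2) := by have := k1 n; gcongr
        have a3 : (n : ℝ) * (s * (h + 4 * δ + ρ * Real.log 2)) ≤ n * (s * S.HE W z) := by
          have := hδz z; gcongr
        nlinarith
      · have b1 : -Real.log (1 / ((n : ℝ) + 2)) ≤ n + 2 := by
          rw [one_div, Real.log_inv, neg_neg]
          linarith [Real.log_le_sub_one_of_pos (show (0 : ℝ) < n + 2 by positivity)]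
        have b2 : k n * Real.log 2 ≤ ρ * n * Real.log 2 := by have := k1 n; gcongr
        have b3 : 0 ≤ ρ * n * Real.log 2 + (n + 2) := by positivity
        calc S.errp W n (k n) (r n) z * (k n * Real.log 2 - Real.log (1 / ((n : ℝ) + 2)))
            ≤ S.errp W n (k n) (r n) z * (ρ * n * Real.log 2 + (n + 2)) :=
              mul_le_mul_of_nonneg_left (by linarith) (herr0 z n)
          _ ≤ c ^ n * (ρ * n * Real.log 2 + (n + 2)) := mul_le_mul_of_nonneg_right (hc n) b3
          _ = _ := by ring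
  refine ⟨k, fun n => S.prot W n (k n) (r n), ?_, ?_, ?_, hleak false, hleak true⟩
  · exact (tendsto_nat_floor_mul_div_atTop hρ).comp tendsto_natCast_atTop_atTop
  · obtain ⟨c, hc0, hc1, hc⟩ := herr false
    obtain ⟨c', hc0', hc1', hc'⟩ := herr true
    have t := ((tendsto_pow_atTop_nhds_zero_of_lt_one hc0 hc1).add
      (tendsto_pow_atTop_nhds_zero_of_lt_one hc0' hc1'))
    rw [add_zero] at t
    refine squeeze_zero (fun n => ?_) (fun n => ?_) t
    · have := (S.prot W n (k n) (r n)).errz_add W n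
      have a := (S.prot W n (k n) (r n)).errz_nonneg hW0 n false
      have b := (S.prot W n (k n) (r n)).errz_nonneg hW0 n true
      linarith
    · have := (S.prot W n (k n) (r n)).errz_add W n
      have a := (S.errz_le W hW0 false).trans (hc n)
      have b := (S.errz_le W hW0 true).trans (hc' n)
      have a' := pow_nonneg hc0 n
      have b' := pow_nonneg hc0' n
      linarith
  · refine tendsto_const_nhds.congr fun n => le_antisymm ?_ (S.leakA_le W hW0 hW1 hsym)
    exact mi_nonneg ((S.prot W n (k n) (r n)).law_nonneg hW0 n)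
      ((S.prot W n (k n) (r n)).law_sum hW1 n) _ _

end Sch

lemma bddAbove_achievable {X Y : Type} [Fintype Y] {W : X → Y → ℝ} (hW0 : ∀ x y, 0 ≤ W x y)
    (hW1 : ∀ x, ∑ y, W x y = 1) : BddAbove {R | Achievable W R} := by
  refine ⟨Real.log (Fintype.card Y) / Real.log 2, fun R hR => ?_⟩
  rw [le_div_iff₀ (Real.log_pos one_lt_two)]
  by_cases hY : Fintype.card Y = 0
  · have : IsEmpty Y := Fintype.card_eq_zero_iff.1 hY
    have hX : IsEmpty X := ⟨fun x => by simpa using hW1 x⟩
    obtain ⟨k, π, -⟩ := hR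
    have hM : Nonempty (π 0).M := by
      by_contra h
      have := (π 0).pM_sum'
      rw [not_nonempty_iff] at h
      simp at this
    exact (hX.false ((π 0).inp (0, 0, hM.some) 0 [])).elim
  have hc : (0 : ℝ) < Fintype.card Y := by positivity
  refine converse (Q := Unit) hW0 hW1 (κ := fun _ _ => 1) (fun _ _ => zero_le_one) (by simp)
    (r := fun _ _ => 1) (s := fun _ _ => 1 / Fintype.card Y) (fun _ _ => zero_le_one) (by simp)
    (fun _ _ => by positivity) (by simp [hc.ne']) (fun _ _ _ _ => ⟨one_pos, by positivity⟩)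
    (fun x => ?_) hR
  calc _ ≤ ∑ y, W x y * Real.log (Fintype.card Y) := by
        refine Finset.sum_le_sum fun y _ => ?_
        simp only [Finset.univ_unique, Finset.sum_singleton, mul_one, one_mul]
        by_cases h : W x y = 0
        · simp [h]
        refine mul_le_mul_of_nonneg_left (Real.log_le_log
          (div_pos (lt_of_le_of_ne (hW0 x y) (Ne.symm h)) (by positivity)) ?_) (hW0 x y)
        rw [div_div_eq_mul_div, div_one]
        refine mul_le_of_le_one_left hc.le ?_
        rw [← hW1 x]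
        exact Finset.single_le_sum (fun y _ => hW0 x y) (Finset.mem_univ y)
    _ = _ := by rw [← Finset.sum_mul, hW1, one_mul]

/-- A lower bound on the capacity from a translation scheme. -/
theorem Sch.le_otCapacity {X Y A R V F : Type} [Fintype A] [Fintype R] [Fintype Y] [Field F]
    [Fintype F] [DecidableEq F] [DecidableEq V] (S : Sch X Y A R V F) (W : X → Y → ℝ)
    (hW0 : ∀ x y, 0 ≤ W x y) (hW1 : ∀ x, ∑ y, W x y = 1) (hsym : S.mu W true = S.mu W false)
    {ρ : ℝ} (hle : ∀ z z', ρ * Real.log 2 ≤ S.HE W z - S.HW W z') : ρ ≤ otCapacity W := by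
  have hnn : 0 ≤ otCapacity W := Real.sSup_nonneg fun R hR => by
    obtain ⟨k, π, hk, -⟩ := hR
    exact ge_of_tendsto' hk fun n => by positivity
  refine le_of_forall_lt_imp_le_of_dense fun ρ' hρ' => ?_
  rcases lt_or_ge ρ' 0 with h | h
  · exact h.le.trans hnn
  · refine le_csSup (bddAbove_achievable hW0 hW1) (S.achieve W hW0 hW1 hsym h fun z z' => ?_)
    exact (mul_lt_mul_of_pos_right hρ' (Real.log_pos one_lt_two)).trans_le (hle z z')

/-- An upper bound on the capacity from three kernels. -/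
theorem otCapacity_le {X Y Q : Type} [Fintype Y] [Fintype Q] {W : X → Y → ℝ}
    (hW0 : ∀ x y, 0 ≤ W x y)
    (hW1 : ∀ x, ∑ y, W x y = 1) {κ : X → Q → ℝ} (hκ0 : ∀ x q, 0 ≤ κ x q)
    (hκ1 : ∀ x, ∑ q, κ x q = 1) {r s : Y → Q → ℝ} (hr0 : ∀ y q, 0 ≤ r y q)
    (hr1 : ∀ y, ∑ q, r y q = 1) (hs0 : ∀ y q, 0 ≤ s y q) (hs1 : ∀ q, ∑ y, s y q = 1)
    (hrs : ∀ x y q, 0 < W x y * κ x q → 0 < r y q ∧ 0 < s y q) {B : ℝ} (hB0 : 0 ≤ B)
    (hB : ∀ x, ∑ y, ∑ q, W x y * κ x q * Real.log (W x y * κ x q / (r y q * s y q)) ≤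
      B * Real.log 2) : otCapacity W ≤ B :=
  Real.sSup_le (fun _ hR => le_of_mul_le_mul_right
    (converse hW0 hW1 hκ0 hκ1 hr0 hr1 hs0 hs1 hrs hB hR) (Real.log_pos one_lt_two)) hB0

end Pool.Agent.Lib.MP_426fec_lc
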