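import Pool.Agent.Lib.MP_426fec_lc.Tension

set_option autoImplicit false

namespace Pool.Agent.Lib.MP_426fec_lc

open Finset Filter Topology

lemma dv_bool {Ω α : Type} [Fintype Ω] {P : Ω → ℝ} (hP : ∀ ω, 0 ≤ P ω) (h1 : ∑ ω, P ω = 1)
    (f : Ω → α) (Z : Ω → Bool) (σ : Bool → ℝ) (hσ : ∀ b, |σ b| ≤ 1) (hz : ∑ ω, P ω * σ (Z ω) = 0)
    (γ : α → ℝ) (hγ : ∀ a, |γ a| ≤ 1) {l : ℝ} (hl : 0 < l) (hl2 : l ≤ 1 / 2) :
    ∑ ω, P ω * (σ (Z ω) * γ (f ω)) ≤ mi P f Z * Real.log 2 / l + 2 * l := by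
  have hb : ∀ a b, |σ b * γ a| ≤ 1 := fun a b => by
    rw [abs_mul]; exact mul_le_one₀ (hσ b) (abs_nonneg _) (hγ a)
  have hpos : ∀ a b, 1 / 2 ≤ 1 + l * (σ b * γ a) := fun a b => by
    have := abs_le.1 (hb a b)
    nlinarith
  have h := dv hP h1 f Z (fun a b => 1 + l * (σ b * γ a))
    (fun a b => lt_of_lt_of_le (by norm_num) (hpos a b)) (le_of_eq ?_)
  · have h2 : ∑ ω, (l * (P ω * (σ (Z ω) * γ (f ω))) - 2 * l ^ 2 * P ω) ≤
        ∑ ω, P ω * Real.log (1 + l * (σ (Z ω) * γ (f ω))) := by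
      refine Finset.sum_le_sum fun ω _ => ?_
      set u := σ (Z ω) * γ (f ω)
      have hu : 1 / 2 ≤ 1 + l * u := hpos _ _
      have hu2 : u ^ 2 ≤ 1 := by
        have := hb (f ω) (Z ω)
        rw [← sq_abs]; nlinarith [abs_nonneg u]
      have h3 := Real.one_sub_inv_le_log_of_pos (show 0 < 1 + l * u by linarith)
      have h4 : l * u - 2 * l ^ 2 ≤ 1 - (1 + l * u)⁻¹ := by
        have h5 : (1 + l * u)⁻¹ ≤ 1 - l * u + 2 * l ^ 2 := by
          rw [inv_le_iff_one_le_mul₀ (by linarith)]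
          nlinarith [sq_nonneg l, mul_nonneg (sq_nonneg l) (show 0 ≤ 1 + 2 * (l * u) by linarith),
            mul_le_mul_of_nonneg_left hu2 (sq_nonneg l)]
        linarith
      nlinarith [hP ω]
    rw [Finset.sum_sub_distrib, ← Finset.mul_sum, ← Finset.mul_sum, h1] at h2
    rw [div_add' _ _ _ hl.ne', le_div_iff₀ hl]
    nlinarith
  · calc ∑ ω, ∑ ω', P ω * P ω' * (1 + l * (σ (Z ω') * γ (f ω)))
        = ∑ ω, (P ω * ∑ ω', P ω' + l * P ω * γ (f ω) * ∑ ω', P ω' * σ (Z ω')) := by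
          refine Finset.sum_congr rfl fun ω _ => ?_
          rw [Finset.mul_sum, Finset.mul_sum, ← Finset.sum_add_distrib]
          exact Finset.sum_congr rfl fun ω' _ => by ring
      _ = 1 := by simp [hz, h1]

lemma sum_mass_pair {Ω α β : Type} [Fintype Ω] [Fintype α] (P : Ω → ℝ) (f : Ω → α) (g : Ω → β)
    (b : β) : ∑ a, mass P (fun ω => (f ω, g ω)) (a, b) = mass P g b := by
  classical
  simp only [mass_eq]
  rw [Finset.sum_comm]
  refine Finset.sum_congr rfl fun ω _ => ?_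
  by_cases h : g ω = b <;> simp [h]

lemma card_key (k : ℕ) : Fintype.card (Key k) = 2 ^ k := by simp [Key]

namespace Protocol

variable {X Y Q : Type} {k : ℕ} (π : Protocol X Y k)

/-- The prior of Alice. -/
noncomputable def pA0 (a : Key k × Key k × π.M) : ℝ := 1 / 2 ^ k * (1 / 2 ^ k) * π.pM a.2.2

/-- The prior of Bob given his choice bit. -/
noncomputable def pBz (z : Bool) (b : Bool × π.N) : ℝ := if b.1 = z then π.pN b.2 else 0

lemma pA0_nonneg (a : Key k × Key k × π.M) : 0 ≤ π.pA0 a :=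
  mul_nonneg (by positivity) (π.pM_nonneg _)

lemma pBz_nonneg (z : Bool) (b : Bool × π.N) : 0 ≤ π.pBz z b := by
  unfold pBz; split_ifs; exacts [π.pN_nonneg _, le_rfl]

lemma pM_sum' : ∑ m, π.pM m = 1 := π.pM_sum
lemma pN_sum' : ∑ m, π.pN m = 1 := π.pN_sum

lemma pA0_sum : ∑ a, π.pA0 a = 1 := by
  simp [pA0, Fintype.sum_prod_type, ← Finset.mul_sum, pM_sum']
  field_simp

lemma pBz_sum (z : Bool) : ∑ b, π.pBz z b = 1 := by
  cases z <;> simp [pBz, Fintype.sum_prod_type, pN_sum']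

/-- The law of a run given the choice bit. -/
noncomputable def Pz (W : X → Y → ℝ) (n : ℕ) (z : Bool) : π.Omega n → ℝ :=
  π.P0 W π.pA0 (π.pBz z) n

lemma law_eq (W : X → Y → ℝ) (n : ℕ) (ω : π.Omega n) :
    π.law W n ω = 1 / 2 * π.Pz W n ω.2.1.1 ω := by
  simp only [law, Pz, P0, pA0, pBz, if_true]; ring

lemma Pz_eq_zero (W : X → Y → ℝ) (n : ℕ) {z : Bool} {ω : π.Omega n} (h : ω.2.1.1 ≠ z) :
    π.Pz W n z ω = 0 := by
  simp [Pz, P0, pBz, h]

lemma law_eq' (W : X → Y → ℝ) (n : ℕ) (ω : π.Omega n) (j : Bool) :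
    π.law W n ω = 1 / 2 * (π.Pz W n j ω + π.Pz W n (!j) ω) := by
  rw [law_eq]
  by_cases h : ω.2.1.1 = j
  · rw [π.Pz_eq_zero W n (z := !j) (by simp [h]), h, add_zero]
  · rw [π.Pz_eq_zero W n h, zero_add]
    congr 2
    revert h; cases ω.2.1.1 <;> cases j <;> simp

lemma Pz_nonneg {W : X → Y → ℝ} (hW : ∀ x y, 0 ≤ W x y) (n : ℕ) (z : Bool) (ω : π.Omega n) :
    0 ≤ π.Pz W n z ω := π.P0_nonneg hW π.pA0_nonneg (π.pBz_nonneg z) n ω

lemma law_nonneg {W : X → Y → ℝ} (hW : ∀ x y, 0 ≤ W x y) (n : ℕ) (ω : π.Omega n) :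
    0 ≤ π.law W n ω := by
  rw [law_eq]; exact mul_nonneg (by norm_num) (π.Pz_nonneg hW n _ _)

variable [Fintype Y]

lemma Pz_sum {W : X → Y → ℝ} (hW : ∀ x, ∑ y, W x y = 1) (n : ℕ) (z : Bool) :
    ∑ ω, π.Pz W n z ω = 1 := π.P0_sum hW π.pA0_sum (π.pBz_sum z) n

lemma law_sum {W : X → Y → ℝ} (hW : ∀ x, ∑ y, W x y = 1) (n : ℕ) :
    ∑ ω, π.law W n ω = 1 := by
  simp only [π.law_eq' W n _ true, ← Finset.mul_sum, Finset.sum_add_distrib, π.Pz_sum hW]
  norm_num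

lemma condOn_eq {W : X → Y → ℝ} (hW : ∀ x, ∑ y, W x y = 1) (n : ℕ) (z : Bool) :
    condOn (π.law W n) (fun ω => ω.2.1.1) z = π.Pz W n z := by
  have h : ∀ ω : π.Omega n, (if ω.2.1.1 = z then π.law W n ω else 0) = 1 / 2 * π.Pz W n z ω := by
    intro ω
    split_ifs with h
    · rw [law_eq, h]
    · rw [π.Pz_eq_zero W n h, mul_zero]
  have hm : mass (π.law W n) (fun ω => ω.2.1.1) z = 1 / 2 := by
    rw [mass_eq]
    simp only [h, ← Finset.mul_sum, π.Pz_sum hW, mul_one]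
  funext ω
  unfold condOn
  rw [hm]
  have := h ω
  split_ifs at this ⊢ with h1
  · rw [this]; ring
  · linarith

/-- The string K_j. -/
def key (j : Bool) (a : Key k × Key k × π.M) : Key k := if j then a.2.1 else a.1

lemma mass_key {W : X → Y → ℝ} (hW : ∀ x, ∑ y, W x y = 1) (n : ℕ) (z j : Bool) (u : Key k) :
    mass (π.Pz W n z) (fun ω => π.key j ω.1) u = 1 / 2 ^ k := by
  rw [mass_eq, Fintype.sum_prod_type]
  have : ∀ a : Key k × Key k × π.M, (∑ d : (Bool × π.N) × (Fin n → Y),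
      if π.key j a = u then π.Pz W n z (a, d) else 0) = if π.key j a = u then π.pA0 a else 0 := by
    intro a
    split_ifs
    · simp only [Pz, P0, Fintype.sum_prod_type (α₁ := Bool × π.N), ← Finset.mul_sum,
        π.chanWt_sum hW, mul_one, π.pBz_sum]
    · simp
  simp only [this]
  cases j
  · simp [key, pA0, Fintype.sum_prod_type, ← Finset.mul_sum, pM_sum', Finset.sum_ite_irrel]
  · simp [key, pA0, Fintype.sum_prod_type, ← Finset.mul_sum, pM_sum', Finset.sum_ite_irrel]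

/-- The error probability given the choice bit. -/
noncomputable def errz (W : X → Y → ℝ) (n : ℕ) (z : Bool) : ℝ :=
  ∑ ω : π.Omega n, if π.out ω.2.1 (List.ofFn ω.2.2) (π.comm n ω) ≠ π.key z ω.1 then
    π.Pz W n z ω else 0

lemma errz_add (W : X → Y → ℝ) (n : ℕ) :
    π.errz W n false + π.errz W n true = 2 * π.errProb W n := by
  unfold errz errProb
  rw [← Finset.sum_add_distrib, Finset.mul_sum]
  refine Finset.sum_congr rfl fun ω _ => ?_
  rw [law_eq]
  have h0 := π.Pz_eq_zero W n (z := false) (ω := ω)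
  have h1 := π.Pz_eq_zero W n (z := true) (ω := ω)
  rcases hz : ω.2.1.1 with _ | _
  · rw [h1 (by simp [hz])]
    simp only [key, ite_self, add_zero, Bool.false_eq_true, if_false]
    split_ifs <;> ring
  · rw [h0 (by simp [hz])]
    simp only [key, ite_self, zero_add, if_true]
    split_ifs <;> ring

end Protocol

end Pool.Agent.Lib.MP_426fec_lc
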