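import Pool.Agent.Lib.MP_426fec_lc.Converse

set_option autoImplicit false

namespace Pool.Agent.Lib.MP_426fec_lc

open Finset Filter Topology

namespace Protocol

variable {X Y Q : Type} {k : ℕ} (π : Protocol X Y k) [Fintype Y] [Fintype Q]

/-- The extended law given the choice bit. -/
noncomputable def Pe (W : X → Y → ℝ) (κ : X → Q → ℝ) (n : ℕ) (z : Bool)
    (x : π.Omega n × (Fin n → Q)) : ℝ := π.Pz W n z x.1 * π.kq κ n x.1 x.2

/-- The conditional entropy of K_j given the auxiliary sequence and the communication. -/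
noncomputable def Hc (W : X → Y → ℝ) (κ : X → Q → ℝ) (n : ℕ) (z j : Bool) : ℝ :=
  H (π.Pe W κ n z) (fun x => (π.key j x.1.1, x.2, π.comm n x.1)) -
    H (π.Pe W κ n z) (fun x => (x.2, π.comm n x.1))

variable {W : X → Y → ℝ} (hW0 : ∀ x y, 0 ≤ W x y)
    (hW1 : ∀ x, ∑ y, W x y = 1) {κ : X → Q → ℝ} (hκ0 : ∀ x q, 0 ≤ κ x q)
    (hκ1 : ∀ x, ∑ q, κ x q = 1) (n : ℕ)

omit [Fintype Y] [Fintype Q] in
include hW0 hκ0 in
lemma Pe_nonneg (z : Bool) (x : π.Omega n × (Fin n → Q)) : 0 ≤ π.Pe W κ n z x :=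
  mul_nonneg (π.Pz_nonneg hW0 n z _) (π.kq_nonneg hκ0 _ _ _)

include hW1 hκ1 in
lemma Pe_sum (z : Bool) : ∑ x, π.Pe W κ n z x = 1 := by
  unfold Pe
  rw [Fintype.sum_prod_type]
  simp only [← Finset.mul_sum, π.kq_sum hκ1, mul_one]
  exact π.Pz_sum hW1 n z

include hW0 hW1 hκ0 hκ1 in
lemma secret_side (j : Bool) :
    k * Real.log 2 - π.leakB W n (!j) * Real.log 2 ≤
      (H (π.Pe W κ n (!j)) (fun x => (x.2, x.1.2, π.comm n x.1))
        - H (π.Pe W κ n (!j)) (fun x => (x.1.2, π.comm n x.1))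
        - H (π.Pe W κ n (!j)) id + H (π.Pe W κ n (!j)) (fun x => x.1)) + π.Hc W κ n (!j) j := by
  have hP0 := π.Pe_nonneg hW0 hκ0 n (!j)
  have hP1 := π.Pe_sum hW1 hκ1 n (!j)
  have hz0 := π.Pz_nonneg hW0 n (!j)
  have hz1 := π.Pz_sum hW1 n (!j)
  have hZ : ∀ ω, π.Pz W n (!j) ω ≠ 0 → ω.2.1.1 = !j := fun ω h => by
    by_contra h'; exact h (π.Pz_eq_zero W n h')
  have e0 : π.leakB W n (!j) = mi (π.Pz W n (!j)) (fun ω => (ω.2.1.2, ω.2.2, π.comm n ω))
      (fun ω => π.key j ω.1) := by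
    unfold leakB
    rw [π.condOn_eq hW1]
    cases j <;> rfl
  have e1 : k * Real.log 2 ≤ H (π.Pz W n (!j)) (fun ω => π.key j ω.1) := by
    refine le_trans (le_of_eq ?_) (le_H hz0 _ (fun _ => 1 / 2 ^ k)
      (fun ω _ => (π.mass_key hW1 n _ j _).le))
    rw [← Finset.sum_mul, hz1]
    simp
  have e2 : H (π.Pz W n (!j)) (fun ω => (ω.2, π.comm n ω)) ≤
      H (π.Pz W n (!j)) (fun ω => (ω.2.1.2, ω.2.2, π.comm n ω)) := by
    refine H_le_of_det hz0 _ _ fun ω ω' a b c => ?_
    have h1 := hZ ω a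
    have h2 := hZ ω' b
    simp only [Prod.mk.injEq] at c ⊢
    exact ⟨Prod.ext (Prod.ext (h1.trans h2.symm) c.1) c.2.1, c.2.2⟩
  have e3 : H (π.Pz W n (!j)) (fun ω => ((ω.2.1.2, ω.2.2, π.comm n ω), π.key j ω.1)) ≤
      H (π.Pz W n (!j)) (fun ω => (π.key j ω.1, ω.2, π.comm n ω)) := by
    refine H_le_of_det hz0 _ _ fun ω ω' _ _ c => ?_
    simp only [Prod.mk.injEq] at c ⊢
    rw [c.2.1]
    exact ⟨⟨rfl, rfl, c.2.2⟩, c.1⟩
  have x1 := H_ext (π.Pz W n (!j)) (π.kq κ n) (π.kq_sum hκ1 n) (fun ω => (ω.2, π.comm n ω))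
  have x2 := H_ext (π.Pz W n (!j)) (π.kq κ n) (π.kq_sum hκ1 n)
    (fun ω => (π.key j ω.1, ω.2, π.comm n ω))
  have s1 := submod hP0 hP1 (fun x => x.1) (fun x => (π.key j x.1.1, x.2, x.1.2, π.comm n x.1))
    (fun x => (π.key j x.1.1, x.1.2, π.comm n x.1)) id (fun _ _ h => by rw [h])
    (fun _ _ h => by simp only [Prod.mk.injEq] at h ⊢; exact ⟨h.1, h.2.2⟩)
    (fun _ _ h h' => by simp only [Prod.mk.injEq] at h'; exact Prod.ext h h'.2.1)
  have s2 := submod hP0 hP1 (fun x => (π.key j x.1.1, x.2, π.comm n x.1))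
    (fun x => (x.2, x.1.2, π.comm n x.1)) (fun x => (x.2, π.comm n x.1))
    (fun x => (π.key j x.1.1, x.2, x.1.2, π.comm n x.1))
    (fun _ _ h => congrArg Prod.snd h)
    (fun _ _ h => by simp only [Prod.mk.injEq] at h ⊢; exact ⟨h.1, h.2.2⟩)
    (fun _ _ h h' => by simp only [Prod.mk.injEq] at h h' ⊢; exact ⟨h.1, h'⟩)
  have m := mi_eq (π.Pz W n (!j)) (fun ω => (ω.2.1.2, ω.2.2, π.comm n ω)) (fun ω => π.key j ω.1)
  rw [e0, m]
  unfold Hc
  change H (π.Pe W κ n (!j)) _ = _ at x1 x2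
  linarith

include hW0 hW1 hκ0 hκ1 in
lemma decode_side (j : Bool) :
    π.Hc W κ n j j ≤ (H (π.Pe W κ n j) (fun x => (x.1.1, x.2, π.comm n x.1))
      + H (π.Pe W κ n j) (fun x => (x.2, x.1.2, π.comm n x.1))
      - H (π.Pe W κ n j) (fun x => (x.2, π.comm n x.1)) - H (π.Pe W κ n j) id) +
      (Real.log 2 + π.errz W n j * (k * Real.log 2)) := by
  classical
  have hP0 := π.Pe_nonneg hW0 hκ0 n j
  have hP1 := π.Pe_sum hW1 hκ1 n j
  have s1 := submod hP0 hP1 (fun x => (x.1.1, x.2, π.comm n x.1))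
    (fun x => (π.key j x.1.1, x.2, x.1.2, π.comm n x.1))
    (fun x => (π.key j x.1.1, x.2, π.comm n x.1)) id
    (fun _ _ h => by simp only [Prod.mk.injEq] at h ⊢; exact ⟨by rw [h.1], h.2⟩)
    (fun _ _ h => by simp only [Prod.mk.injEq] at h ⊢; exact ⟨h.1, h.2.1, h.2.2.2⟩)
    (fun _ _ h h' => by
      simp only [Prod.mk.injEq] at h h'; exact Prod.ext (Prod.ext h.1 h'.2.2.1) h.2.1)
  have g := cond_gibbs hP0 hP1 (fun x => π.key j x.1.1) (fun x => (x.2, x.1.2, π.comm n x.1))
    (fun x => (π.key j x.1.1, x.2, x.1.2, π.comm n x.1)) (fun _ _ _ _ a b => by rw [a, b])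
    (fun u d => (if π.out d.2.1.1 (List.ofFn d.2.1.2) d.2.2 = u then 1 / 2 else 0) +
      1 / 2 * (1 / 2 ^ k)) (fun _ _ => by positivity)
    (fun d => by
      rw [Finset.sum_add_distrib, Finset.sum_ite_eq, Finset.sum_const, Finset.card_univ, card_key]
      simp only [Finset.mem_univ, if_true, nsmul_eq_mul]
      push_cast
      field_simp
      norm_num)
    (fun _ _ => by positivity)
  have g2 : ∑ x, π.Pe W κ n j x * -Real.log ((if π.out x.1.2.1 (List.ofFn x.1.2.2) (π.comm n x.1)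
      = π.key j x.1.1 then 1 / 2 else 0) + 1 / 2 * (1 / 2 ^ k)) ≤
      Real.log 2 + π.errz W n j * (k * Real.log 2) := by
    calc _ ≤ ∑ x, π.Pe W κ n j x * (Real.log 2 +
          (if π.out x.1.2.1 (List.ofFn x.1.2.2) (π.comm n x.1) ≠ π.key j x.1.1 then 1 else 0) *
            (k * Real.log 2)) := by
          refine Finset.sum_le_sum fun x _ => mul_le_mul_of_nonneg_left ?_ (hP0 x)
          by_cases h : π.out x.1.2.1 (List.ofFn x.1.2.2) (π.comm n x.1) = π.key j x.1.1
          · simp only [h, if_true, ne_eq, not_true_eq_false, if_false, zero_mul, add_zero]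
            rw [neg_le, ← Real.log_inv]
            refine Real.log_le_log (by norm_num) ?_
            have : (0 : ℝ) ≤ 1 / 2 * (1 / 2 ^ k) := by positivity
            linarith
          · simp only [h, if_false, ne_eq, not_false_eq_true, if_true, zero_add, one_mul]
            rw [Real.log_mul (by norm_num) (by positivity)]
            simp [add_comm]
      _ = _ := by
          simp only [mul_add, Finset.sum_add_distrib, ← Finset.sum_mul, hP1, one_mul, ← mul_assoc]
          congr 3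
          unfold errz Pe
          rw [Fintype.sum_prod_type]
          refine Finset.sum_congr rfl fun ω _ => ?_
          by_cases h : π.out ω.2.1 (List.ofFn ω.2.2) (π.comm n ω) = π.key j ω.1
          · simp [h]
          · simp [h, ← Finset.mul_sum, π.kq_sum hκ1]
  unfold Hc
  simp only at g
  linarith

include hW0 hW1 hκ0 hκ1 in
lemma continuity (j : Bool) {l : ℝ} (hl : 0 < l) (hl2 : l ≤ 1 / 2) :
    π.Hc W κ n (!j) j ≤ π.Hc W κ n j j + Real.log 2 +
      (k + 1) * Real.log 2 * (2 * (π.leakA W n * Real.log 2 / l + 2 * l)) := by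
  classical
  have hP0 := π.Pe_nonneg hW0 hκ0 n
  have hP1 := π.Pe_sum hW1 hκ1 n
  have hl2' := Real.log_pos one_lt_two
  set C : π.Omega n × (Fin n → Q) → (Fin n → Q) × List π.Msg := fun x => (x.2, π.comm n x.1)
    with hC
  set U : π.Omega n × (Fin n → Q) → Key k := fun x => π.key j x.1.1 with hU
  set t : Key k → (Fin n → Q) × List π.Msg → ℝ := fun u c =>
    1 / 2 * (mass (π.Pe W κ n j) (fun x => (U x, C x)) (u, c) / mass (π.Pe W κ n j) C c) +
      1 / 2 * (1 / 2 ^ k) with ht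
  have hq0 : ∀ u c, 0 ≤ mass (π.Pe W κ n j) (fun x => (U x, C x)) (u, c) /
      mass (π.Pe W κ n j) C c := fun u c =>
    div_nonneg (mass_nonneg (hP0 j) _ _) (mass_nonneg (hP0 j) _ _)
  have hq1 : ∀ c, ∑ u, mass (π.Pe W κ n j) (fun x => (U x, C x)) (u, c) /
      mass (π.Pe W κ n j) C c ≤ 1 := fun c => by
    rw [← Finset.sum_div, sum_mass_pair]; exact div_self_le_one _
  have htlow : ∀ u c, 1 / 2 * (1 / 2 ^ k) ≤ t u c := fun u c => by
    have := hq0 u c
    simp only [ht]; linarith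
  have htpos : ∀ u c, 0 < t u c := fun u c => lt_of_lt_of_le (by positivity) (htlow u c)
  have ht1 : ∀ c, ∑ u, t u c ≤ 1 := fun c => by
    simp only [ht]
    rw [Finset.sum_add_distrib, Finset.sum_const, Finset.card_univ, card_key, ← Finset.mul_sum]
    have := hq1 c
    have e : (2 ^ k : ℕ) • ((1 : ℝ) / 2 * (1 / 2 ^ k)) = 1 / 2 := by
      simp only [nsmul_eq_mul]; push_cast; field_simp
    rw [e]; linarith
  have hL0 : ∀ u c, 0 ≤ -Real.log (t u c) := fun u c => by
    rw [neg_nonneg]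
    refine Real.log_nonpos (htpos u c).le (le_trans ?_ (ht1 c))
    exact Finset.single_le_sum (f := fun u => t u c) (fun u _ => (htpos u c).le) (Finset.mem_univ u)
  have hL1 : ∀ u c, -Real.log (t u c) ≤ (k + 1) * Real.log 2 := fun u c => by
    have := Real.log_le_log (by positivity) (htlow u c)
    rw [Real.log_mul (by norm_num) (by positivity)] at this
    simp only [one_div, Real.log_inv, Real.log_pow] at this
    linarith
  have g1 := cond_gibbs (hP0 (!j)) (hP1 (!j)) U C (fun x => (U x, C x))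
    (fun _ _ _ _ a b => by rw [a, b]) t (fun u c => (htpos u c).le) ht1 (fun _ _ => htpos _ _)
  have g2 : ∑ x, π.Pe W κ n j x * -Real.log (t (U x) (C x)) ≤ π.Hc W κ n j j + Real.log 2 := by
    have : π.Hc W κ n j j + Real.log 2 = ∑ x, π.Pe W κ n j x *
        (-Real.log (mass (π.Pe W κ n j) (fun x => (U x, C x)) (U x, C x)) -
          -Real.log (mass (π.Pe W κ n j) C (C x)) + Real.log 2) := by
      simp only [mul_add, mul_sub, Finset.sum_add_distrib, Finset.sum_sub_distrib,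
        ← Finset.sum_mul, hP1, one_mul]
      rfl
    rw [this]
    refine Finset.sum_le_sum fun x _ => ?_
    by_cases h : π.Pe W κ n j x = 0
    · simp [h]
    refine mul_le_mul_of_nonneg_left ?_ (hP0 j x)
    have m1 := mass_pos (hP0 j) (fun x => (U x, C x)) h
    have m2 := mass_pos (hP0 j) C h
    have : 1 / 2 * (mass (π.Pe W κ n j) (fun x => (U x, C x)) (U x, C x) /
        mass (π.Pe W κ n j) C (C x)) ≤ t (U x) (C x) := by
      have : (0 : ℝ) ≤ 1 / 2 * (1 / 2 ^ k) := by positivity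
      simp only [ht]; linarith
    have := Real.log_le_log (by positivity) this
    rw [Real.log_mul (by norm_num) (div_pos m1 m2).ne', Real.log_div m1.ne' m2.ne'] at this
    simp only [one_div, Real.log_inv] at this
    linarith
  have hLpos : 0 < ((k : ℝ) + 1) * Real.log 2 := by positivity
  set γ : (Key k × Key k × π.M) × List X × List π.Msg → ℝ := fun v =>
    if v.2.1.length = n then (∑ q : Fin n → Q, zw κ v.2.1 (List.ofFn q) *
      -Real.log (t (π.key j v.1) (q, v.2.2))) / ((k + 1) * Real.log 2) else 0 with hγ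
  have hγ1 : ∀ v, |γ v| ≤ 1 := by
    intro v
    simp only [hγ]
    split_ifs with h
    · rw [abs_of_nonneg (div_nonneg (Finset.sum_nonneg fun q _ =>
        mul_nonneg (zw_nonneg hκ0 _ _) (hL0 _ _)) hLpos.le), div_le_one hLpos]
      calc _ ≤ ∑ q : Fin n → Q, zw κ v.2.1 (List.ofFn q) * ((k + 1) * Real.log 2) :=
            Finset.sum_le_sum fun q _ => mul_le_mul_of_nonneg_left (hL1 _ _) (zw_nonneg hκ0 _ _)
        _ = _ := by rw [← Finset.sum_mul, zw_sum hκ1 n _ h, one_mul]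
    · simp
  set σ : Bool → ℝ := fun b => if b = j then -1 else 1 with hσ
  have hσs : ∀ (ω : π.Omega n) (c : ℝ), π.law W n ω * (σ ω.2.1.1 * c) =
      1 / 2 * (π.Pz W n (!j) ω * c) - 1 / 2 * (π.Pz W n j ω * c) := by
    intro ω c
    rw [π.law_eq' W n ω j]
    by_cases h : ω.2.1.1 = j
    · rw [π.Pz_eq_zero W n (z := !j) (by simp [h])]
      simp only [hσ, h, if_true]; ring
    · rw [π.Pz_eq_zero W n h]
      simp only [hσ, h, if_false]; ring
  have d := dv_bool (π.law_nonneg hW0 n) (π.law_sum hW1 n)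
    (fun ω => (ω.1, π.inputs ω.1 ω.2.1 (List.ofFn ω.2.2), π.comm n ω)) (fun ω => ω.2.1.1) σ
    (fun b => by simp only [hσ]; split_ifs <;> simp)
    (by
      have := fun ω => hσs ω 1
      simp only [mul_one] at this
      simp only [this, Finset.sum_sub_distrib, ← Finset.mul_sum, π.Pz_sum hW1, sub_self])
    γ hγ1 hl hl2
  have hE : ∀ z, ∑ ω, π.Pz W n z ω * γ (ω.1, π.inputs ω.1 ω.2.1 (List.ofFn ω.2.2), π.comm n ω) =
      (∑ x, π.Pe W κ n z x * -Real.log (t (U x) (C x))) / ((k + 1) * Real.log 2) := by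
    intro z
    rw [Fintype.sum_prod_type (α₁ := π.Omega n), Finset.sum_div]
    refine Finset.sum_congr rfl fun ω _ => ?_
    simp only [hγ, π.length_inputs, List.length_ofFn, if_true]
    rw [← mul_div_assoc, Finset.mul_sum]
    simp only [Pe, kq, mul_assoc]
    rfl
  simp only [hσs, Finset.sum_sub_distrib, ← Finset.mul_sum, hE] at d
  change _ ≤ π.leakA W n * Real.log 2 / l + 2 * l at d
  have d2 := mul_le_mul_of_nonneg_left d hLpos.le
  rw [mul_sub, mul_left_comm, mul_div_cancel₀ _ hLpos.ne', mul_left_comm,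
    mul_div_cancel₀ _ hLpos.ne'] at d2
  have : π.Hc W κ n (!j) j = H (π.Pe W κ n (!j)) (fun x => (U x, C x)) - H (π.Pe W κ n (!j)) C :=
    rfl
  linarith

end Protocol

theorem converse {X Y Q : Type} [Fintype Y] [Fintype Q] {W : X → Y → ℝ} (hW0 : ∀ x y, 0 ≤ W x y)
    (hW1 : ∀ x, ∑ y, W x y = 1) {κ : X → Q → ℝ} (hκ0 : ∀ x q, 0 ≤ κ x q)
    (hκ1 : ∀ x, ∑ q, κ x q = 1) {r s : Y → Q → ℝ} (hr0 : ∀ y q, 0 ≤ r y q)
    (hr1 : ∀ y, ∑ q, r y q = 1) (hs0 : ∀ y q, 0 ≤ s y q) (hs1 : ∀ q, ∑ y, s y q = 1)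
    (hrs : ∀ x y q, 0 < W x y * κ x q → 0 < r y q ∧ 0 < s y q) {B : ℝ}
    (hB : ∀ x, ∑ y, ∑ q, W x y * κ x q * Real.log (W x y * κ x q / (r y q * s y q)) ≤ B)
    {R : ℝ} (hR : Achievable W R) : R * Real.log 2 ≤ B := by
  obtain ⟨k, π, hk, he, hA, hB0, hB1⟩ := hR
  have hl2' := Real.log_pos one_lt_two
  have hR0 : 0 ≤ R := ge_of_tendsto' hk fun n => by positivity
  have key : ∀ l : ℝ, 0 < l → l ≤ 1 / 2 → R * Real.log 2 ≤ B + R * Real.log 2 * (4 * l) := by
    intro l hl hl2
    have one : ∀ n : ℕ, 2 * (k n * Real.log 2) ≤ 2 * (n * B) +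
        ((π n).leakB W n false + (π n).leakB W n true) * Real.log 2 + 4 * Real.log 2 +
        2 * (π n).errProb W n * (k n * Real.log 2) +
        2 * ((k n + 1) * Real.log 2 * (2 * ((π n).leakA W n * Real.log 2 / l + 2 * l))) := by
      intro n
      have t := fun z => (π n).tension hW0 hW1 hκ0 hκ1 hr0 hr1 hs0 hs1 hrs hB (π n).pA0_nonneg
        ((π n).pBz_nonneg z) (π n).pA0_sum ((π n).pBz_sum z) n ((π n).Pe W κ n z) rfl
      have t0 := t false
      have t1 := t true
      have a0 := (π n).secret_side hW0 hW1 hκ0 hκ1 n false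
      have a1 := (π n).secret_side hW0 hW1 hκ0 hκ1 n true
      have b0 := (π n).decode_side hW0 hW1 hκ0 hκ1 n false
      have b1 := (π n).decode_side hW0 hW1 hκ0 hκ1 n true
      have c0 := (π n).continuity hW0 hW1 hκ0 hκ1 n false hl hl2
      have c1 := (π n).continuity hW0 hW1 hκ0 hκ1 n true hl hl2
      have e := (π n).errz_add W n
      simp only [Bool.not_false, Bool.not_true] at a0 a1 c0 c1
      rw [← e]
      linarith
    have hn : Tendsto (fun n : ℕ => (1 : ℝ) / n) atTop (𝓝 0) := tendsto_one_div_atTop_nhds_zero_nat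
    have lim1 : Tendsto (fun n : ℕ => 2 * ((k n : ℝ) / n * Real.log 2)) atTop
        (𝓝 (2 * (R * Real.log 2))) := (hk.mul_const _).const_mul _
    have lim2 : Tendsto (fun n : ℕ => 2 * B +
        ((π n).leakB W n false + (π n).leakB W n true) * Real.log 2 * (1 / n) +
        4 * Real.log 2 * (1 / n) + 2 * (π n).errProb W n * ((k n : ℝ) / n * Real.log 2) +
        2 * (((k n : ℝ) / n + 1 / n) * Real.log 2 *
          (2 * ((π n).leakA W n * Real.log 2 / l + 2 * l)))) atTop
        (𝓝 (2 * B + (0 + 0) * Real.log 2 * 0 + 4 * Real.log 2 * 0 + 2 * 0 * (R * Real.log 2) +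
          2 * ((R + 0) * Real.log 2 * (2 * (0 * Real.log 2 / l + 2 * l))))) := by
      refine ((((tendsto_const_nhds.add (((hB0.add hB1).mul_const _).mul hn)).add
        (hn.const_mul _)).add ((he.const_mul _).mul (hk.mul_const _))).add
        ((((hk.add hn).mul_const _).mul
          ((((hA.mul_const _).div_const _).add_const _).const_mul _)).const_mul _))
    have := le_of_tendsto_of_tendsto lim1 lim2 (by
      filter_upwards [eventually_gt_atTop 0] with n hn0
      have hn' : (0 : ℝ) < n := by exact_mod_cast hn0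
      have := div_le_div_of_nonneg_right (one n) hn'.le
      refine le_trans (le_of_eq ?_) (this.trans (le_of_eq ?_))
      · ring
      · field_simp)
    simp only [zero_mul, mul_zero, add_zero, zero_div, zero_add] at this
    linarith
  refine le_of_forall_pos_le_add fun ε hε => ?_
  have hc : 0 < R * Real.log 2 * 4 + 1 := by positivity
  have h := key (min (1 / 2) (ε / (R * Real.log 2 * 4 + 1))) (by positivity) (min_le_left _ _)
  have h2 : min (1 / 2) (ε / (R * Real.log 2 * 4 + 1)) * (R * Real.log 2 * 4 + 1) ≤ ε := by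
    rw [← le_div_iff₀ hc]; exact min_le_right _ _
  have h3 : 0 < min (1 / 2) (ε / (R * Real.log 2 * 4 + 1)) := by positivity
  nlinarith

end Pool.Agent.Lib.MP_426fec_lc
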