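import Mathlib

set_option autoImplicit false

namespace Pool.Agent.Lib.MP_426fec_lc

open Filter Topology

open Classical in
/-- The probability, under the weights P, that the random variable f takes the value a. -/
noncomputable def mass {Ω α : Type} [Fintype Ω] (P : Ω → ℝ) (f : Ω → α) (a : α) : ℝ :=
  ∑ ω, if f ω = a then P ω else 0

/-- Shannon entropy in bits of the random variable f. -/
noncomputable def ent {Ω α : Type} [Fintype Ω] (P : Ω → ℝ) (f : Ω → α) : ℝ :=
  ∑ ω, P ω * -Real.logb 2 (mass P f (f ω))

/-- Mutual information in bits. -/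
noncomputable def mi {Ω α β : Type} [Fintype Ω] (P : Ω → ℝ) (f : Ω → α) (g : Ω → β) : ℝ :=
  ent P f + ent P g - ent P (fun ω => (f ω, g ω))

open Classical in
/-- The weights P conditioned on the event f = a. -/
noncomputable def condOn {Ω α : Type} [Fintype Ω] (P : Ω → ℝ) (f : Ω → α) (a : α) : Ω → ℝ :=
  fun ω => if f ω = a then P ω / mass P f a else 0

/-- Binary strings of length k. -/
abbrev Key (k : ℕ) : Type := Fin k → ZMod 2

/-- An interactive protocol for oblivious transfer of strings of length k. Lists of public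
messages and of channel outputs are written with the most recent entry first. -/
structure Protocol (X Y : Type) (k : ℕ) where
  M : Type
  N : Type
  Msg : Type
  finM : Fintype M
  finN : Fintype N
  pM : M → ℝ
  pN : N → ℝ
  pM_nonneg : ∀ m, 0 ≤ pM m
  pN_nonneg : ∀ m, 0 ≤ pN m
  pM_sum : ∑ m ∈ finM.elems, pM m = 1
  pN_sum : ∑ m ∈ finN.elems, pN m = 1
  r : ℕ
  aMsg : Key k × Key k × M → List Msg → Msg
  bMsg : Bool × N → List Y → List Msg → Msg
  inp : Key k × Key k × M → ℕ → List Msg → X
  out : Bool × N → List Y → List Msg → Key k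

namespace Protocol

variable {X Y : Type} {k : ℕ} (π : Protocol X Y k)

instance : Fintype π.M := π.finM
instance : Fintype π.N := π.finN

/-- r rounds of public discussion (Alice speaks, then Bob), Bob having seen the outputs ys. -/
def gap (a : Key k × Key k × π.M) (b : Bool × π.N) (ys : List Y) (f : List π.Msg) :
    List π.Msg :=
  (fun g => π.bMsg b ys (π.aMsg a g :: g) :: π.aMsg a g :: g)^[π.r] f

/-- The whole public communication up to the end of the discussion that follows the outputs ys. -/
def trans (a : Key k × Key k × π.M) (b : Bool × π.N) : List Y → List π.Msg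
  | [] => π.gap a b [] []
  | y :: ys => π.gap a b (y :: ys) (trans a b ys)

/-- The channel input of the session that follows the outputs ys. -/
def nextIn (a : Key k × Key k × π.M) (b : Bool × π.N) (ys : List Y) : X :=
  π.inp a ys.length (π.trans a b ys)

/-- The list of channel inputs. -/
def inputs (a : Key k × Key k × π.M) (b : Bool × π.N) : List Y → List X
  | [] => []
  | _ :: ys => π.nextIn a b ys :: inputs a b ys

/-- The probability that the memoryless channel W produces the outputs ys. -/
def chanWt (W : X → Y → ℝ) (a : Key k × Key k × π.M) (b : Bool × π.N) : List Y → ℝ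
  | [] => 1
  | y :: ys => W (π.nextIn a b ys) y * chanWt W a b ys

/-- The sample space of a run with n sessions: (K0, K1, M), (Z, N) and the outputs. -/
abbrev Omega (n : ℕ) : Type := (Key k × Key k × π.M) × (Bool × π.N) × (Fin n → Y)

/-- The joint law of a run with n sessions. -/
noncomputable def law (W : X → Y → ℝ) (n : ℕ) (ω : π.Omega n) : ℝ :=
  (1 / 2 ^ k * (1 / 2 ^ k) * π.pM ω.1.2.2) * (1 / 2 * π.pN ω.2.1.2) *
    π.chanWt W ω.1 ω.2.1 (List.ofFn ω.2.2)

/-- The whole public communication F of a run. -/
def comm (n : ℕ) (ω : π.Omega n) : List π.Msg := π.trans ω.1 ω.2.1 (List.ofFn ω.2.2)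

variable [Fintype Y]

/-- The probability that the output of Bob differs from K_Z. -/
noncomputable def errProb (W : X → Y → ℝ) (n : ℕ) : ℝ :=
  ∑ ω : π.Omega n, if π.out ω.2.1 (List.ofFn ω.2.2) (π.comm n ω) ≠
    (if ω.2.1.1 then ω.1.2.1 else ω.1.1) then π.law W n ω else 0

/-- I(K0 K1 M X^n F ; Z). -/
noncomputable def leakA (W : X → Y → ℝ) (n : ℕ) : ℝ :=
  mi (π.law W n) (fun ω => (ω.1, π.inputs ω.1 ω.2.1 (List.ofFn ω.2.2), π.comm n ω))
    (fun ω => ω.2.1.1)

/-- I(N Y^n F ; K_(1-z) | Z = z), where false stands for 0 and true for 1. -/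
noncomputable def leakB (W : X → Y → ℝ) (n : ℕ) (z : Bool) : ℝ :=
  mi (condOn (π.law W n) (fun ω => ω.2.1.1) z) (fun ω => (ω.2.1.2, ω.2.2, π.comm n ω))
    (fun ω => if z then ω.1.1 else ω.1.2.1)

end Protocol

/-- R is an achievable rate of oblivious transfer over the channel W (W x y = W(y|x)). -/
def Achievable {X Y : Type} [Fintype Y] (W : X → Y → ℝ) (R : ℝ) : Prop :=
  ∃ (k : ℕ → ℕ) (π : ∀ n, Protocol X Y (k n)),
    Tendsto (fun n => (k n : ℝ) / n) atTop (𝓝 R) ∧
    Tendsto (fun n => (π n).errProb W n) atTop (𝓝 0) ∧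
    Tendsto (fun n => (π n).leakA W n) atTop (𝓝 0) ∧
    Tendsto (fun n => (π n).leakB W n false) atTop (𝓝 0) ∧
    Tendsto (fun n => (π n).leakB W n true) atTop (𝓝 0)

/-- The oblivious transfer capacity: the supremum of the achievable rates. -/
noncomputable def otCapacity {X Y : Type} [Fintype Y] (W : X → Y → ℝ) : ℝ :=
  sSup {R | Achievable W R}

end Pool.Agent.Lib.MP_426fec_lc
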