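import Pool.Agent.Lib.MP_426fec_lc.Defs

set_option autoImplicit false

namespace Pool.Agent.Lib.MP_426fec_lc

open Finset

variable {Ω : Type} [Fintype Ω] {α β γ δ : Type}

/-- Entropy in nats. -/
noncomputable def H (P : Ω → ℝ) (f : Ω → α) : ℝ := ∑ ω, P ω * -Real.log (mass P f (f ω))

lemma ent_eq (P : Ω → ℝ) (f : Ω → α) : ent P f = H P f / Real.log 2 := by
  unfold ent H
  rw [Finset.sum_div]
  refine Finset.sum_congr rfl fun ω _ => ?_
  rw [Real.logb]; ring

lemma mi_eq (P : Ω → ℝ) (f : Ω → α) (g : Ω → β) :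
    mi P f g * Real.log 2 = H P f + H P g - H P (fun ω => (f ω, g ω)) := by
  have h : Real.log 2 ≠ 0 := (Real.log_pos one_lt_two).ne'
  unfold mi
  simp only [ent_eq]
  field_simp

lemma mass_nonneg {P : Ω → ℝ} (hP : ∀ ω, 0 ≤ P ω) (f : Ω → α) (a : α) : 0 ≤ mass P f a := by
  unfold mass
  refine Finset.sum_nonneg fun ω _ => ?_
  split_ifs
  · exact hP ω
  · exact le_rfl

lemma le_mass {P : Ω → ℝ} (hP : ∀ ω, 0 ≤ P ω) (f : Ω → α) (ω : Ω) : P ω ≤ mass P f (f ω) := by
  classical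
  unfold mass
  have := Finset.single_le_sum (f := fun ω' => if f ω' = f ω then P ω' else 0) (s := univ)
    (fun ω' _ => by split_ifs; exacts [hP ω', le_rfl]) (Finset.mem_univ ω)
  simpa using this

lemma mass_pos {P : Ω → ℝ} (hP : ∀ ω, 0 ≤ P ω) (f : Ω → α) {ω : Ω} (h : P ω ≠ 0) :
    0 < mass P f (f ω) :=
  lt_of_lt_of_le (lt_of_le_of_ne (hP ω) (Ne.symm h)) (le_mass hP f ω)

lemma mass_le_one {P : Ω → ℝ} (hP : ∀ ω, 0 ≤ P ω) (h1 : ∑ ω, P ω = 1) (f : Ω → α) (a : α) :
    mass P f a ≤ 1 := by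
  rw [← h1]
  unfold mass
  refine Finset.sum_le_sum fun ω _ => ?_
  split_ifs
  · exact le_rfl
  · exact hP ω

lemma jensen {P : Ω → ℝ} (hP : ∀ ω, 0 ≤ P ω) (h1 : ∑ ω, P ω = 1) (t : Ω → ℝ)
    (ht : ∀ ω, P ω ≠ 0 → 0 < t ω) (hs : ∑ ω, P ω * t ω ≤ 1) :
    ∑ ω, P ω * Real.log (t ω) ≤ 0 := by
  calc ∑ ω, P ω * Real.log (t ω) ≤ ∑ ω, (P ω * t ω - P ω) := by
        refine Finset.sum_le_sum fun ω _ => ?_
        by_cases h : P ω = 0
        · simp [h]
        · have := Real.log_le_sub_one_of_pos (ht ω h)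
          nlinarith [hP ω]
    _ ≤ 0 := by rw [Finset.sum_sub_distrib, h1]; linarith

lemma mass_eq (P : Ω → ℝ) (f : Ω → α) (a : α) [∀ ω, Decidable (f ω = a)] :
    mass P f a = ∑ ω, if f ω = a then P ω else 0 := by
  unfold mass
  convert rfl

lemma sum_div_mass_le_one (P : Ω → ℝ) (f : Ω → α) (a : α) [∀ ω, Decidable (f ω = a)] :
    ∑ ω, (if f ω = a then P ω / mass P f (f ω) else 0) ≤ 1 := by
  have : ∑ ω, (if f ω = a then P ω / mass P f (f ω) else 0) = mass P f a / mass P f a := by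
    conv_rhs => rw [show mass P f a / mass P f a = (∑ ω, if f ω = a then P ω else 0) / mass P f a
      by rw [← mass_eq]]
    rw [Finset.sum_div]
    refine Finset.sum_congr rfl fun ω _ => ?_
    split_ifs with h
    · rw [h]
    · simp
  rw [this]
  exact div_self_le_one _

lemma H_le_of_det {P : Ω → ℝ} (hP : ∀ ω, 0 ≤ P ω) (f : Ω → α) (g : Ω → β)
    (h : ∀ ω ω', P ω ≠ 0 → P ω' ≠ 0 → g ω = g ω' → f ω = f ω') : H P f ≤ H P g := by
  unfold H
  refine Finset.sum_le_sum fun ω _ => ?_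
  by_cases h0 : P ω = 0
  · simp [h0]
  refine mul_le_mul_of_nonneg_left (neg_le_neg (Real.log_le_log (mass_pos hP g h0) ?_)) (hP ω)
  unfold mass
  refine Finset.sum_le_sum fun ω' _ => ?_
  by_cases h0' : P ω' = 0
  · simp [h0']
  split_ifs with h1 h2 h2
  · exact le_rfl
  · exact absurd (h ω' ω h0' h0 h1) h2
  · exact hP ω'
  · exact le_rfl

lemma H_eq_of_det {P : Ω → ℝ} (hP : ∀ ω, 0 ≤ P ω) (f : Ω → α) (g : Ω → β)
    (h : ∀ ω ω', P ω ≠ 0 → P ω' ≠ 0 → (g ω = g ω' ↔ f ω = f ω')) : H P f = H P g :=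
  le_antisymm (H_le_of_det hP f g fun ω ω' a b => (h ω ω' a b).1)
    (H_le_of_det hP g f fun ω ω' a b => (h ω ω' a b).2)

/-- A lower bound on entropy from an upper bound on the masses. -/
lemma le_H {P : Ω → ℝ} (hP : ∀ ω, 0 ≤ P ω) (f : Ω → α) (t : Ω → ℝ)
    (h : ∀ ω, P ω ≠ 0 → mass P f (f ω) ≤ t ω) : ∑ ω, P ω * -Real.log (t ω) ≤ H P f := by
  unfold H
  refine Finset.sum_le_sum fun ω _ => ?_
  by_cases h0 : P ω = 0
  · simp [h0]
  exact mul_le_mul_of_nonneg_left (neg_le_neg (Real.log_le_log (mass_pos hP f h0) (h ω h0))) (hP ω)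

lemma le_H_inj {P : Ω → ℝ} (hP : ∀ ω, 0 ≤ P ω) (f : Ω → α) (hf : Function.Injective f) :
    ∑ ω, P ω * -Real.log (P ω) ≤ H P f := by
  classical
  refine le_H hP f P fun ω _ => le_of_eq ?_
  unfold mass
  simp [hf.eq_iff]

lemma H_le_id {P : Ω → ℝ} (hP : ∀ ω, 0 ≤ P ω) (f : Ω → α) :
    H P f ≤ ∑ ω, P ω * -Real.log (P ω) := by
  unfold H
  refine Finset.sum_le_sum fun ω _ => ?_
  by_cases h0 : P ω = 0
  · simp [h0]
  exact mul_le_mul_of_nonneg_left (neg_le_neg (Real.log_le_log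
    (lt_of_le_of_ne (hP ω) (Ne.symm h0)) (le_mass hP f ω))) (hP ω)

/-- Conditional Gibbs inequality. -/
lemma cond_gibbs [Fintype α] {P : Ω → ℝ} (hP : ∀ ω, 0 ≤ P ω) (h1 : ∑ ω, P ω = 1)
    (f : Ω → α) (g : Ω → β) (u : Ω → γ)
    (hu : ∀ ω ω', P ω ≠ 0 → P ω' ≠ 0 → f ω = f ω' → g ω = g ω' → u ω = u ω')
    (t : α → β → ℝ) (ht0 : ∀ a b, 0 ≤ t a b) (ht1 : ∀ b, ∑ a, t a b ≤ 1)
    (htp : ∀ ω, P ω ≠ 0 → 0 < t (f ω) (g ω)) :
    H P u ≤ H P g + ∑ ω, P ω * -Real.log (t (f ω) (g ω)) := by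
  classical
  have h0 : H P u ≤ H P (fun ω => (f ω, g ω)) :=
    H_le_of_det hP _ _ fun ω ω' a b h => hu ω ω' a b (congrArg Prod.fst h) (congrArg Prod.snd h)
  set fg : Ω → α × β := fun ω => (f ω, g ω) with hfg
  have hj := jensen hP h1 (fun ω => t (f ω) (g ω) * mass P g (g ω) / mass P fg (fg ω))
    (fun ω h => div_pos (mul_pos (htp ω h) (mass_pos hP g h)) (mass_pos hP fg h)) ?_
  · have e : ∑ ω, P ω * Real.log (t (f ω) (g ω) * mass P g (g ω) / mass P fg (fg ω)) =
        H P fg - (H P g + ∑ ω, P ω * -Real.log (t (f ω) (g ω))) := by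
      unfold H
      rw [← Finset.sum_add_distrib, ← Finset.sum_sub_distrib]
      refine Finset.sum_congr rfl fun ω _ => ?_
      by_cases h : P ω = 0
      · simp [h]
      rw [Real.log_div (mul_pos (htp ω h) (mass_pos hP g h)).ne' (mass_pos hP fg h).ne',
        Real.log_mul (htp ω h).ne' (mass_pos hP g h).ne']
      ring
    linarith
  · calc ∑ ω, P ω * (t (f ω) (g ω) * mass P g (g ω) / mass P fg (fg ω))
        = ∑ ω, ∑ ω', ∑ a, P ω' * t a (g ω') *
            (if fg ω = (a, g ω') then P ω / mass P fg (fg ω) else 0) := by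
          refine Finset.sum_congr rfl fun ω _ => ?_
          rw [show mass P g (g ω) = ∑ ω', if g ω' = g ω then P ω' else 0 from rfl,
            Finset.mul_sum, Finset.sum_div, Finset.mul_sum]
          refine Finset.sum_congr rfl fun ω' _ => ?_
          rw [Finset.sum_eq_single (f ω)]
          · by_cases h : g ω' = g ω
            · simp only [hfg, h, if_true]; ring
            · simp [hfg, h, Ne.symm h]
          · intro a _ ha
            simp [hfg, Ne.symm ha]
          · simp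
      _ = ∑ ω', ∑ a, P ω' * t a (g ω') *
            ∑ ω, (if fg ω = (a, g ω') then P ω / mass P fg (fg ω) else 0) := by
          rw [Finset.sum_comm]
          refine Finset.sum_congr rfl fun ω' _ => ?_
          rw [Finset.sum_comm]
          refine Finset.sum_congr rfl fun a _ => ?_
          rw [Finset.mul_sum]
      _ ≤ ∑ ω', ∑ a, P ω' * t a (g ω') := by
          refine Finset.sum_le_sum fun ω' _ => Finset.sum_le_sum fun a _ => ?_
          refine mul_le_of_le_one_right (mul_nonneg (hP ω') (ht0 _ _)) ?_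
          exact sum_div_mass_le_one P fg (a, g ω')
      _ ≤ ∑ ω', P ω' := by
          refine Finset.sum_le_sum fun ω' _ => ?_
          rw [← Finset.mul_sum]
          exact mul_le_of_le_one_right (hP ω') (ht1 _)
      _ = 1 := h1

lemma H_const {P : Ω → ℝ} (h1 : ∑ ω, P ω = 1) : H P (fun _ => ()) = 0 := by
  unfold H mass
  simp [h1]

/-- Gibbs inequality. -/
lemma gibbs [Fintype α] {P : Ω → ℝ} (hP : ∀ ω, 0 ≤ P ω) (h1 : ∑ ω, P ω = 1)
    (f : Ω → α) (t : α → ℝ) (ht0 : ∀ a, 0 ≤ t a) (ht1 : ∑ a, t a ≤ 1)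
    (htp : ∀ ω, P ω ≠ 0 → 0 < t (f ω)) :
    H P f ≤ ∑ ω, P ω * -Real.log (t (f ω)) := by
  have := cond_gibbs hP h1 f (fun _ => ()) f (fun _ _ _ _ h _ => h) (fun a _ => t a)
    (fun a _ => ht0 a) (fun _ => ht1) htp
  rwa [H_const h1, zero_add] at this

/-- Gibbs inequality for a variable with values in any type. -/
lemma gibbs_image {P : Ω → ℝ} (hP : ∀ ω, 0 ≤ P ω) (h1 : ∑ ω, P ω = 1)
    (f : Ω → α) (t : α → ℝ) (ht0 : ∀ a, 0 ≤ t a) (S : Finset α) (hS : ∀ ω, f ω ∈ S)
    (ht1 : ∑ a ∈ S, t a ≤ 1) (htp : ∀ ω, P ω ≠ 0 → 0 < t (f ω)) :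
    H P f ≤ ∑ ω, P ω * -Real.log (t (f ω)) := by
  have := gibbs hP h1 (fun ω => (⟨f ω, hS ω⟩ : S)) (fun a => t a.1) (fun a => ht0 _)
    (by rw [Finset.sum_coe_sort S t]; exact ht1) htp
  refine le_trans (H_le_of_det hP _ _ fun ω ω' _ _ h => ?_) this
  exact congrArg Subtype.val h

lemma H_le_log_card [Fintype α] {P : Ω → ℝ} (hP : ∀ ω, 0 ≤ P ω) (h1 : ∑ ω, P ω = 1)
    (f : Ω → α) : H P f ≤ Real.log (Fintype.card α) := by
  by_cases hα : Fintype.card α = 0
  · have : IsEmpty α := Fintype.card_eq_zero_iff.1 hα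
    have : IsEmpty Ω := ⟨fun ω => this.false (f ω)⟩
    simp at h1
  have hc : (0 : ℝ) < Fintype.card α := by positivity
  have := gibbs hP h1 f (fun _ => 1 / (Fintype.card α : ℝ)) (fun _ => by positivity)
    (by simp [hc.ne']) (fun _ _ => by positivity)
  refine this.trans (le_of_eq ?_)
  rw [← Finset.sum_mul, h1]
  simp

open Classical in
/-- The variational inequality behind submodularity and the Donsker-Varadhan bound. -/
lemma var_ineq {P : Ω → ℝ} (hP : ∀ ω, 0 ≤ P ω) (h1 : ∑ ω, P ω = 1)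
    (f : Ω → α) (g : Ω → β) (v : Ω → γ)
    (hf : ∀ ω ω', f ω = f ω' → v ω = v ω') (hg : ∀ ω ω', g ω = g ω' → v ω = v ω')
    (t : α → β → ℝ) (ht : ∀ a b, 0 < t a b)
    (hs : ∑ ω, ∑ ω', (if v ω' = v ω then P ω * P ω' * t (f ω) (g ω') / mass P v (v ω) else 0)
      ≤ 1) :
    ∑ ω, P ω * Real.log (t (f ω) (g ω)) + H P v + H P (fun ω => (f ω, g ω)) ≤ H P f + H P g := by
  set fg : Ω → α × β := fun ω => (f ω, g ω) with hfg
  have hj := jensen hP h1 (fun ω => t (f ω) (g ω) * mass P f (f ω) * mass P g (g ω) /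
      (mass P v (v ω) * mass P fg (fg ω)))
    (fun ω h => div_pos (mul_pos (mul_pos (ht _ _) (mass_pos hP f h)) (mass_pos hP g h))
      (mul_pos (mass_pos hP v h) (mass_pos hP fg h))) ?_
  · have e : ∑ ω, P ω * Real.log (t (f ω) (g ω) * mass P f (f ω) * mass P g (g ω) /
        (mass P v (v ω) * mass P fg (fg ω))) =
        ∑ ω, P ω * Real.log (t (f ω) (g ω)) + H P v + H P fg - (H P f + H P g) := by
      unfold H
      rw [← Finset.sum_add_distrib, ← Finset.sum_add_distrib, ← Finset.sum_add_distrib,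
        ← Finset.sum_sub_distrib]
      refine Finset.sum_congr rfl fun ω _ => ?_
      by_cases h : P ω = 0
      · simp [h]
      rw [Real.log_div (mul_pos (mul_pos (ht _ _) (mass_pos hP f h)) (mass_pos hP g h)).ne'
        (mul_pos (mass_pos hP v h) (mass_pos hP fg h)).ne',
        Real.log_mul (mul_pos (ht _ _) (mass_pos hP f h)).ne' (mass_pos hP g h).ne',
        Real.log_mul (ht _ _).ne' (mass_pos hP f h).ne',
        Real.log_mul (mass_pos hP v h).ne' (mass_pos hP fg h).ne']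
      ring
    linarith
  · refine le_trans ?_ hs
    calc ∑ ω, P ω * (t (f ω) (g ω) * mass P f (f ω) * mass P g (g ω) /
          (mass P v (v ω) * mass P fg (fg ω)))
        = ∑ ω, ∑ ω', ∑ ω'',
            (if v ω'' = v ω' then P ω' * P ω'' * t (f ω') (g ω'') / mass P v (v ω') else 0) *
            (if fg ω = (f ω', g ω'') then P ω / mass P fg (fg ω) else 0) := by
          refine Finset.sum_congr rfl fun ω _ => ?_
          rw [show mass P g (g ω) = ∑ ω', if g ω' = g ω then P ω' else 0 from rfl,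
            show mass P f (f ω) = ∑ ω', if f ω' = f ω then P ω' else 0 from rfl,
            mul_assoc (t _ _), Finset.sum_mul_sum, Finset.mul_sum, Finset.sum_div, Finset.mul_sum]
          refine Finset.sum_congr rfl fun ω' _ => ?_
          rw [Finset.mul_sum, Finset.sum_div, Finset.mul_sum]
          refine Finset.sum_congr rfl fun ω'' _ => ?_
          by_cases h' : f ω' = f ω
          · by_cases h'' : g ω'' = g ω
            · have e1 : v ω' = v ω := hf _ _ h'
              have e2 : v ω'' = v ω := hg _ _ h''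
              simp only [hfg, h', h'', e1, e2, if_true]
              ring
            · simp [hfg, h'', Ne.symm h'']
          · simp [hfg, h', Ne.symm h']
      _ = ∑ ω', ∑ ω'',
            (if v ω'' = v ω' then P ω' * P ω'' * t (f ω') (g ω'') / mass P v (v ω') else 0) *
            ∑ ω, (if fg ω = (f ω', g ω'') then P ω / mass P fg (fg ω) else 0) := by
          rw [Finset.sum_comm]
          refine Finset.sum_congr rfl fun ω' _ => ?_
          rw [Finset.sum_comm]
          refine Finset.sum_congr rfl fun a _ => ?_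
          rw [Finset.mul_sum]
      _ ≤ _ := by
          refine Finset.sum_le_sum fun ω' _ => Finset.sum_le_sum fun ω'' _ => ?_
          refine mul_le_of_le_one_right ?_ ?_
          · split_ifs
            · exact div_nonneg (mul_nonneg (mul_nonneg (hP _) (hP _)) (ht _ _).le)
                (mass_nonneg hP _ _)
            · exact le_rfl
          · exact sum_div_mass_le_one P fg (f ω', g ω'')

/-- Submodularity of entropy. -/
lemma submod {P : Ω → ℝ} (hP : ∀ ω, 0 ≤ P ω) (h1 : ∑ ω, P ω = 1)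
    (f : Ω → α) (g : Ω → β) (v : Ω → γ) (u : Ω → δ)
    (hf : ∀ ω ω', f ω = f ω' → v ω = v ω') (hg : ∀ ω ω', g ω = g ω' → v ω = v ω')
    (hu : ∀ ω ω', f ω = f ω' → g ω = g ω' → u ω = u ω') :
    H P v + H P u ≤ H P f + H P g := by
  classical
  have h0 : H P u ≤ H P (fun ω => (f ω, g ω)) :=
    H_le_of_det hP _ _ fun ω ω' _ _ h => hu ω ω' (congrArg Prod.fst h) (congrArg Prod.snd h)
  have := var_ineq hP h1 f g v hf hg (fun _ _ => 1) (fun _ _ => one_pos) ?_
  · simp only [Real.log_one, mul_zero, Finset.sum_const_zero] at this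
    linarith
  · refine le_trans (Finset.sum_le_sum fun ω _ => ?_) h1.le
    have : ∑ ω', (if v ω' = v ω then P ω * P ω' * 1 / mass P v (v ω) else 0) =
        P ω * ∑ ω', (if v ω' = v ω then P ω' / mass P v (v ω') else 0) := by
      rw [Finset.mul_sum]
      refine Finset.sum_congr rfl fun ω' _ => ?_
      split_ifs with h
      · rw [h]; ring
      · simp
    rw [this]
    exact mul_le_of_le_one_right (hP ω) (sum_div_mass_le_one P v (v ω))

/-- Donsker-Varadhan lower bound on mutual information. -/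
lemma dv {P : Ω → ℝ} (hP : ∀ ω, 0 ≤ P ω) (h1 : ∑ ω, P ω = 1)
    (f : Ω → α) (g : Ω → β) (t : α → β → ℝ) (ht : ∀ a b, 0 < t a b)
    (hs : ∑ ω, ∑ ω', P ω * P ω' * t (f ω) (g ω') ≤ 1) :
    ∑ ω, P ω * Real.log (t (f ω) (g ω)) ≤ mi P f g * Real.log 2 := by
  have := var_ineq hP h1 f g (fun _ => ()) (fun _ _ _ => rfl) (fun _ _ _ => rfl) t ht
    (by simpa [mass, h1] using hs)
  rw [H_const h1] at this
  rw [mi_eq]
  linarith

lemma mi_nonneg {P : Ω → ℝ} (hP : ∀ ω, 0 ≤ P ω) (h1 : ∑ ω, P ω = 1)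
    (f : Ω → α) (g : Ω → β) : 0 ≤ mi P f g := by
  have := submod hP h1 f g (fun _ => ()) (fun ω => (f ω, g ω)) (fun _ _ _ => rfl)
    (fun _ _ _ => rfl) (fun _ _ a b => by rw [a, b])
  rw [H_const h1] at this
  have h2 : 0 ≤ mi P f g * Real.log 2 := by rw [mi_eq]; linarith
  exact nonneg_of_mul_nonneg_left h2 (Real.log_pos one_lt_two)

/-- Data processing. -/
lemma mi_le_of_det {P : Ω → ℝ} (hP : ∀ ω, 0 ≤ P ω) (h1 : ∑ ω, P ω = 1)
    (f : Ω → α) (f' : Ω → γ) (g : Ω → β)
    (h : ∀ ω ω', P ω ≠ 0 → P ω' ≠ 0 → f' ω = f' ω' → f ω = f ω') :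
    mi P f g * Real.log 2 ≤ H P f' + H P g - H P (fun ω => (f' ω, g ω)) := by
  have e1 : H P (fun ω => (f ω, f' ω)) ≤ H P f' :=
    H_le_of_det hP _ _ fun ω ω' a b c => by rw [h ω ω' a b c, c]
  have := submod hP h1 (fun ω => (f ω, f' ω)) (fun ω => (f ω, g ω)) f (fun ω => (f' ω, g ω))
    (fun _ _ a => congrArg Prod.fst a) (fun _ _ a => congrArg Prod.fst a)
    (fun _ _ a b => by
      have h1 := congrArg Prod.snd a
      have h2 := congrArg Prod.snd b
      simp only at h1 h2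
      rw [h1, h2])
  rw [mi_eq]
  linarith

/-- Adding an auxiliary variable through a kernel leaves the old entropies unchanged. -/
lemma H_ext {Q : Type} [Fintype Q] (P : Ω → ℝ) (c : Ω → Q → ℝ) (hc : ∀ ω, ∑ q, c ω q = 1)
    (f : Ω → α) : H (fun x : Ω × Q => P x.1 * c x.1 x.2) (fun x => f x.1) = H P f := by
  classical
  have hm : ∀ a, mass (fun x : Ω × Q => P x.1 * c x.1 x.2) (fun x => f x.1) a = mass P f a := by
    intro a
    unfold mass
    rw [Fintype.sum_prod_type]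
    refine Finset.sum_congr rfl fun ω _ => ?_
    by_cases h : f ω = a
    · simp only [h, if_true]
      rw [← Finset.mul_sum, hc, mul_one]
    · simp [h]
  unfold H
  simp only [hm]
  rw [Fintype.sum_prod_type]
  refine Finset.sum_congr rfl fun ω _ => ?_
  simp only [mul_right_comm (P ω) (c ω _)]
  rw [← Finset.mul_sum, hc, mul_one]

end Pool.Agent.Lib.MP_426fec_lc
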