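import Mathlib

set_option autoImplicit false

/-! Two elementary inequalities used for the universal upper bound. -/

namespace Pool.Agent.Lib.MP_426fec_lc.Ext

open Finset Set

/-- A function vanishing at 0 and 1 whose derivative vanishes at 0 and is concave is
nonnegative on the unit interval. -/
lemma nonneg_of_deriv {G G1 G2 : ℝ → ℝ} (hc : ContinuousOn G (Icc 0 1))
    (h1 : ∀ v ∈ Ico (0 : ℝ) 1, HasDerivAt G (G1 v) v)
    (h2 : ∀ v ∈ Ico (0 : ℝ) 1, HasDerivAt G1 (G2 v) v)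
    (ha : AntitoneOn G2 (Ico 0 1)) (e0 : G 0 = 0) (e1 : G 1 = 0) (e2 : G1 0 = 0)
    {v : ℝ} (hv0 : 0 ≤ v) (hv1 : v ≤ 1) : 0 ≤ G v := by
  by_contra hneg
  push Not at hneg
  have v0 : 0 < v := lt_of_le_of_ne hv0 fun h => by rw [← h, e0] at hneg; exact lt_irrefl _ hneg
  have v1 : v < 1 := lt_of_le_of_ne hv1 fun h => by rw [h, e1] at hneg; exact lt_irrefl _ hneg
  obtain ⟨a, ⟨a0, a1⟩, ha'⟩ := exists_hasDerivAt_eq_slope G G1 v0
    (hc.mono (Icc_subset_Icc le_rfl hv1)) fun x hx => h1 x ⟨hx.1.le, hx.2.trans v1⟩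
  obtain ⟨b, ⟨b0, b1⟩, hb'⟩ := exists_hasDerivAt_eq_slope G G1 v1
    (hc.mono (Icc_subset_Icc hv0 le_rfl)) fun x hx => h1 x ⟨hv0.trans hx.1.le, hx.2⟩
  have ga : G1 a < 0 := by
    rw [ha', e0, sub_zero, sub_zero]; exact div_neg_of_neg_of_pos hneg v0
  have gb : 0 < G1 b := by
    rw [hb', e1]; exact div_pos (by linarith) (by linarith)
  have ab : a < b := a1.trans b0
  have cont : ∀ p q : ℝ, 0 ≤ p → q < 1 → ContinuousOn G1 (Icc p q) := fun p q hp hq x hx =>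
    (h2 x ⟨hp.trans hx.1, hx.2.trans_lt hq⟩).continuousAt.continuousWithinAt
  obtain ⟨c, ⟨c0, c1⟩, hc'⟩ := exists_hasDerivAt_eq_slope G1 G2 a0 (cont 0 a le_rfl (ab.trans b1))
    fun x hx => h2 x ⟨hx.1.le, hx.2.trans (ab.trans b1)⟩
  obtain ⟨e, ⟨f0, f1⟩, he'⟩ := exists_hasDerivAt_eq_slope G1 G2 ab (cont a b a0.le b1)
    fun x hx => h2 x ⟨a0.le.trans hx.1.le, hx.2.trans b1⟩
  have gc : G2 c < 0 := by
    rw [hc', e2, sub_zero, sub_zero]; exact div_neg_of_neg_of_pos ga a0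
  have ge : 0 < G2 e := by
    rw [he']; exact div_pos (by linarith) (by linarith)
  have := ha (a := c) (b := e) ⟨c0.le, by linarith⟩ ⟨by linarith, by linarith⟩ (by linarith)
  linarith

/-- `log cosh (v ρ) ≥ v ^ 2 log cosh ρ` for `0 ≤ v ≤ 1`. -/
lemma log_cosh_ge0 {ρ : ℝ} (hρ : 0 ≤ ρ) {v : ℝ} (hv0 : 0 ≤ v) (hv1 : v ≤ 1) :
    v ^ 2 * Real.log (Real.cosh ρ) ≤ Real.log (Real.cosh (v * ρ)) := by
  have hc : ∀ x : ℝ, Real.cosh x ≠ 0 := fun x => (Real.cosh_pos x).ne'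
  have d0 : ∀ x : ℝ, HasDerivAt (fun x => Real.cosh (x * ρ)) (Real.sinh (x * ρ) * ρ) x := fun x => by
    simpa using (hasDerivAt_mul_const ρ (x := x)).cosh
  have d1 : ∀ x : ℝ, HasDerivAt (fun x => Real.sinh (x * ρ)) (Real.cosh (x * ρ) * ρ) x := fun x => by
    simpa using (hasDerivAt_mul_const ρ (x := x)).sinh
  have h1 : ∀ x : ℝ, HasDerivAt
      (fun x => Real.log (Real.cosh (x * ρ)) - x ^ 2 * Real.log (Real.cosh ρ))
      (Real.sinh (x * ρ) * ρ / Real.cosh (x * ρ) - 2 * x * Real.log (Real.cosh ρ)) x := fun x => by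
    have := ((d0 x).log (hc _)).sub ((hasDerivAt_pow 2 x).mul_const (Real.log (Real.cosh ρ)))
    refine HasDerivAt.congr_deriv this ?_
    simp
  have h2 : ∀ x : ℝ, HasDerivAt
      (fun x => Real.sinh (x * ρ) * ρ / Real.cosh (x * ρ) - 2 * x * Real.log (Real.cosh ρ))
      (ρ ^ 2 / Real.cosh (x * ρ) ^ 2 - 2 * Real.log (Real.cosh ρ)) x := fun x => by
    have := ((((d1 x).mul_const ρ).div (d0 x) (hc _)).sub
      (((hasDerivAt_id x).const_mul 2).mul_const (Real.log (Real.cosh ρ))))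
    refine HasDerivAt.congr_deriv this ?_
    have e := Real.cosh_sq (x * ρ)
    have e2 : Real.cosh (x * ρ) * ρ * ρ * Real.cosh (x * ρ) -
        Real.sinh (x * ρ) * ρ * (Real.sinh (x * ρ) * ρ) = ρ ^ 2 := by
      linear_combination (ρ ^ 2) * e
    rw [e2, mul_one]
  have := nonneg_of_deriv (fun x _ => (h1 x).continuousAt.continuousWithinAt) (fun x _ => h1 x)
    (fun x _ => h2 x) ?_ (by simp) (by simp) (by simp) hv0 hv1
  · linarith
  · intro a ha b hb hab
    have : Real.cosh (a * ρ) ≤ Real.cosh (b * ρ) := by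
      rw [Real.cosh_le_cosh, abs_of_nonneg (mul_nonneg ha.1 hρ), abs_of_nonneg (mul_nonneg hb.1 hρ)]
      exact mul_le_mul_of_nonneg_right hab hρ
    have p := Real.cosh_pos (a * ρ)
    have : ρ ^ 2 / Real.cosh (b * ρ) ^ 2 ≤ ρ ^ 2 / Real.cosh (a * ρ) ^ 2 := by gcongr
    simp only
    linarith

lemma log_cosh_ge {ρ : ℝ} (hρ : 0 ≤ ρ) {v : ℝ} (hv : |v| ≤ 1) :
    v ^ 2 * Real.log (Real.cosh ρ) ≤ Real.log (Real.cosh (v * ρ)) := by
  have := log_cosh_ge0 hρ (abs_nonneg v) hv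
  rwa [sq_abs, ← Real.cosh_abs (|v| * ρ), abs_mul, abs_abs, ← abs_mul, Real.cosh_abs] at this

/-- the binary entropy in bits is at least `4 t (1 - t)` -/
lemma bin_ge0 {v : ℝ} (hv0 : 0 ≤ v) (hv1 : v ≤ 1) :
    (1 + v) * Real.log (1 + v) + (1 - v) * Real.log (1 - v) ≤ 2 * Real.log 2 * v ^ 2 := by
  have h1 : ∀ x ∈ Ico (0 : ℝ) 1, HasDerivAt
      (fun x => 2 * Real.log 2 * x ^ 2 - ((1 + x) * Real.log (1 + x) + (1 - x) * Real.log (1 - x)))
      (4 * Real.log 2 * x - (Real.log (1 + x) - Real.log (1 - x))) x := fun x hx => by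
    have p : (1 + x) ≠ 0 := by linarith [hx.1]
    have q : (1 - x) ≠ 0 := by linarith [hx.2]
    have a := (hasDerivAt_id x).const_add 1
    have b := (hasDerivAt_id x).const_sub 1
    have := ((hasDerivAt_pow 2 x).const_mul (2 * Real.log 2)).sub
      ((a.mul (a.log p)).add (b.mul (b.log q)))
    refine HasDerivAt.congr_deriv this ?_
    simp only [id]
    field_simp
    ring
  have h2 : ∀ x ∈ Ico (0 : ℝ) 1, HasDerivAt
      (fun x => 4 * Real.log 2 * x - (Real.log (1 + x) - Real.log (1 - x)))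
      (4 * Real.log 2 - 2 / (1 - x ^ 2)) x := fun x hx => by
    have p : (1 + x) ≠ 0 := by linarith [hx.1]
    have q : (1 - x) ≠ 0 := by linarith [hx.2]
    have pq : (1 - x ^ 2) ≠ 0 := by
      rw [show 1 - x ^ 2 = (1 + x) * (1 - x) by ring]; exact mul_ne_zero p q
    have a := (hasDerivAt_id x).const_add 1
    have b := (hasDerivAt_id x).const_sub 1
    have := ((hasDerivAt_id x).const_mul (4 * Real.log 2)).sub ((a.log p).sub (b.log q))
    refine HasDerivAt.congr_deriv this ?_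
    simp only [id]
    field_simp
    ring
  have hc : Continuous fun x : ℝ =>
      2 * Real.log 2 * x ^ 2 - ((1 + x) * Real.log (1 + x) + (1 - x) * Real.log (1 - x)) := by
    refine Continuous.sub (by fun_prop) (Continuous.add ?_ ?_)
    · exact Real.continuous_mul_log.comp (f := fun x : ℝ => 1 + x) (by fun_prop)
    · exact Real.continuous_mul_log.comp (f := fun x : ℝ => 1 - x) (by fun_prop)
  have := nonneg_of_deriv hc.continuousOn h1 h2 ?_ (by simp) (by norm_num) (by simp) hv0 hv1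
  · linarith
  · intro a ha b hb hab
    have p : 0 < 1 - b ^ 2 := by nlinarith [hb.1, hb.2]
    have q : 1 - b ^ 2 ≤ 1 - a ^ 2 := by nlinarith [ha.1]
    have : 2 / (1 - a ^ 2) ≤ 2 / (1 - b ^ 2) := by gcongr
    simp only
    linarith

/-- the one-letter defect -/
noncomputable def ff (t : ℝ) : ℝ := -(t * Real.log t) - 2 * Real.log 2 * (t * (1 - t))

lemma ff_pair {s : ℝ} (h0 : 0 ≤ s) (h1 : s ≤ 1 / 2) : 0 ≤ ff s + ff (1 - s) := by
  have h := bin_ge0 (v := 1 - 2 * s) (by linarith) (by linarith)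
  have e1 : (1 - (1 - 2 * s)) * Real.log (1 - (1 - 2 * s)) =
      2 * (s * Real.log s) + 2 * s * Real.log 2 := by
    rw [show 1 - (1 - 2 * s) = 2 * s by ring]
    rcases h0.eq_or_lt with h | h
    · simp [← h]
    · rw [Real.log_mul two_ne_zero h.ne']; ring
  have e2 : (1 + (1 - 2 * s)) * Real.log (1 + (1 - 2 * s)) =
      2 * ((1 - s) * Real.log (1 - s)) + 2 * (1 - s) * Real.log 2 := by
    rw [show 1 + (1 - 2 * s) = 2 * (1 - s) by ring,
      Real.log_mul two_ne_zero (by linarith : (1 - s) ≠ 0)]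
    ring
  rw [e1, e2] at h
  unfold ff
  nlinarith

lemma ff_ge {t s : ℝ} (h0 : 0 ≤ t) (hts : t ≤ s) (h1 : s ≤ 1 / 2) :
    t * (-Real.log s - 2 * Real.log 2 * (1 - s)) ≤ ff t := by
  rcases h0.eq_or_lt with h | h
  · simp [ff, ← h]
  have s0 : 0 < s := h.trans_le hts
  have a := Real.log_le_sub_one_of_pos (div_pos h s0)
  rw [Real.log_div h.ne' s0.ne'] at a
  have l2 : Real.log 2 ≤ 1 := by linarith [Real.log_le_sub_one_of_pos (two_pos : (0 : ℝ) < 2)]
  have b : t / s - 1 ≤ -(2 * (s - t)) := by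
    rw [div_sub_one s0.ne', div_le_iff₀ s0]
    nlinarith
  have c : Real.log t - Real.log s ≤ -(2 * Real.log 2 * (s - t)) := by nlinarith
  unfold ff
  nlinarith

/-- entropy against the index of coincidence: `H(t) ≥ 2 log 2 (1 - ∑ t ^ 2)` -/
lemma sum_ff_nonneg {Y : Type} [Fintype Y] {t : Y → ℝ} (h0 : ∀ y, 0 ≤ t y)
    (h1 : ∑ y, t y = 1) : 0 ≤ ∑ y, ff (t y) := by
  classical
  by_cases h : ∀ y, t y ≤ 1 / 2
  · refine Finset.sum_nonneg fun y _ => le_trans (le_of_eq ?_) (ff_ge (h0 y) (h y) le_rfl)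
    rw [one_div, Real.log_inv]; ring
  push Not at h
  obtain ⟨j, hj⟩ := h
  have e : ∑ y ∈ univ.erase j, t y = 1 - t j := by
    rw [← h1, ← Finset.add_sum_erase _ _ (Finset.mem_univ j)]; ring
  have s0 : 0 ≤ 1 - t j := e ▸ Finset.sum_nonneg fun y _ => h0 y
  have a : ∑ y ∈ univ.erase j, t y * (-Real.log (1 - t j) - 2 * Real.log 2 * (1 - (1 - t j))) ≤
      ∑ y ∈ univ.erase j, ff (t y) := Finset.sum_le_sum fun y hy =>
    ff_ge (h0 y) (e ▸ Finset.single_le_sum (fun y _ => h0 y) hy) (by linarith)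
  rw [← Finset.sum_mul, e] at a
  have b := ff_pair s0 (by linarith)
  rw [sub_sub_cancel] at b
  rw [← Finset.add_sum_erase _ _ (Finset.mem_univ j)]
  have c : ff (1 - t j) =
      (1 - t j) * (-Real.log (1 - t j) - 2 * Real.log 2 * (1 - (1 - t j))) := by
    unfold ff; ring
  linarith

end Pool.Agent.Lib.MP_426fec_lc.Ext
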