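import Pool.Agent.Lib.MP_426fec_lc.Achieve4
import Pool.Agent.Lib.MP_426fec_lc.Ext1

set_option autoImplicit false

/-! The universal upper bound in terms of the size of the output alphabet. -/

namespace Pool.Agent.Lib.MP_426fec_lc.Ext

open Finset

noncomputable def lam : ℝ := Real.log 2 / 2
noncomputable def rho : ℝ := Real.log (1 + √2)

/-- logarithms of the two values `2 + √2` and `2 - √2` -/
noncomputable def lg (b : Bool) : ℝ := if b then lam + rho else lam - rho

/-- the tilted weight of a value -/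
noncomputable def tw (u : ℝ) (b : Bool) : ℝ := Real.exp ((u - 1) * lg b) / 2

/-- the moment generating function -/
noncomputable def mg (u : ℝ) : ℝ := ∑ b, tw u b

lemma tw_pos (u : ℝ) (b : Bool) : 0 < tw u b := by unfold tw; positivity

lemma tw_add (u v : ℝ) (b : Bool) : tw u b * Real.exp (v * lg b) = tw (u + v) b := by
  unfold tw
  rw [div_mul_eq_mul_div, ← Real.exp_add]
  congr 2
  ring

lemma mg_eq (u : ℝ) : mg u = Real.exp ((u - 1) * lam) * Real.cosh ((u - 1) * rho) := by
  rw [mg, Fintype.sum_bool, Real.cosh_eq]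
  simp only [tw, lg, if_true, Bool.false_eq_true, if_false, mul_add, mul_sub, Real.exp_add,
    Real.exp_sub, Real.exp_neg]
  field_simp

lemma mg_pos (u : ℝ) : 0 < mg u := by rw [mg_eq]; exact mul_pos (Real.exp_pos _) (Real.cosh_pos _)

lemma rho_nonneg : 0 ≤ rho := Real.log_nonneg (by linarith [Real.sqrt_nonneg 2])

lemma exp_lam : Real.exp lam = √2 := by
  rw [lam, Real.sqrt_eq_rpow, Real.rpow_def_of_pos two_pos]
  congr 1
  ring

lemma cosh_rho : Real.cosh rho = Real.exp lam := by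
  have h : (0 : ℝ) < 1 + √2 := by linarith [Real.sqrt_nonneg 2]
  have s : √2 * √2 = (2 : ℝ) := Real.mul_self_sqrt zero_le_two
  rw [exp_lam, Real.cosh_eq, rho, Real.exp_neg, Real.exp_log h]
  field_simp
  nlinarith

lemma mg_zero : mg 0 = 1 := by
  rw [mg_eq, zero_sub, neg_one_mul, neg_one_mul, Real.cosh_neg, cosh_rho, ← Real.exp_add]
  simp

lemma mg_one : mg 1 = 1 := by rw [mg_eq]; simp

lemma mg_two : mg 2 = 2 := by
  rw [mg_eq, show (2 : ℝ) - 1 = 1 by norm_num, one_mul, one_mul, cosh_rho, exp_lam]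
  exact Real.mul_self_sqrt zero_le_two

lemma log_mg_ge {t : ℝ} (h0 : 0 ≤ t) (h1 : t ≤ 1) :
    Real.log 2 * (2 * t ^ 2 - t) ≤ Real.log (mg (2 * t)) := by
  have h := log_cosh_ge rho_nonneg (v := 2 * t - 1) (abs_le.2 ⟨by linarith, by linarith⟩)
  rw [cosh_rho, Real.log_exp] at h
  rw [mg_eq, Real.log_mul (Real.exp_pos _).ne' (Real.cosh_pos _).ne', Real.log_exp]
  unfold lam at h ⊢
  nlinarith

variable {Y : Type} [Fintype Y] [DecidableEq Y]

lemma sum_prod_tw (u : Y → ℝ) : ∑ g : Y → Bool, ∏ i, tw (u i) (g i) = ∏ i, mg (u i) := by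
  unfold mg
  rw [Finset.prod_univ_sum, Fintype.piFinset_univ]

/-- the base law of the auxiliary variable -/
noncomputable def nu (g : Y → Bool) : ℝ := ∏ i, tw 0 (g i)

noncomputable def gv (b : Bool) : ℝ := Real.exp (lg b)

lemma gv_pos (b : Bool) : 0 < gv b := Real.exp_pos _

omit [DecidableEq Y] in
lemma nu_pos (g : Y → Bool) : 0 < nu g := Finset.prod_pos fun _ _ => tw_pos _ _

omit [DecidableEq Y] in
lemma prod_tw_eq (u : Y → ℝ) (g : Y → Bool) :
    ∏ i, tw (u i) (g i) = nu g * Real.exp (∑ i, u i * lg (g i)) := by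
  rw [nu, Real.exp_sum, ← Finset.prod_mul_distrib]
  refine Finset.prod_congr rfl fun i _ => ?_
  rw [tw_add, zero_add]

lemma second_moment (i y : Y) :
    ∑ g : Y → Bool, nu g * gv (g i) * gv (g y) = if i = y then 2 else 1 := by
  have e : ∀ g : Y → Bool, nu g * gv (g i) * gv (g y) =
      ∏ k, tw ((if k = i then 1 else 0) + (if k = y then 1 else 0)) (g k) := by
    intro g
    rw [prod_tw_eq]
    simp only [add_mul, Finset.sum_add_distrib, ite_mul, one_mul, zero_mul, Finset.sum_ite_eq',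
      Finset.mem_univ, if_true, Real.exp_add, gv]
    ring
  simp_rw [e]
  rw [sum_prod_tw]
  split_ifs with h
  · subst h
    rw [Finset.prod_eq_single i]
    · simp only [if_true]; rw [one_add_one_eq_two, mg_two]
    · intro k _ hk; simp [hk, mg_zero]
    · simp
  · refine Finset.prod_eq_one fun k _ => ?_
    by_cases h1 : k = i
    · subst h1; simp [h, mg_one]
    · by_cases h2 : k = y
      · subst h2; simp [h1, mg_one]
      · simp [h1, h2, mg_zero]

/-- the kernel from a row of the channel to the auxiliary variable -/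
noncomputable def kap (t : Y → ℝ) (g : Y → Bool) : ℝ :=
  (∏ i, tw (2 * t i) (g i)) / ∏ i, mg (2 * t i)

noncomputable def rr (y : Y) (g : Y → Bool) : ℝ :=
  nu g * (∑ i, gv (g i)) * gv (g y) / (Fintype.card Y + 1)

noncomputable def ss (y : Y) (g : Y → Bool) : ℝ := gv (g y) / ∑ i, gv (g i)

omit [DecidableEq Y] in
lemma kap_pos (t : Y → ℝ) (g : Y → Bool) : 0 < kap t g :=
  div_pos (Finset.prod_pos fun _ _ => tw_pos _ _) (Finset.prod_pos fun _ _ => mg_pos _)

lemma kap_sum (t : Y → ℝ) : ∑ g, kap t g = 1 := by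
  unfold kap
  rw [← Finset.sum_div, sum_prod_tw (fun i => 2 * t i),
    div_self (Finset.prod_pos fun _ _ => mg_pos _).ne']

omit [DecidableEq Y] in
lemma sg_pos (y : Y) (g : Y → Bool) : 0 < ∑ i, gv (g i) :=
  Finset.sum_pos (fun _ _ => gv_pos _) ⟨y, Finset.mem_univ y⟩

omit [DecidableEq Y] in
lemma rr_pos (y : Y) (g : Y → Bool) : 0 < rr y g :=
  div_pos (mul_pos (mul_pos (nu_pos g) (sg_pos y g)) (gv_pos _)) (by positivity)

omit [DecidableEq Y] in
lemma ss_pos (y : Y) (g : Y → Bool) : 0 < ss y g := div_pos (gv_pos _) (sg_pos y g)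

lemma rr_sum (y : Y) : ∑ g, rr y g = 1 := by
  unfold rr
  rw [← Finset.sum_div, div_eq_one_iff_eq (by positivity)]
  simp_rw [Finset.mul_sum, Finset.sum_mul]
  rw [Finset.sum_comm]
  simp_rw [second_moment]
  have : ∀ i : Y, (if i = y then (2 : ℝ) else 1) = 1 + if i = y then 1 else 0 := fun i => by
    split_ifs <;> norm_num
  simp_rw [this]
  simp [Finset.sum_add_distrib]

omit [DecidableEq Y] in
lemma ss_sum [Nonempty Y] (g : Y → Bool) : ∑ y, ss y g = 1 := by
  unfold ss
  rw [← Finset.sum_div, div_self (sg_pos (Classical.arbitrary Y) g).ne']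

omit [DecidableEq Y] in
lemma log_term (t : Y → ℝ) (h0 : ∀ y, 0 ≤ t y) (y : Y) (g : Y → Bool) :
    t y * kap t g * Real.log (t y * kap t g / (rr y g * ss y g)) =
      kap t g * (t y * Real.log (t y) + t y * (Real.log (Fintype.card Y + 1) -
        ∑ i, Real.log (mg (2 * t i)) + ∑ i, 2 * t i * lg (g i)) - 2 * t y * lg (g y)) := by
  rcases (h0 y).eq_or_lt with h | h
  · simp [← h]
  have hm : 0 < ∏ i, mg (2 * t i) := Finset.prod_pos fun _ _ => mg_pos _
  have hd : (0 : ℝ) < Fintype.card Y + 1 := by positivity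
  have e : t y * kap t g / (rr y g * ss y g) =
      t y * (Fintype.card Y + 1) * Real.exp (∑ i, 2 * t i * lg (g i)) /
        ((∏ i, mg (2 * t i)) * gv (g y) ^ 2) := by
    have := nu_pos g
    have := sg_pos y g
    have := gv_pos (g y)
    unfold kap rr ss
    rw [prod_tw_eq (fun i => 2 * t i)]
    field_simp
  rw [e, Real.log_div (by positivity) (mul_pos hm (pow_pos (gv_pos _) 2)).ne',
    Real.log_mul (by positivity) (Real.exp_pos _).ne', Real.log_mul h.ne' hd.ne', Real.log_exp,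
    Real.log_mul hm.ne' (pow_pos (gv_pos _) 2).ne', Real.log_pow, gv, Real.log_exp,
    Real.log_prod fun _ _ => (mg_pos _).ne']
  push_cast
  ring

lemma row_bound (t : Y → ℝ) (h0 : ∀ y, 0 ≤ t y) (h1 : ∑ y, t y = 1) :
    ∑ y, ∑ g, t y * kap t g * Real.log (t y * kap t g / (rr y g * ss y g)) ≤
      Real.log ((Fintype.card Y + 1) / 2) := by
  simp_rw [log_term t h0]
  rw [Finset.sum_comm]
  have e : ∀ g : Y → Bool, ∑ y, kap t g * (t y * Real.log (t y) +
      t y * (Real.log (Fintype.card Y + 1) - ∑ i, Real.log (mg (2 * t i)) +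
        ∑ i, 2 * t i * lg (g i)) - 2 * t y * lg (g y)) =
      kap t g * (∑ y, t y * Real.log (t y) + Real.log (Fintype.card Y + 1) -
        ∑ i, Real.log (mg (2 * t i))) := by
    intro g
    rw [← Finset.mul_sum, Finset.sum_sub_distrib, Finset.sum_add_distrib, ← Finset.sum_mul, h1]
    ring
  simp_rw [e]
  rw [← Finset.sum_mul, kap_sum, one_mul, Real.log_div (by positivity) two_ne_zero]
  have a := sum_ff_nonneg h0 h1
  have b : ∑ i, Real.log 2 * (2 * t i ^ 2 - t i) ≤ ∑ i, Real.log (mg (2 * t i)) :=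
    Finset.sum_le_sum fun i _ =>
      log_mg_ge (h0 i) (h1 ▸ Finset.single_le_sum (fun y _ => h0 y) (Finset.mem_univ i))
  have c : ∑ y, ff (t y) = -∑ y, t y * Real.log (t y) +
      ∑ i, Real.log 2 * (2 * t i ^ 2 - t i) - Real.log 2 * ∑ y, t y := by
    rw [Finset.mul_sum, ← Finset.sum_neg_distrib, ← Finset.sum_add_distrib,
      ← Finset.sum_sub_distrib]
    refine Finset.sum_congr rfl fun y _ => ?_
    unfold ff
    ring
  rw [c, h1] at a
  linarith

/-- The universal upper bound. -/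
theorem upper [Nonempty Y] {X : Type} {W : X → Y → ℝ} (hW0 : ∀ x y, 0 ≤ W x y)
    (hW1 : ∀ x, ∑ y, W x y = 1) : otCapacity W ≤ Real.logb 2 ((Fintype.card Y + 1) / 2) := by
  have hc : (1 : ℝ) ≤ Fintype.card Y := by exact_mod_cast Fintype.card_pos
  refine otCapacity_le (Q := Y → Bool) hW0 hW1 (κ := fun x => kap (W x))
    (fun x q => (kap_pos _ _).le) (fun x => kap_sum _) (r := rr) (s := ss)
    (fun y q => (rr_pos y q).le) rr_sum (fun y q => (ss_pos y q).le) ss_sum
    (fun _ y q _ => ⟨rr_pos y q, ss_pos y q⟩)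
    (Real.logb_nonneg one_lt_two (by linarith)) fun x => ?_
  rw [Real.logb, div_mul_cancel₀ _ (Real.log_pos one_lt_two).ne']
  exact row_bound (W x) (hW0 x) (hW1 x)

end Pool.Agent.Lib.MP_426fec_lc.Ext
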