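import Pool.Agent.Lib.MP_426fec_lc.Ext2

set_option autoImplicit false
set_option linter.unusedSectionVars false

/-! The reflection scheme for channels that contain all rows `(δ_i + δ_j) / 2`. -/

namespace Pool.Agent.Lib.MP_426fec_lc.Ext

open Finset

variable {X Y F : Type} [Fintype Y] [DecidableEq Y] [Nonempty Y] [Field F] [Fintype F]
  [DecidableEq F]

/-- the law of the ordered pair -/
noncomputable def pp (a : Y × Y) : ℝ :=
  (1 + if a.1 = a.2 then 1 else 0) / (Fintype.card Y * (Fintype.card Y + 1))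

omit [Nonempty Y] in
lemma pp_symm (i j : Y) : pp (i, j) = pp (j, i) := by simp only [pp, eq_comm]

lemma card_pos' : (0 : ℝ) < Fintype.card Y := by exact_mod_cast Fintype.card_pos

lemma pp_pos (a : Y × Y) : 0 < pp a := by
  have := card_pos' (Y := Y)
  unfold pp
  split_ifs <;> positivity

lemma pp_row (i : Y) : ∑ j, pp (i, j) = 1 / Fintype.card Y := by
  have := card_pos' (Y := Y)
  unfold pp
  rw [← Finset.sum_div]
  simp only [Finset.sum_add_distrib, Finset.sum_const, Finset.card_univ, nsmul_eq_mul, mul_one,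
    Finset.sum_ite_eq, Finset.mem_univ, if_true]
  field_simp

/-- the scheme: Bob sends a hash of `ℓ y` or of `ℓ i + ℓ j - ℓ y` -/
noncomputable def sch (ι : Y × Y → X) (ℓ : Y → F) : Sch X Y (Y × Y) Unit Unit F where
  pA := pp
  pR := fun _ => 1
  hA0 := fun a => (pp_pos a).le
  hA1 := by
    have := card_pos' (Y := Y)
    rw [Fintype.sum_prod_type]
    simp only [pp_row, Finset.sum_const, Finset.card_univ, nsmul_eq_mul]
    field_simp
  hR0 := fun _ => zero_le_one
  hR1 := by simp
  ι := ι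
  e := fun a _ => ℓ a.1 + ℓ a.2
  v := fun _ _ => ()
  l := fun z o => if z then -ℓ o.1 else ℓ o.1
  x0 := ι (Classical.arbitrary _)

variable {W : X → Y → ℝ} {ι : Y × Y → X} {ℓ : Y → F}
  (hι : ∀ a y, W (ι a) y = ((if y = a.1 then 1 else 0) + (if y = a.2 then 1 else 0)) / 2)
include hι

lemma mu_eq (z : Bool) (a : Y × Y) (v : Unit) (w : F) : (sch ι ℓ).mu W z a v w =
    ((if ℓ a.1 = w then 1 else 0) + (if ℓ a.2 = w then 1 else 0)) / 2 := by
  have e : ∀ (p : Prop) [Decidable p] (x y : ℝ), (if p then (x + y) / 2 else 0) =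
      (if p then 1 else 0) * x / 2 + (if p then 1 else 0) * y / 2 := fun p _ x y => by
    split_ifs <;> ring
  cases z
  · simp only [Sch.mu, sch, sel, Fintype.sum_prod_type, Finset.univ_unique, Finset.sum_singleton,
      hι, true_and, mul_one, Bool.false_eq_true, if_false, add_zero, e, Finset.sum_add_distrib,
      ← Finset.sum_div, mul_ite, mul_zero, Finset.sum_ite_eq', Finset.mem_univ, if_true]
    ring
  · simp only [Sch.mu, sch, sel, Fintype.sum_prod_type, Finset.univ_unique, Finset.sum_singleton,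
      hι, true_and, mul_one, if_true, e, Finset.sum_add_distrib,
      ← Finset.sum_div, mul_ite, mul_zero, Finset.sum_ite_eq', Finset.mem_univ,
      neg_add_cancel_left, neg_add_cancel_comm_assoc]
    ring

lemma mu_sum (a : Y × Y) (v : Unit) : ∑ w, (sch ι ℓ).mu W false a v w = 1 := by
  simp only [mu_eq hι, ← Finset.sum_div, Finset.sum_add_distrib, Finset.sum_ite_eq,
    Finset.mem_univ, if_true]
  norm_num

lemma P1_eq (a : Y × Y) (o : Y × Unit) : (sch ι ℓ).P1 W a o =
    (if o.1 = a.1 then pp a / 2 else 0) + (if o.1 = a.2 then pp a / 2 else 0) := by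
  simp only [Sch.P1, sch, hι]
  split_ifs <;> ring

lemma pO_eq (o : Y × Unit) : (sch ι ℓ).pO W o = 1 / Fintype.card Y := by
  simp only [Sch.pO, P1_eq hι, Finset.sum_add_distrib]
  rw [Fintype.sum_prod_type, Fintype.sum_prod_type_right]
  rw [Finset.sum_comm, Finset.sum_comm (f := fun y x => if o.1 = (x, y).2 then _ else _)]
  simp only [Finset.sum_ite_eq, Finset.mem_univ, if_true]
  rw [← Finset.sum_div, ← Finset.sum_div]
  have : ∑ i, pp (i, o.1) = ∑ i, pp (o.1, i) := Finset.sum_congr rfl fun i _ => pp_symm _ _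
  rw [this, pp_row]
  ring

lemma pE_eq (hℓ : Function.Injective ℓ) (z : Bool) (o : Y × Unit) (j : Y) :
    (sch ι ℓ).pE W z o (ℓ o.1 + ℓ j) = pp (o.1, j) := by
  have e : ∀ (p q r : Prop) [Decidable p] [Decidable q] [Decidable r] (x : ℝ),
      (if p then (if q then x else 0) + (if r then x else 0) else 0) =
      (if q then (if p then x else 0) else 0) + (if r then (if p then x else 0) else 0) :=
    fun p q r _ _ _ x => by split_ifs <;> simp
  simp only [Sch.pE, P1_eq hι, e, Finset.sum_add_distrib]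
  rw [Fintype.sum_prod_type, Fintype.sum_prod_type_right]
  simp only [Finset.sum_ite_irrel, Finset.sum_const_zero, Finset.sum_ite_eq, Finset.mem_univ,
    if_true, sch, add_right_inj, hℓ.eq_iff, add_comm _ (ℓ o.1), Finset.sum_ite_eq']
  rw [pp_symm j]
  ring

lemma point (hℓ : Function.Injective ℓ) (z z' : Bool) (a : Y × Y) (o : Y × Unit) :
    (sch ι ℓ).P1 W a o * (sch ι ℓ).LE W z a o - (sch ι ℓ).P1 W a o * (sch ι ℓ).LW W z' a o =
      (sch ι ℓ).P1 W a o * Real.log ((Fintype.card Y + 1) / 2) := by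
  obtain ⟨i, j⟩ := a
  by_cases h : o.1 = i ∨ o.1 = j
  swap
  · rw [not_or] at h
    simp [P1_eq hι, h.1, h.2]
  have hd := card_pos' (Y := Y)
  have e1 : (sch ι ℓ).pE W z o ((sch ι ℓ).e (i, j) ((sch ι ℓ).v z o)) = pp (i, j) := by
    change (sch ι ℓ).pE W z o (ℓ i + ℓ j) = _
    rcases h with rfl | rfl
    · exact pE_eq hι hℓ z o j
    · rw [add_comm, pE_eq hι hℓ, pp_symm]
  have e2 : (sch ι ℓ).mu W false (i, j) ((sch ι ℓ).v z' o)
      ((sch ι ℓ).l z' o + sel z' ((sch ι ℓ).e (i, j) ((sch ι ℓ).v z' o))) =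
      (1 + if i = j then 1 else 0) / 2 := by
    rw [mu_eq hι]
    cases z' <;> rcases h with rfl | rfl <;> simp [sch, sel, hℓ.eq_iff, add_comm, eq_comm]
  rw [← mul_sub, Sch.LE, Sch.LW, e1, e2, pO_eq hι, mu_sum hι, div_one]
  congr 1
  have hp : (0 : ℝ) < 1 + if i = j then 1 else 0 := by split_ifs <;> norm_num
  have e3 : pp (i, j) / (1 / Fintype.card Y) =
      (1 + if i = j then 1 else 0) / (Fintype.card Y + 1) := by
    unfold pp
    field_simp
  rw [e3, Real.log_div hp.ne' (by positivity), Real.log_div hp.ne' two_ne_zero,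
    Real.log_div (by positivity) two_ne_zero]
  ring

omit hι in
/-- The matching lower bound. -/
theorem lower (hW0 : ∀ x y, 0 ≤ W x y) (hW1 : ∀ x, ∑ y, W x y = 1)
    (h : ∀ i j : Y, ∃ x, ∀ y, W x y = ((if y = i then 1 else 0) + (if y = j then 1 else 0)) / 2) :
    Real.logb 2 ((Fintype.card Y + 1) / 2) ≤ otCapacity W := by
  choose ι0 hι0 using h
  obtain ⟨p, hp, hpr⟩ := Nat.exists_infinite_primes (Fintype.card Y)
  have : Fact p.Prime := ⟨hpr⟩
  obtain ⟨ℓ⟩ : Nonempty (Y ↪ ZMod p) :=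
    Function.Embedding.nonempty_of_card_le (by rwa [ZMod.card])
  have hι : ∀ (a : Y × Y) y, W (ι0 a.1 a.2) y =
      ((if y = a.1 then 1 else 0) + (if y = a.2 then 1 else 0)) / 2 := fun a y => hι0 _ _ y
  refine (sch (fun a : Y × Y => ι0 a.1 a.2) ℓ).le_otCapacity W hW0 hW1 ?_ fun z z' => ?_
  · funext a v w
    rw [mu_eq hι, mu_eq hι]
  · rw [Real.logb, div_mul_cancel₀ _ (Real.log_pos one_lt_two).ne', Sch.HE, Sch.HW,
      ← Finset.sum_sub_distrib]
    simp only [← Finset.sum_sub_distrib, point hι ℓ.injective, ← Finset.sum_mul]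
    rw [Sch.P1_sum _ W hW1, one_mul]

end Pool.Agent.Lib.MP_426fec_lc.Ext
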