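import Pool.Agent.Lib.MP_426fec_lc.Achieve4

/-! Sampling a string bit by bit from rounded posteriors. -/

set_option autoImplicit false

namespace Pool.Agent.Lib.MP_426fec_lc.Gen

open Finset

variable {U : Type} [Fintype U] {r m : ℕ}

/-- The first j bits of a string. -/
def tr (j : ℕ) (t : Key m) : Key m := fun i => if i.val < j then t i else 0

/-- Setting bit number j. -/
def setb (j : ℕ) (b : ZMod 2) (t : Key m) : Key m := fun i => if i.val = j then b else t i

/-- Entry number j, zero if out of range. -/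
def at0 {α : Type} [Zero α] (t : Fin m → α) (j : ℕ) : α := if h : j < m then t ⟨j, h⟩ else 0

lemma tr_zero (t : Key m) : tr 0 t = 0 := by funext i; simp [tr]

lemma tr_full (t : Key m) : tr m t = t := by funext i; simp [tr]

lemma tr_succ (j : ℕ) (t : Key m) : tr (j + 1) t = setb j (at0 t j) (tr j t) := by
  funext i
  by_cases h : i.val = j
  · subst h; simp [tr, setb, at0]
  · have : i.val < j + 1 ↔ i.val < j := by omega
    simp [tr, setb, h, this]

/-- The hash functions. -/
abbrev Hs (U : Type) (r m : ℕ) : Type := U → Key r × Key m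

/-- The weight of the points with a given beginning of the hash value. -/
noncomputable def ms (w : U → ℝ) (h : Hs U r m) (σ : Key r) (j : ℕ) (t : Key m) : ℝ :=
  ∑ u, if (h u).1 = σ ∧ tr j (h u).2 = t then w u else 0

/-- The rounded posterior probability of the next bit. -/
noncomputable def ann (M : ℕ) (w : U → ℝ) (h : Hs U r m) (σ : Key r) (j : ℕ) (t : Key m) :
    Fin (M + 1) :=
  ⟨min ⌊M * ms w h σ (j + 1) (setb j 1 t) / ms w h σ j t⌋₊ M, by omega⟩

/-- The sampled bit. -/
def bit {M : ℕ} (ν : Fin (M + 2)) (a : Fin (M + 1)) : ZMod 2 := if ν.val ≤ a.val then 1 else 0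

/-- The sampled string after j steps. -/
noncomputable def fk (M : ℕ) (w : U → ℝ) (h : Hs U r m) (σ : Key r) (ν : Fin m → Fin (M + 2)) :
    ℕ → Key m
  | 0 => 0
  | j + 1 => setb j (bit (at0 ν j) (ann M w h σ j (fk M w h σ ν j))) (fk M w h σ ν j)

variable {M : ℕ} {w : U → ℝ} (h : Hs U r m) (σ : Key r)

lemma fk_high (ν : Fin m → Fin (M + 2)) (i : Fin m) :
    ∀ j, j ≤ i.val → fk M w h σ ν j i = 0
  | 0, _ => rfl
  | j + 1, hj => by
    rw [fk, setb, if_neg (by omega)]
    exact fk_high ν i j (by omega)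

lemma fk_low (ν : Fin m → Fin (M + 2)) (i : Fin m) :
    ∀ j, fk M w h σ ν (i.val + 1 + j) i = fk M w h σ ν (i.val + 1) i
  | 0 => rfl
  | j + 1 => by
    rw [← add_assoc, fk, setb, if_neg (by omega)]
    exact fk_low ν i j

lemma fk_eq_tr (ν : Fin m → Fin (M + 2)) (j : ℕ) :
    fk M w h σ ν j = tr j (fk M w h σ ν m) := by
  funext i
  unfold tr
  split_ifs with hj
  · have a := fk_low (w := w) h σ ν i (j - (i.val + 1))
    have b := fk_low (w := w) h σ ν i (m - (i.val + 1))
    rw [show i.val + 1 + (j - (i.val + 1)) = j by omega] at a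
    rw [show i.val + 1 + (m - (i.val + 1)) = m by omega] at b
    rw [a, b]
  · exact fk_high h σ ν i j (by omega)

lemma fk_of_bits (ν : Fin m → Fin (M + 2)) (s : Key m)
    (hν : ∀ i : Fin m, bit (ν i) (ann M w h σ i (tr i s)) = s i) :
    ∀ j, j ≤ m → fk M w h σ ν j = tr j s
  | 0, _ => (tr_zero s).symm
  | j + 1, hj => by
    have := hν ⟨j, hj⟩
    rw [fk, fk_of_bits ν s hν j (by omega), tr_succ]
    simp only [at0, dif_pos (show j < m from hj)]
    rw [← this]

lemma ms_nonneg (hw : ∀ u, 0 ≤ w u) (j : ℕ) (t : Key m) : 0 ≤ ms w h σ j t :=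
  Finset.sum_nonneg fun u _ => ite_nonneg (hw u) le_rfl

lemma ms_split (hw : ∀ u, 0 ≤ w u) {j : ℕ} (hj : j < m) (s : Key m) :
    ms w h σ (j + 1) (setb j 0 (tr j s)) + ms w h σ (j + 1) (setb j 1 (tr j s)) ≤
      ms w h σ j (tr j s) := by
  unfold ms
  rw [← Finset.sum_add_distrib]
  refine Finset.sum_le_sum fun u _ => ?_
  have key : ∀ b, tr (j + 1) (h u).2 = setb j b (tr j s) → tr j (h u).2 = tr j s := by
    intro b hb
    funext i
    have := congrFun hb i
    by_cases hi : i.val < j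
    · simpa [tr, setb, hi, hi.ne, show i.val < j + 1 by omega] using this
    · simp [tr, hi]
  have := hw u
  by_cases h0 : (h u).1 = σ ∧ tr (j + 1) (h u).2 = setb j 0 (tr j s)
  · have h1 : ¬ ((h u).1 = σ ∧ tr (j + 1) (h u).2 = setb j 1 (tr j s)) := fun h1 => by
      have := congrFun (h0.2.symm.trans h1.2) ⟨j, hj⟩
      simp [setb] at this
    rw [if_pos h0, if_neg h1, if_pos ⟨h0.1, key _ h0.2⟩, add_zero]
  · rw [if_neg h0, zero_add]
    by_cases h1 : (h u).1 = σ ∧ tr (j + 1) (h u).2 = setb j 1 (tr j s)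
    · rw [if_pos h1, if_pos ⟨h1.1, key _ h1.2⟩]
    · rw [if_neg h1]; exact ite_nonneg this le_rfl

lemma card_bit (a : Fin (M + 1)) (b : ZMod 2) :
    ∑ ν : Fin (M + 2), (if bit ν a = b then (1 : ℝ) else 0) =
      if b = 1 then (a.val : ℝ) + 1 else M + 1 - a.val := by
  have h1 : ∑ ν : Fin (M + 2), (if ν.val ≤ a.val then (1 : ℝ) else 0) = a.val + 1 := by
    rw [Fin.sum_univ_eq_sum_range (fun i => if i ≤ a.val then (1 : ℝ) else 0), ← Finset.sum_filter]
    have : (range (M + 2)).filter (fun i => i ≤ a.val) = range (a.val + 1) := by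
      ext i; simp; omega
    simp [this]
  have h01 : b = 0 ∨ b = 1 := by revert b; decide
  rcases h01 with rfl | rfl
  · rw [if_neg (by decide)]
    have h2 : ∑ ν : Fin (M + 2), ((if bit ν a = 0 then (1 : ℝ) else 0) +
        if ν.val ≤ a.val then (1 : ℝ) else 0) = M + 2 := by
      rw [Finset.sum_congr rfl (g := fun _ => 1) fun ν _ => by
        unfold bit; by_cases hh : ν.val ≤ a.val <;> simp [hh]]
      simp
    rw [Finset.sum_add_distrib, h1] at h2
    linarith
  · rw [if_pos rfl, ← h1]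
    refine Finset.sum_congr rfl fun ν _ => ?_
    unfold bit; by_cases hh : ν.val ≤ a.val <;> simp [hh]

lemma step (hw : ∀ u, 0 ≤ w u) {j : ℕ} (hj : j < m) (s : Key m) :
    M * ms w h σ (j + 1) (tr (j + 1) s) ≤
      (∑ ν : Fin (M + 2), if bit ν (ann M w h σ j (tr j s)) = at0 s j then (1 : ℝ) else 0) *
        ms w h σ j (tr j s) := by
  have hs := ms_split h σ hw hj s
  have n0 := ms_nonneg h σ hw (j + 1) (setb j 0 (tr j s))
  have n1 := ms_nonneg h σ hw (j + 1) (setb j 1 (tr j s))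
  have hM : (0 : ℝ) ≤ M := Nat.cast_nonneg _
  rw [card_bit, tr_succ]
  obtain ⟨c, hc⟩ : ∃ c, c = ms w h σ j (tr j s) := ⟨_, rfl⟩
  obtain ⟨c1, hc1⟩ : ∃ c, c = ms w h σ (j + 1) (setb j 1 (tr j s)) := ⟨_, rfl⟩
  have ha : ((ann M w h σ j (tr j s)).val : ℝ) = (min ⌊M * c1 / c⌋₊ M : ℕ) := by
    rw [hc, hc1]; rfl
  rw [ha, ← hc]
  rw [← hc, ← hc1] at hs
  rw [← hc1] at n1
  rcases (show 0 ≤ c by linarith).eq_or_lt with h0 | h0
  · have h01 : at0 s j = 0 ∨ at0 s j = 1 := by generalize at0 s j = b; revert b; decide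
    rw [← h0, mul_zero]
    rcases h01 with e | e <;> rw [e] <;> nlinarith
  have hle : (M : ℝ) * c1 / c ≤ M := by rw [div_le_iff₀ h0]; gcongr; linarith
  rw [min_eq_left (Nat.floor_le_of_le hle)]
  have f1 : (⌊M * c1 / c⌋₊ : ℝ) * c ≤ M * c1 := by
    rw [← le_div_iff₀ h0]; exact Nat.floor_le (by positivity)
  have f2 : M * c1 ≤ ((⌊M * c1 / c⌋₊ : ℝ) + 1) * c := by
    rw [← div_le_iff₀ h0]; exact (Nat.lt_floor_add_one _).le
  split_ifs with e
  · rw [e, ← hc1]; exact f2
  · have e0 : at0 s j = 0 := by revert e; generalize at0 s j = b; revert b; decide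
    rw [e0]
    nlinarith

/-- The randomness of the sampler. -/
abbrev Cn (r m M : ℕ) : Type := Key r × (Fin m → Fin (M + 2))

/-- The sampled hash value. -/
noncomputable def fs (M : ℕ) (w : U → ℝ) (h : Hs U r m) (c : Cn r m M) : Key r × Key m :=
  (c.1, fk M w h c.1 c.2 m)

/-- The uniform weight. -/
noncomputable def un (T : Type) [Fintype T] : ℝ := 1 / Fintype.card T

/-- The law of the sampled hash value. -/
noncomputable def Q (M : ℕ) (w : U → ℝ) (h : Hs U r m) (s : Key r × Key m) : ℝ :=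
  mass (fun _ : Cn r m M => un (Cn r m M)) (fs M w h) s

lemma un_pos (T : Type) [Fintype T] [Nonempty T] : 0 < un T := by unfold un; positivity

lemma sum_un (T : Type) [Fintype T] [Nonempty T] : ∑ _t : T, un T = 1 := by
  rw [Finset.sum_const, Finset.card_univ, nsmul_eq_mul, un, mul_one_div_cancel (by positivity)]

lemma sum_mass {Ω α : Type} [Fintype Ω] [Fintype α] (P : Ω → ℝ) (f : Ω → α) (φ : α → ℝ) :
    ∑ a, mass P f a * φ a = ∑ ω, P ω * φ (f ω) := by
  classical
  simp only [mass_eq, Finset.sum_mul]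
  rw [Finset.sum_comm]
  refine Finset.sum_congr rfl fun ω _ => ?_
  simp

theorem Q_ge (hw : ∀ u, 0 ≤ w u) (s : Key r × Key m) :
    ((M : ℝ) / (M + 2)) ^ m * mass w h s ≤
      2 ^ r * Q M w h s * mass w (fun u => (h u).1) s.1 := by
  classical
  let c : ℕ → ℝ := fun j =>
    ∑ ν : Fin (M + 2), if bit ν (ann M w h s.1 j (tr j s.2)) = at0 s.2 j then (1 : ℝ) else 0
  have c0 : ∀ j, 0 ≤ c j := fun j => Finset.sum_nonneg fun _ _ => by split_ifs <;> norm_num
  have h1 : ∀ j, j ≤ m → (M : ℝ) ^ j * ms w h s.1 j (tr j s.2) ≤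
      (∏ i ∈ range j, c i) * ms w h s.1 0 (tr 0 s.2) := by
    intro j
    induction j with
    | zero => intro _; simp
    | succ j ih =>
      intro hj
      have a := step (M := M) h s.1 hw hj s.2
      rw [Finset.prod_range_succ, pow_succ, mul_assoc]
      calc _ ≤ (M : ℝ) ^ j * (c j * ms w h s.1 j (tr j s.2)) := by gcongr
        _ = c j * ((M : ℝ) ^ j * ms w h s.1 j (tr j s.2)) := by ring
        _ ≤ c j * _ := mul_le_mul_of_nonneg_left (ih (by omega)) (c0 j)
        _ = _ := by ring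
  have h2 := h1 m le_rfl
  have e1 : ms w h s.1 m (tr m s.2) = mass w h s := by
    simp only [ms, mass_eq, tr_full, Prod.ext_iff]
  have e2 : ms w h s.1 0 (tr 0 s.2) = mass w (fun u => (h u).1) s.1 := by
    simp only [ms, mass_eq, tr_zero, and_true]
  have h3 : ∏ i ∈ range m, c i ≤ 2 ^ r * (M + 2) ^ m * Q M w h s := by
    rw [← Fin.prod_univ_eq_prod_range, ← sum_pi_prod, Q, mass_eq, Fintype.sum_prod_type,
      Finset.mul_sum]
    refine le_trans ?_ (Finset.single_le_sum (fun σ _ => mul_nonneg (by positivity)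
      (Finset.sum_nonneg fun _ _ => ite_nonneg (un_pos _).le le_rfl)) (Finset.mem_univ s.1))
    rw [Finset.mul_sum]
    refine Finset.sum_le_sum fun ν _ => ?_
    by_cases hν : ∀ i : Fin m, bit (ν i) (ann M w h s.1 i (tr i s.2)) = at0 s.2 i
    · have := fk_of_bits h s.1 ν s.2 (fun i => by simpa [at0] using hν i) m le_rfl
      rw [if_pos (by rw [fs, this, tr_full])]
      simp only [hν, if_true, Finset.prod_const_one, un, Fintype.card_prod, ZMod.card,
        Fintype.card_fun, Fintype.card_fin]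
      push_cast
      rw [mul_one_div_cancel (by positivity)]
    · obtain ⟨i, hi⟩ := not_forall.1 hν
      rw [Finset.prod_eq_zero (Finset.mem_univ i) (if_neg hi)]
      exact mul_nonneg (by positivity) (ite_nonneg (un_pos _).le le_rfl)
  rw [e1, e2] at h2
  rw [div_pow, div_mul_eq_mul_div, div_le_iff₀ (by positivity)]
  refine h2.trans ((mul_le_mul_of_nonneg_right h3 (mass_nonneg hw _ _)).trans (le_of_eq ?_))
  ring

end Pool.Agent.Lib.MP_426fec_lc.Gen
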