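import Pool.Agent.Lib.MP_426fec_lc.Gen1

/-! The sampled hash value is close to the true one; decoding. -/

set_option autoImplicit false

namespace Pool.Agent.Lib.MP_426fec_lc.Gen

open Finset

variable {U : Type} [Fintype U] [DecidableEq U] {r m M : ℕ} {w : U → ℝ}

lemma avg_fun {T T' : Type} [AddCommGroup T] [AddCommGroup T'] [Fintype T] [Fintype T']
    [DecidableEq T'] (φ : T →+ T') (hφ : Function.Surjective φ) {u u' : U} (hne : u' ≠ u) :
    ∑ h : U → T, (if φ (h u') = φ (h u) then un (U → T) else 0) = un T' := by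
  have := avg_ker (G := U → T) (T := T')
    ⟨⟨fun h => φ (h u') - φ (h u), by simp⟩, fun g g' => by simp; abel⟩
    (fun c => by
      obtain ⟨t, ht⟩ := hφ c
      exact ⟨fun x => if x = u' then t else 0, by simp [hne.symm, ht]⟩)
  simpa [sub_eq_zero, un] using this

lemma avg_mass {T T' Ω : Type} [AddCommGroup T] [AddCommGroup T'] [Fintype T] [Fintype T']
    [Fintype Ω] (φ : T →+ T') (hφ : Function.Surjective φ) {v : Ω → ℝ} (hv : ∀ x, 0 ≤ v x)
    (f : Ω → U) (u : U) :
    ∑ h : U → T, un (U → T) * mass v (fun x => φ (h (f x))) (φ (h u)) ≤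
      mass v f u + un T' * ∑ x, v x := by
  classical
  simp only [mass_eq, Finset.mul_sum]
  rw [Finset.sum_comm, ← Finset.sum_add_distrib]
  refine Finset.sum_le_sum fun x _ => ?_
  have h0 := mul_nonneg (un_pos T').le (hv x)
  by_cases h : f x = u
  · simp only [h, if_true]
    rw [← Finset.sum_mul, sum_un, one_mul]
    linarith
  · rw [if_neg h, zero_add, ← avg_fun φ hφ h, Finset.sum_mul]
    refine Finset.sum_le_sum fun g _ => le_of_eq ?_
    split_ifs <;> simp

omit [DecidableEq U] in
lemma mass_id (w : U → ℝ) (u : U) : mass w (fun x => x) u = w u := by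
  classical
  simp [mass_eq]

lemma un_key (k : ℕ) : un (Key k) = 1 / 2 ^ k := by simp [un]

lemma avg_log (hw : ∀ u, 0 ≤ w u) (h1 : ∑ u, w u = 1) {u : U} (hu : w u ≠ 0) :
    ∑ h : Hs U r m, un (Hs U r m) * Real.log (2 ^ r * mass w (fun x => (h x).1) (h u).1) ≤
      Real.log (1 + 2 ^ r * w u) := by
  have hp : 0 < 1 + 2 ^ r * w u := by have := hw u; positivity
  have hm : ∀ h : Hs U r m, 0 < mass w (fun x => (h x).1) (h u).1 := fun h =>
    mass_pos hw (fun x => (h x).1) hu
  have j := jensen (P := fun _ : Hs U r m => un (Hs U r m)) (fun _ => (un_pos _).le) (sum_un _)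
    (fun h => 2 ^ r * mass w (fun x => (h x).1) (h u).1 / (1 + 2 ^ r * w u))
    (fun h _ => by have := hm h; positivity) (by
      have a := avg_mass (AddMonoidHom.fst (Key r) (Key m)) Prod.fst_surjective hw (fun x => x) u
      rw [mass_id, h1, un_key, ← Finset.mul_sum] at a
      simp only [← mul_div_assoc, mul_left_comm (un _), ← Finset.sum_div, ← Finset.mul_sum]
      rw [div_le_one hp]
      refine (mul_le_mul_of_nonneg_left a (show (0 : ℝ) ≤ 2 ^ r by positivity)).trans
        (le_of_eq ?_)
      field_simp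
      ring)
  rw [Finset.sum_congr rfl fun h _ => by
    rw [Real.log_div (by have := hm h; positivity) hp.ne', mul_sub], Finset.sum_sub_distrib,
    ← Finset.sum_mul, sum_un] at j
  linarith

omit [DecidableEq U] in
lemma Q_pos (hM : 0 < M) (hw : ∀ u, 0 ≤ w u) (h : Hs U r m) {s : Key r × Key m}
    (hs : mass w h s ≠ 0) : 0 < Q M w h s := by
  have a := Q_ge (M := M) h hw s
  have b : 0 < mass w h s := lt_of_le_of_ne (mass_nonneg hw _ _) hs.symm
  have c : 0 ≤ Q M w h s := mass_nonneg (fun _ => (un_pos _).le) _ _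
  refine lt_of_le_of_ne c fun e => ?_
  rw [← e, mul_zero, zero_mul] at a
  exact absurd a (not_le.2 (by positivity))

/-- The divergence of the true hash value from the sampled one. -/
noncomputable def kl (M : ℕ) (w : U → ℝ) (h : Hs U r m) : ℝ :=
  ∑ u, w u * Real.log (mass w h (h u) / Q M w h (h u))

omit [DecidableEq U] in
lemma kl_le (hM : 0 < M) (hw : ∀ u, 0 ≤ w u) (h1 : ∑ u, w u = 1) (h : Hs U r m) :
    kl M w h ≤ m * (2 / M) +
      ∑ u, w u * Real.log (2 ^ r * mass w (fun x => (h x).1) (h u).1) := by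
  have hM' : (0 : ℝ) < M := by exact_mod_cast hM
  rw [← one_mul (m * (2 / M : ℝ)), ← h1, Finset.sum_mul, ← Finset.sum_add_distrib]
  refine Finset.sum_le_sum fun u _ => ?_
  by_cases hu : w u = 0
  · simp [hu]
  rw [← mul_add]
  refine mul_le_mul_of_nonneg_left ?_ (hw u)
  have a := Q_ge (M := M) h hw (h u)
  have b := mass_pos hw h hu
  have c := Q_pos hM hw h b.ne'
  have d := mass_pos hw (fun x => (h x).1) hu
  have e : mass w h (h u) / Q M w h (h u) ≤
      (1 + 2 / M) ^ m * (2 ^ r * mass w (fun x => (h x).1) (h u).1) := by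
    rw [div_le_iff₀ c, show (1 + 2 / M : ℝ) = ((M : ℝ) / (M + 2))⁻¹ by field_simp, inv_pow,
      mul_assoc, le_inv_mul_iff₀ (by positivity)]
    linarith
  refine (Real.log_le_log (by positivity) e).trans ?_
  rw [Real.log_mul (by positivity) (by positivity), Real.log_pow]
  have := Real.log_le_sub_one_of_pos (show (0 : ℝ) < 1 + 2 / M by positivity)
  gcongr
  linarith

lemma pinsker {S : Type} [Fintype S] {P R : S → ℝ} (hP : ∀ s, 0 ≤ P s) (hR : ∀ s, 0 ≤ R s)
    (h1 : ∑ s, P s = 1) (h2 : ∑ s, R s = 1) (hp : ∀ s, P s ≠ 0 → 0 < R s) {γ : ℝ} (hγ : 0 < γ)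
    (E : S → Prop) [DecidablePred E] :
    ∑ s, (if E s then P s - R s else 0) ≤ γ + (∑ s, P s * Real.log (P s / R s)) / γ := by
  have : γ + (∑ s, P s * Real.log (P s / R s)) / γ =
      ∑ s, (P s * γ + (P s * Real.log (P s / R s) + R s - P s) / γ) := by
    rw [Finset.sum_add_distrib, ← Finset.sum_mul, ← Finset.sum_div, Finset.sum_sub_distrib,
      Finset.sum_add_distrib, h1, h2]
    ring
  rw [this]
  refine Finset.sum_le_sum fun s _ => ?_
  by_cases h : P s = 0
  · have := hR s
    simp only [h, zero_mul, zero_add, sub_zero, zero_sub]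
    split_ifs
    · exact le_trans (by linarith) (div_nonneg this hγ.le)
    · positivity
  have a : 0 < P s := lt_of_le_of_ne (hP s) (Ne.symm h)
  have b := hp s h
  obtain ⟨x, hx0, hx⟩ : ∃ x : ℝ, 0 < x ∧ x ^ 2 = R s / P s :=
    ⟨√(R s / P s), by positivity, Real.sq_sqrt (by positivity)⟩
  have e1 : R s = P s * x ^ 2 := by rw [hx]; field_simp
  have e2 : Real.log (P s / R s) = -(2 * Real.log x) := by
    rw [← inv_div, ← hx, Real.log_inv, Real.log_pow]; norm_num
  have l := Real.log_le_sub_one_of_pos hx0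
  have k1 : P s * (1 - x) ^ 2 / γ ≤ (P s * Real.log (P s / R s) + R s - P s) / γ := by
    rw [e2, e1]; gcongr; nlinarith
  have k2 : 2 * (1 - x) ≤ γ + (1 - x) ^ 2 / γ := by
    rw [← sub_le_iff_le_add', le_div_iff₀ hγ]; nlinarith [sq_nonneg (1 - x - γ)]
  have k3 := mul_le_mul_of_nonneg_left k2 a.le
  have k4 : 0 ≤ P s * (1 - x) ^ 2 / γ := by positivity
  rw [mul_add, ← mul_div_assoc] at k3
  split_ifs
  · rw [e1] at k1 ⊢; nlinarith [mul_nonneg a.le (sq_nonneg (1 - x))]
  · have := mul_pos a hγ; linarith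

omit [DecidableEq U] in
lemma exists_dec [Nonempty U] (w : U → ℝ) (h : Hs U r m) (s : Key r × Key m) :
    ∃ d : U, ∀ u, h u = s → h d = s ∧ w u ≤ w d := by
  by_cases hne : (univ.filter fun u => h u = s).Nonempty
  · obtain ⟨d, hd, hm⟩ := Finset.exists_max_image _ w hne
    exact ⟨d, fun u hu => ⟨by simpa using hd, hm u (by simpa using hu)⟩⟩
  · exact ⟨Classical.arbitrary U, fun u hu => absurd ⟨u, by simpa using hu⟩ hne⟩

variable [Nonempty U]

/-- The maximum likelihood decoder. -/
noncomputable def dec (w : U → ℝ) (h : Hs U r m) (s : Key r × Key m) : U :=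
  (exists_dec w h s).choose

/-- The probability of a decoding error. -/
noncomputable def err (w : U → ℝ) (h : Hs U r m) : ℝ :=
  ∑ u, w u * if dec w h (h u) ≠ u then 1 else 0

lemma avg_err (hw : ∀ u, 0 ≤ w u) (h1 : ∑ u, w u = 1) {u : U} (hu : w u ≠ 0) :
    ∑ h : Hs U r m, un (Hs U r m) * (if dec w h (h u) ≠ u then 1 else 0) ≤
      1 / (2 ^ r * 2 ^ m) / w u := by
  have hp : 0 < w u := lt_of_le_of_ne (hw u) (Ne.symm hu)
  have a := avg_mass (AddMonoidHom.id (Key r × Key m)) Function.surjective_id hw (fun x => x) u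
  rw [mass_id, h1] at a
  have b : ∀ h : Hs U r m, (if dec w h (h u) ≠ u then 1 else 0) * w u ≤ mass w h (h u) - w u := by
    intro h
    split_ifs with e
    · obtain ⟨e1, e2⟩ := (exists_dec w h (h u)).choose_spec u rfl
      have := Finset.sum_le_sum_of_subset_of_nonneg (f := fun x => if h x = h u then w x else 0)
        (Finset.subset_univ {dec w h (h u), u}) fun x _ _ => ite_nonneg (hw x) le_rfl
      rw [Finset.sum_pair e, if_pos (show h (dec w h (h u)) = h u from e1), if_pos rfl,
        ← mass_eq] at this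
      have e3 : w u ≤ w (dec w h (h u)) := e2
      linarith
    · have := le_mass hw h u
      linarith
  rw [le_div_iff₀ hp, Finset.sum_mul]
  calc _ ≤ ∑ h : Hs U r m, un (Hs U r m) * (mass w h (h u) - w u) :=
        Finset.sum_le_sum fun h _ => by
          rw [mul_assoc]; exact mul_le_mul_of_nonneg_left (b h) (un_pos _).le
    _ ≤ _ := by
        simp only [mul_sub, Finset.sum_sub_distrib, ← Finset.sum_mul, sum_un]
        have : un (Key r × Key m) = 1 / (2 ^ r * 2 ^ m) := by simp [un]
        rw [this] at a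
        simp only [AddMonoidHom.id_apply] at a
        linarith

/-- The weight of the decoded point. -/
noncomputable def pd (w : U → ℝ) (h : Hs U r m) (s : Key r × Key m) : ℝ :=
  if h (dec w h s) = s then w (dec w h s) else 0

/-- The sampled hash value is not much more likely than the decoded point. -/
def Good (M : ℕ) (w : U → ℝ) (h : Hs U r m) (s : Key r × Key m) : Prop :=
  Q M w h s ≤ 2 * pd w h s

omit [DecidableEq U] in
lemma pd_le (hw : ∀ u, 0 ≤ w u) (h : Hs U r m) {φ : U → ℝ} (hφ : ∀ u, 0 ≤ φ u)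
    (s : Key r × Key m) : pd w h s * φ (dec w h s) ≤ ∑ u, if h u = s then w u * φ u else 0 := by
  refine le_trans (le_of_eq ?_) (Finset.single_le_sum
    (f := fun u => if h u = s then w u * φ u else 0)
    (fun u _ => ite_nonneg (mul_nonneg (hw u) (hφ u)) le_rfl) (Finset.mem_univ (dec w h s)))
  simp [pd]

open Classical in
lemma bad_le (hM : 0 < M) (hw : ∀ u, 0 ≤ w u) (h1 : ∑ u, w u = 1) (h : Hs U r m) {γ : ℝ}
    (hγ : 0 < γ) : ∑ c : Cn r m M, un (Cn r m M) * (if Good M w h (fs M w h c) then 0 else 1) ≤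
      2 * (γ + kl M w h / γ + err w h) := by
  have hQ0 : ∀ s, 0 ≤ Q M w h s := fun s => mass_nonneg (fun _ => (un_pos _).le) _ _
  have hQ1 : ∑ s, Q M w h s = 1 := by
    have := sum_mass (fun _ : Cn r m M => un (Cn r m M)) (fs M w h) fun _ => 1
    simpa only [mul_one, sum_un, Q] using this
  have hP1 : ∑ s, mass w h s = 1 := by simpa only [mul_one, h1] using sum_mass w h fun _ => 1
  have a := pinsker (mass_nonneg hw h) hQ0 hP1 hQ1 (fun s => Q_pos hM hw h) hγ (Good M w h)
  rw [sum_mass w h fun s => Real.log (mass w h s / Q M w h s)] at a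
  have b : 1 - err w h ≤ ∑ s, pd w h s := by
    rw [← h1, err, ← Finset.sum_sub_distrib]
    calc _ = ∑ u, ∑ s, if h u = s then (if dec w h s = u then w u else 0) else 0 := by
          refine Finset.sum_congr rfl fun u _ => ?_
          by_cases e : dec w h (h u) = u <;> simp [e]
      _ ≤ _ := by
          rw [Finset.sum_comm]
          refine Finset.sum_le_sum fun s _ => ?_
          rw [Finset.sum_eq_single (dec w h s) (fun u _ hu => by simp [hu.symm]) (by simp)]
          simp [pd]
  rw [← sum_mass (fun _ : Cn r m M => un (Cn r m M)) (fs M w h)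
    fun s => if Good M w h s then 0 else 1]
  have c : ∀ s, Q M w h s * (if Good M w h s then 0 else 1) ≤
      2 * (Q M w h s - pd w h s + if Good M w h s then mass w h s - Q M w h s else 0) := by
    intro s
    split_ifs with e
    · have := pd_le hw h (φ := fun _ => 1) (fun _ => zero_le_one) s
      simp only [mul_one, ← mass_eq] at this
      linarith
    · have := not_le.1 e
      linarith
  refine (Finset.sum_le_sum fun s _ => c s).trans ?_
  rw [← Finset.mul_sum, Finset.sum_add_distrib, Finset.sum_sub_distrib, hQ1]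
  unfold kl
  linarith

omit [DecidableEq U] in
open Classical in
lemma good_le (hw : ∀ u, 0 ≤ w u) (h : Hs U r m) {φ : U → ℝ} (hφ : ∀ u, 0 ≤ φ u) :
    ∑ c : Cn r m M, un (Cn r m M) *
      (if Good M w h (fs M w h c) then φ (dec w h (fs M w h c)) else 0) ≤
      2 * ∑ u, w u * φ u := by
  rw [← sum_mass (fun _ : Cn r m M => un (Cn r m M)) (fs M w h)
    fun s => if Good M w h s then φ (dec w h s) else 0]
  calc _ ≤ ∑ s, 2 * ∑ u, if h u = s then w u * φ u else 0 := by
        refine Finset.sum_le_sum fun s _ => ?_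
        have a := pd_le hw h hφ s
        split_ifs with e
        · have := mul_le_mul_of_nonneg_right e (hφ (dec w h s))
          unfold Q at this
          linarith
        · rw [mul_zero]
          exact mul_nonneg zero_le_two (Finset.sum_nonneg fun u _ =>
            ite_nonneg (mul_nonneg (hw u) (hφ u)) le_rfl)
    _ = _ := by
        rw [← Finset.mul_sum, Finset.sum_comm]
        simp

end Pool.Agent.Lib.MP_426fec_lc.Gen
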