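import Pool.Agent.Lib.MP_426fec_lc.Gen2

/-! Privacy amplification in the presence of a short side information. -/

set_option autoImplicit false

namespace Pool.Agent.Lib.MP_426fec_lc.Gen

open Finset

/-- Two keys and a hash function. -/
abbrev Tk (U : Type) (k : ℕ) : Type := Key k × Key k × (U → Key k)

variable {B X A U : Type} [Fintype B] [Fintype X] [Fintype A] [Fintype U] [DecidableEq U]
  [DecidableEq A] {k : ℕ}

lemma sum_Tk (φ : (U → Key k) → ℝ) :
    ∑ t : Tk U k, un (Tk U k) * φ t.2.2 = ∑ g, un (U → Key k) * φ g := by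
  simp only [Fintype.sum_prod_type, Finset.sum_const, Finset.card_univ, nsmul_eq_mul, un,
    Fintype.card_prod, Finset.mul_sum]
  refine Finset.sum_congr rfl fun g _ => ?_
  push_cast
  field_simp

theorem amplify {π : B × X → ℝ} (h0 : ∀ y, 0 ≤ π y) (h1 : ∑ y, π y = 1) (al : B × X → A)
    (u u0 : B × X → U) (β : B × X → ℝ) (hβ0 : ∀ y, 0 ≤ β y)
    (hβ : ∀ y : B × X, ∑ x, (if al (y.1, x) = al y ∧ u (y.1, x) = u y then π (y.1, x) else 0) ≤
      β y * ∑ x, π (y.1, x)) {l : ℝ} (hl : 0 < l) {V : Type} (f : Tk U k × (B × X) → V)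
    (hf : ∀ ω ω' : Tk U k × (B × X), ω.2.1 = ω'.2.1 → al ω.2 = al ω'.2 → ω.1.2.2 = ω'.1.2.2 →
      ω.1.1 + ω.1.2.2 (u0 ω.2) = ω'.1.1 + ω'.1.2.2 (u0 ω'.2) →
      ω.1.2.1 + ω.1.2.2 (u ω.2) = ω'.1.2.1 + ω'.1.2.2 (u ω'.2) → f ω = f ω') :
    mi (fun ω : Tk U k × (B × X) => un (Tk U k) * π ω.2) f (fun ω => ω.1.2.1) * Real.log 2 ≤
      ∑ y, π y * Real.log (1 + l * 2 ^ k * β y) + Fintype.card A / l := by
  classical
  obtain ⟨P, hP⟩ : ∃ P, P = fun ω : Tk U k × (B × X) => un (Tk U k) * π ω.2 := ⟨_, rfl⟩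
  have hc := un_pos (Tk U k)
  have sP : ∀ φ : (U → Key k) → B × X → ℝ, ∑ ω, P ω * φ ω.1.2.2 ω.2 =
      ∑ y, π y * ∑ g, un (U → Key k) * φ g y := by
    intro φ
    rw [Fintype.sum_prod_type, Finset.sum_comm]
    refine Finset.sum_congr rfl fun y _ => ?_
    rw [← sum_Tk fun g => φ g y, Finset.mul_sum]
    exact Finset.sum_congr rfl fun t _ => by rw [hP]; ring
  have sP' : ∀ φ : B × X → ℝ, ∑ ω, P ω * φ ω.2 = ∑ y, π y * φ y := fun φ => by
    rw [sP fun _ y => φ y]
    simp only [← Finset.sum_mul, sum_un, one_mul]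
  have hP0 : ∀ ω, 0 ≤ P ω := fun ω => hP ▸ mul_nonneg hc.le (h0 _)
  have hP1 : ∑ ω, P ω = 1 := by simpa [h1] using sP' fun _ => 1
  have hne : ∀ ω, P ω ≠ 0 → π ω.2 ≠ 0 := fun ω h => by
    rw [hP] at h; exact (mul_ne_zero_iff.1 h).2
  rw [← hP]
  let D : Tk U k × (B × X) → (B × A) × Tk U k := fun ω =>
    ((ω.2.1, al ω.2), (ω.1.1 + ω.1.2.2 (u0 ω.2), ω.1.2.1 + ω.1.2.2 (u ω.2), ω.1.2.2))
  have d := mi_le_of_det hP0 hP1 f D (fun ω => ω.1.2.1) fun ω ω' _ _ h => by
    simp only [D, Prod.mk.injEq] at h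
    exact hf ω ω' h.1.1 h.1.2 h.2.2.2 h.2.1 h.2.2.1
  let v : B → A → X → ℝ := fun b a x => if al (b, x) = a then π (b, x) else 0
  have v0 : ∀ b a x, 0 ≤ v b a x := fun b a x => ite_nonneg (h0 _) le_rfl
  have vy : ∀ y : B × X, v y.1 (al y) y.2 = π y := fun y => if_pos rfl
  let pa : B → A → ℝ := fun b a => ∑ x, v b a x
  let pu : B × X → ℝ := fun y => mass (v y.1 (al y)) (fun x => u (y.1, x)) (u y)
  let wT : (U → Key k) → B × X → ℝ := fun g y =>
    mass (v y.1 (al y)) (fun x => g (u (y.1, x))) (g (u y))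
  have pa_pos : ∀ y, π y ≠ 0 → 0 < pa y.1 (al y) := fun y hy =>
    lt_of_lt_of_le (lt_of_le_of_ne (h0 y) hy.symm)
      (vy y ▸ Finset.single_le_sum (fun x _ => v0 y.1 (al y) x) (Finset.mem_univ y.2))
  have pu0 : ∀ y, 0 ≤ pu y := fun y => mass_nonneg (v0 _ _) _ _
  have wT_pos : ∀ g y, π y ≠ 0 → 0 < wT g y := fun g y hy =>
    mass_pos (v0 y.1 (al y)) (fun x => g (u (y.1, x))) (ω := y.2) (by rwa [vy])
  have pasum : ∀ b, ∑ a, pa b a = ∑ x, π (b, x) := fun b => by
    rw [Finset.sum_comm]; simp [v]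
  have g1 := gibbs hP0 hP1 D (fun d => pa d.1.1 d.1.2 * un (Tk U k))
    (fun d => mul_nonneg (Finset.sum_nonneg fun x _ => v0 _ _ x) hc.le)
    (by
      rw [Fintype.sum_prod_type]
      simp only [← Finset.mul_sum, sum_un, mul_one]
      rw [Fintype.sum_prod_type]
      simp only [pasum]
      rw [← Fintype.sum_prod_type, h1])
    (fun ω h => mul_pos (pa_pos _ (hne ω h)) hc)
  have g2 := H_le_log_card hP0 hP1 (fun ω => ω.1.2.1)
  rw [card_key] at g2
  have g3 := le_H hP0 (fun ω => (D ω, ω.1.2.1)) (fun ω => un (Tk U k) * wT ω.1.2.2 ω.2)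
    fun ω _ => by
      simp only [wT]
      rw [mass_eq, mass_eq, Fintype.sum_prod_type, Finset.sum_comm, Fintype.sum_prod_type,
        Finset.sum_eq_single ω.2.1, Finset.mul_sum]
      · refine Finset.sum_le_sum fun x _ => ?_
        rw [Finset.sum_eq_single ((D ω).2.1 - ω.1.2.2 (u0 (ω.2.1, x)), ω.1.2.1, ω.1.2.2)]
        · by_cases h : (D (((D ω).2.1 - ω.1.2.2 (u0 (ω.2.1, x)), ω.1.2.1, ω.1.2.2), ω.2.1, x),
              ω.1.2.1) = (D ω, ω.1.2.1)
          · have e1 : al (ω.2.1, x) = al ω.2 := congrArg (fun t => t.1.1.2) h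
            have e2 : ω.1.2.2 (u (ω.2.1, x)) = ω.1.2.2 (u ω.2) :=
              add_left_cancel (a := ω.1.2.1) (congrArg (fun t => t.1.2.2.1) h)
            rw [if_pos h, if_pos e2, hP]
            simp only [v, if_pos e1, le_refl]
          · rw [if_neg h]
            exact mul_nonneg hc.le (ite_nonneg (v0 _ _ _) le_rfl)
        · rintro ⟨K, K', g⟩ _ hn
          refine if_neg fun h => hn ?_
          have e1 : g = ω.1.2.2 := congrArg (fun t => t.1.2.2.2) h
          have e2 : K' = ω.1.2.1 := congrArg (fun t => t.2) h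
          have e3 := congrArg (fun t => t.1.2.1) h
          subst e1
          exact Prod.ext (eq_sub_of_add_eq e3) (Prod.ext e2 rfl)
        · simp
      · intro b _ hb
        exact Finset.sum_eq_zero fun x _ => Finset.sum_eq_zero fun t _ =>
          if_neg fun h => hb (congrArg (fun t => t.1.1.1) h)
      · simp
  have hd : ∀ y, π y ≠ 0 → 0 < pa y.1 (al y) + 2 ^ k * pu y := fun y hy => by
    have := pa_pos y hy; have := pu0 y; positivity
  have j := jensen hP0 hP1 (fun ω => 2 ^ k * wT ω.1.2.2 ω.2 / (pa ω.2.1 (al ω.2) + 2 ^ k * pu ω.2))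
    (fun ω h => div_pos (mul_pos (by positivity) (wT_pos _ _ (hne ω h))) (hd _ (hne ω h)))
    (by
      rw [sP fun g y => 2 ^ k * wT g y / (pa y.1 (al y) + 2 ^ k * pu y), ← h1]
      refine Finset.sum_le_sum fun y _ => ?_
      by_cases hy : π y = 0
      · simp [hy]
      refine mul_le_of_le_one_right (h0 y) ?_
      have a := avg_mass (AddMonoidHom.id (Key k)) Function.surjective_id (v0 y.1 (al y))
        (fun x => u (y.1, x)) (u y)
      rw [un_key, ← Finset.mul_sum] at a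
      simp only [← mul_div_assoc, mul_left_comm (un _), ← Finset.sum_div, ← Finset.mul_sum]
      rw [div_le_one (hd y hy)]
      refine (mul_le_mul_of_nonneg_left a (show (0 : ℝ) ≤ 2 ^ k by positivity)).trans
        (le_of_eq ?_)
      simp only [pa, pu]
      field_simp
      ring)
  have b1 : ∑ y, π y * ((∑ x, π (y.1, x)) / pa y.1 (al y)) ≤ Fintype.card A := by
    calc _ = ∑ b, (∑ x, π (b, x)) * ∑ a, pa b a / pa b a := by
          rw [Fintype.sum_prod_type]
          refine Finset.sum_congr rfl fun b _ => ?_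
          conv_rhs => enter [2, 2, a, 1]; change ∑ x, v b a x
          simp only [Finset.sum_div]
          rw [Finset.sum_comm, Finset.mul_sum]
          refine Finset.sum_congr rfl fun x _ => ?_
          simp only [v, ite_div, zero_div, Finset.sum_ite_eq, Finset.mem_univ, if_true,
            ← Finset.sum_div]
          ring
      _ ≤ ∑ b, (∑ x, π (b, x)) * Fintype.card A := by
          refine Finset.sum_le_sum fun b _ => mul_le_mul_of_nonneg_left ?_
            (Finset.sum_nonneg fun x _ => h0 _)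
          refine (Finset.sum_le_sum fun a _ => div_self_le_one (pa b a)).trans ?_
          simp
      _ = _ := by rw [← Finset.sum_mul, ← Fintype.sum_prod_type, h1, one_mul]
  have key : ∑ ω, P ω * -Real.log (pa ω.2.1 (al ω.2) * un (Tk U k)) + k * Real.log 2 -
      ∑ ω, P ω * -Real.log (un (Tk U k) * wT ω.1.2.2 ω.2) ≤
      ∑ ω, P ω * Real.log (2 ^ k * wT ω.1.2.2 ω.2 / (pa ω.2.1 (al ω.2) + 2 ^ k * pu ω.2)) +
      ∑ ω, P ω * Real.log (1 + l * 2 ^ k * β ω.2) +
      (∑ ω, P ω * ((∑ x, π (ω.2.1, x)) / pa ω.2.1 (al ω.2))) / l := by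
    have : k * Real.log 2 = ∑ ω, P ω * (k * Real.log 2) := by rw [← Finset.sum_mul, hP1, one_mul]
    rw [this, Finset.sum_div]
    simp only [← Finset.sum_add_distrib, ← Finset.sum_sub_distrib]
    refine Finset.sum_le_sum fun ω _ => ?_
    by_cases h : P ω = 0
    · simp [h]
    have a1 := pa_pos _ (hne ω h)
    have a2 := wT_pos ω.1.2.2 _ (hne ω h)
    have a3 := hd _ (hne ω h)
    have a4 : pu ω.2 ≤ β ω.2 * ∑ x, π (ω.2.1, x) := by
      refine le_trans (le_of_eq ?_) (hβ ω.2)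
      simp only [pu, mass_eq, v]
      refine Finset.sum_congr rfl fun x _ => ?_
      by_cases e1 : al (ω.2.1, x) = al ω.2 <;> by_cases e2 : u (ω.2.1, x) = u ω.2 <;> simp [e1, e2]
    obtain ⟨pb, hpb⟩ : ∃ pb, pb = ∑ x, π (ω.2.1, x) := ⟨_, rfl⟩
    have a5 : 0 ≤ pb := hpb ▸ Finset.sum_nonneg fun x _ => h0 _
    rw [← hpb] at a4 ⊢
    generalize pa ω.2.1 (al ω.2) = a at *
    have a6 := hβ0 ω.2
    have a7 : a + 2 ^ k * pu ω.2 ≤ a * (1 + l * 2 ^ k * β ω.2) * (1 + pb / a / l) := by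
      have e : a * (1 + l * 2 ^ k * β ω.2) * (1 + pb / a / l) =
          a + 2 ^ k * (β ω.2 * pb) + (a * (l * 2 ^ k * β ω.2) + pb / l) := by field_simp; ring
      have : 0 ≤ a * (l * 2 ^ k * β ω.2) + pb / l := by positivity
      have := mul_le_mul_of_nonneg_left a4 (show (0 : ℝ) ≤ 2 ^ k by positivity)
      linarith
    have a8 := Real.log_le_log a3 a7
    have a9 := Real.log_le_sub_one_of_pos (show 0 < 1 + pb / a / l by positivity)
    rw [Real.log_mul (by positivity) (by positivity), Real.log_mul a1.ne' (by positivity)] at a8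
    rw [Real.log_mul a1.ne' hc.ne', Real.log_mul hc.ne' a2.ne', Real.log_div (by positivity) a3.ne',
      Real.log_mul (by positivity) a2.ne', Real.log_pow, mul_div_assoc, ← mul_add, ← mul_sub,
      ← mul_add, ← mul_add]
    exact mul_le_mul_of_nonneg_left (by linarith) (hP0 ω)
  rw [sP' fun y => Real.log (1 + l * 2 ^ k * β y),
    sP' fun y => (∑ x, π (y.1, x)) / pa y.1 (al y)] at key
  have b2 := div_le_div_of_nonneg_right b1 hl.le
  simp only [Nat.cast_pow, Nat.cast_ofNat, Real.log_pow] at g2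
  simp only [D] at g1 g3 d
  linarith

end Pool.Agent.Lib.MP_426fec_lc.Gen
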