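import Pool.Agent.Lib.MP_426fec_lc.Gen3

/-! The protocol with a true and a sampled hash value. -/

set_option autoImplicit false

namespace Pool.Agent.Lib.MP_426fec_lc.Gen

open Finset

/-- An input law. -/
structure Inp (X : Type) [Fintype X] where
  p : X → ℝ
  h0 : ∀ x, 0 ≤ p x
  h1 : ∑ x, p x = 1
  x0 : X

/-- The state announced by Bob. -/
abbrev St (U : Type) (k r m : ℕ) : Type :=
  Hs U r m × (U → Key k) × (Bool → Key r) × ℕ × (Bool → Key m)

/-- The reply of Alice. -/
abbrev Rp (k M : ℕ) : Type := (Bool → Fin (M + 1)) × (Bool → Key k)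

/-- The messages. -/
abbrev Ms (U : Type) (k r m M : ℕ) : Type := Option (St U k r m ⊕ Rp k M)

section general

variable {U : Type} [Fintype U] [Nonempty U] {k r m M : ℕ}

/-- The reply of Alice to a state. -/
noncomputable def rA (M : ℕ) (K0 K1 : Key k) (w : U → ℝ) (s : St U k r m) : Rp k M :=
  (fun z => ann M w s.1 (s.2.2.1 z) s.2.2.2.1 (s.2.2.2.2 z),
    fun z => if s.2.2.2.1 = m then
      (if z then K1 else K0) + s.2.1 (dec w s.1 (s.2.2.1 z, s.2.2.2.2 z)) else 0)

/-- The state after j steps, given the two final hash values. -/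
def stt (h : Hs U r m) (g : U → Key k) (ss : Bool → Key r × Key m) (j : ℕ) : St U k r m :=
  (h, g, fun z => (ss z).1, j, fun z => tr j (ss z).2)

/-- The next state. -/
def sB (z : Bool) (t : Key m) (ν : Fin m → Fin (M + 2)) (s : St U k r m) (ρ : Rp k M) :
    St U k r m :=
  (s.1, s.2.1, s.2.2.1, s.2.2.2.1 + 1, fun z' => setb s.2.2.2.1
    (if z' = z then at0 t s.2.2.2.1 else bit (at0 ν s.2.2.2.1) (ρ.1 z')) (s.2.2.2.2 z'))

/-- The two final hash values. -/
noncomputable def fin2 (z : Bool) (w : U → ℝ) (h : Hs U r m) (y : U) (c : Cn r m M) :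
    Bool → Key r × Key m := fun z' => if z' = z then h y else fs M w h c

lemma sB_stt (z : Bool) (K0 K1 : Key k) (w : U → ℝ) (h : Hs U r m) (g : U → Key k) (y : U)
    (c : Cn r m M) (j : ℕ) :
    sB z (h y).2 c.2 (stt h g (fin2 z w h y c) j) (rA M K0 K1 w (stt h g (fin2 z w h y c) j)) =
      stt h g (fin2 z w h y c) (j + 1) := by
  simp only [sB, stt, rA, Prod.mk.injEq, true_and]
  funext z'
  by_cases e : z' = z
  · simp only [fin2, e, if_true, tr_succ]
  · simp only [fin2, e, if_false, fs, ← fk_eq_tr, fk]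

/-- The messages of the last discussion. -/
def lastT (f : ℕ → St U k r m) (ρ : ℕ → Rp k M) : ℕ → List (Ms U k r m M)
  | 0 => [some (Sum.inl (f 0)), none]
  | j + 1 => some (Sum.inl (f (j + 1))) :: some (Sum.inr (ρ j)) :: lastT f ρ j

omit [Fintype U] [Nonempty U] in
lemma lastT_congr (f : ℕ → St U k r m) {ρ ρ' : ℕ → Rp k M} :
    ∀ j, (∀ i < j, ρ i = ρ' i) → lastT f ρ j = lastT f ρ' j
  | 0, _ => rfl
  | j + 1, h => by
    rw [lastT, lastT, h j (by omega), lastT_congr f j fun i hi => h i (by omega)]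

/-- The messages of Alice. -/
noncomputable def aM (K0 K1 : Key k) (w : U → ℝ) : List (Ms U k r m M) → Ms U k r m M
  | some (Sum.inl s) :: _ => some (Sum.inr (rA M K0 K1 w s))
  | _ => none

/-- The messages of Bob after the last session. -/
def bM (z : Bool) (y : U) (N : (U → Key k) × Hs U r m × Cn r m M) :
    List (Ms U k r m M) → Ms U k r m M
  | some (Sum.inr ρ) :: some (Sum.inl s) :: _ => some (Sum.inl (sB z (N.2.1 y).2 N.2.2.2 s ρ))
  | _ => some (Sum.inl (N.2.1, N.1, fun z' => if z' = z then (N.2.1 y).1 else N.2.2.1, 0, 0))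

/-- The output of Bob. -/
def oM (z : Bool) (t : Key k) : List (Ms U k r m M) → Key k
  | _ :: some (Sum.inr ρ) :: _ => ρ.2 z - t
  | _ => 0

lemma iter_last (z : Bool) (K0 K1 : Key k) (w : U → ℝ) (y : U)
    (N : (U → Key k) × Hs U r m × Cn r m M) (c : ℕ) : ∀ j,
    (fun l => bM z y N (aM K0 K1 w l :: l) :: aM K0 K1 w l :: l)^[j + 1] (List.replicate c none) =
      lastT (stt N.2.1 N.1 (fin2 z w N.2.1 y N.2.2))
        (fun i => rA M K0 K1 w (stt N.2.1 N.1 (fin2 z w N.2.1 y N.2.2) i)) j ++
        List.replicate c none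
  | 0 => by
    have e : ((N.2.1, N.1, fun z' => if z' = z then (N.2.1 y).1 else N.2.2.1, 0, 0) :
        St U k r m) = stt N.2.1 N.1 (fin2 z w N.2.1 y N.2.2) 0 := by
      simp only [stt, Prod.mk.injEq, true_and, tr_zero]
      refine ⟨funext fun z' => ?_, rfl⟩
      by_cases e : z' = z <;> simp [fin2, e, fs]
    cases c <;> simp [aM, bM, lastT, List.replicate_succ, e]
  | j + 1 => by
    rw [Function.iterate_succ_apply', iter_last z K0 K1 w y N c j]
    cases j <;> simp only [lastT, List.cons_append, aM, bM, sB_stt]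

end general

variable {X Y : Type} [Fintype X] [Fintype Y] [DecidableEq Y] [Nonempty Y] (I : Inp X)
  (W : X → Y → ℝ)

/-- The memoryless channel. -/
def wn {n : ℕ} (x : Fin n → X) (y : Fin n → Y) : ℝ := ∏ i, W (x i) (y i)

/-- The protocol. -/
noncomputable def prot (n k r m M : ℕ) : Protocol X Y k where
  M := Fin n → X
  N := ((Fin n → Y) → Key k) × Hs (Fin n → Y) r m × Cn r m M
  Msg := Ms (Fin n → Y) k r m M
  finM := inferInstance
  finN := inferInstance
  pM := fun x => ∏ i, I.p (x i)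
  pN := fun _ => un (((Fin n → Y) → Key k) × Hs (Fin n → Y) r m × Cn r m M)
  pM_nonneg := fun _ => Finset.prod_nonneg fun _ _ => I.h0 _
  pN_nonneg := fun _ => (un_pos _).le
  pM_sum := by
    change ∑ x : Fin n → X, _ = _
    rw [← Fintype.sum_pow, I.h1, one_pow]
  pN_sum := sum_un _
  r := m + 2
  aMsg := fun a => aM a.1 a.2.1 (wn W a.2.2)
  bMsg := fun b ys f => if h : ys.length = n then bM b.1 (toFn ys h) b.2 f else none
  inp := fun a t _ => if h : t < n then a.2.2 ⟨n - 1 - t, by omega⟩ else I.x0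
  out := fun b ys f => if h : ys.length = n then oM b.1 (b.2.1 (toFn ys h)) f else 0

variable {n k r m M : ℕ}

lemma gap_early (a : Key k × Key k × (prot I W n k r m M).M) (b : Bool × (prot I W n k r m M).N)
    (ys : List Y) (h : ys.length ≠ n) (c : ℕ) :
    (prot I W n k r m M).gap a b ys (List.replicate c none) =
      List.replicate (c + 2 * (m + 2)) none := by
  have : ∀ j, (fun g => (prot I W n k r m M).bMsg b ys ((prot I W n k r m M).aMsg a g :: g) ::
      (prot I W n k r m M).aMsg a g :: g)^[j] (List.replicate c none) =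
      List.replicate (c + 2 * j) none := by
    intro j
    induction j with
    | zero => rfl
    | succ j ih =>
      rw [Function.iterate_succ_apply', ih, show c + 2 * (j + 1) = c + 2 * j + 1 + 1 by ring]
      generalize c + 2 * j = d
      cases d <;> simp [prot, h, aM, List.replicate_succ]
  exact this (m + 2)

lemma trans_early (a : Key k × Key k × (prot I W n k r m M).M)
    (b : Bool × (prot I W n k r m M).N) : ∀ ys : List Y, ys.length < n →
      (prot I W n k r m M).trans a b ys = List.replicate (2 * (m + 2) * (ys.length + 1)) none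
  | [], h => by
    have := gap_early I W a b [] h.ne 0
    simpa [Protocol.trans] using this
  | y :: ys, h => by
    rw [Protocol.trans, trans_early a b ys (by simp at h; omega)]
    refine (gap_early I W a b _ h.ne _).trans ?_
    congr 1

lemma comm_eq (ω : (prot I W n k r m M).Omega n) :
    (prot I W n k r m M).comm n ω =
      lastT (stt ω.2.1.2.2.1 ω.2.1.2.1 (fin2 ω.2.1.1 (wn W ω.1.2.2) ω.2.1.2.2.1 ω.2.2 ω.2.1.2.2.2))
        (fun i => rA M ω.1.1 ω.1.2.1 (wn W ω.1.2.2) (stt ω.2.1.2.2.1 ω.2.1.2.1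
          (fin2 ω.2.1.1 (wn W ω.1.2.2) ω.2.1.2.2.1 ω.2.2 ω.2.1.2.2.2) i)) (m + 1) ++
        List.replicate (2 * (m + 2) * n) none := by
  have hl : (List.ofFn ω.2.2).length = n := by simp
  have e := toFn_ofFn ω.2.2 hl
  unfold Protocol.comm
  generalize List.ofFn ω.2.2 = ys at hl e
  rw [← e]
  refine Eq.trans ?_ (iter_last ω.2.1.1 ω.1.1 ω.1.2.1 (wn W ω.1.2.2) (toFn ys hl) ω.2.1.2
    (2 * (m + 2) * n) (m + 1))
  have g : ∀ f, (prot I W n k r m M).gap ω.1 ω.2.1 ys f =
      (fun l => bM ω.2.1.1 (toFn ys hl) ω.2.1.2 (aM ω.1.1 ω.1.2.1 (wn W ω.1.2.2) l :: l) ::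
        aM ω.1.1 ω.1.2.1 (wn W ω.1.2.2) l :: l)^[m + 1 + 1] f := fun f => by
    simp only [Protocol.gap, prot, dif_pos hl]
  refine Eq.trans ?_ (g _)
  cases ys with
  | nil =>
    have hn : 2 * (m + 2) * n = 0 := by simp at hl; simp [← hl]
    rw [hn]
    rfl
  | cons y ys =>
    have hn : ys.length + 1 = n := by simpa using hl
    rw [Protocol.trans, trans_early I W _ _ ys (by omega), hn]

lemma out_eq (ω : (prot I W n k r m M).Omega n) :
    (prot I W n k r m M).out ω.2.1 (List.ofFn ω.2.2) ((prot I W n k r m M).comm n ω) =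
      (prot I W n k r m M).key ω.2.1.1 ω.1 +
        ω.2.1.2.1 (dec (wn W ω.1.2.2) ω.2.1.2.2.1 (ω.2.1.2.2.1 ω.2.2)) - ω.2.1.2.1 ω.2.2 := by
  rw [comm_eq]
  simp [prot, toFn_ofFn, lastT, oM, rA, stt, fin2, tr_full, Protocol.key]

lemma chanWt_eq (a : Key k × Key k × (prot I W n k r m M).M) (b : Bool × (prot I W n k r m M).N)
    (y : Fin n → Y) : (prot I W n k r m M).chanWt W a b (List.ofFn y) = wn W a.2.2 y := by
  rw [(prot I W n k r m M).chanWt_ofFn W a b
    (fun t => if h : t < n then a.2.2 ⟨n - 1 - t, by omega⟩ else I.x0) (fun _ => rfl)]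
  refine Finset.prod_congr rfl fun i _ => ?_
  have hi := i.2
  rw [dif_pos (by omega)]
  have : (⟨n - 1 - (n - 1 - i), by omega⟩ : Fin n) = i := by
    ext
    simp only
    omega
  rw [this]

lemma inputs_eq (a : Key k × Key k × (prot I W n k r m M).M)
    (b b' : Bool × (prot I W n k r m M).N) : ∀ ys ys' : List Y, ys.length = ys'.length →
      (prot I W n k r m M).inputs a b ys = (prot I W n k r m M).inputs a b' ys'
  | [], [], _ => rfl
  | y :: ys, y' :: ys', h => by
    have h' : ys.length = ys'.length := by simpa using h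
    simp only [Protocol.inputs, Protocol.nextIn]
    rw [inputs_eq a b b' ys ys' h', h']
    rfl

end Pool.Agent.Lib.MP_426fec_lc.Gen
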