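import Pool.Agent.Lib.MP_426fec_lc.Gen4

/-! Error probability and leakage to Alice. -/

set_option autoImplicit false

namespace Pool.Agent.Lib.MP_426fec_lc.Gen

open Finset

variable {X Y : Type} [Fintype X] [DecidableEq X] [Fintype Y] [DecidableEq Y] [Nonempty Y]
  (I : Inp X) (W : X → Y → ℝ) {n k r m M : ℕ}

/-- The law of the inputs. -/
def pn (x : Fin n → X) : ℝ := ∏ i, I.p (x i)

/-- What Bob knows, and what is hidden or short. -/
abbrev BX (X Y : Type) (n r m M : ℕ) : Type :=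
  ((Fin n → Y) × Hs (Fin n → Y) r m × Key r) × ((Fin n → X) × (Fin m → Fin (M + 2)))

/-- The law on the reduced space. -/
noncomputable def pi0 (y : BX X Y n r m M) : ℝ :=
  pn I y.2.1 * (un (Hs (Fin n → Y) r m) * (wn W y.2.1 y.1.1 * un (Cn r m M)))

/-- The embedding of the reduced space. -/
def emb (z : Bool) (ω : Tk (Fin n → Y) k × BX X Y n r m M) : (prot I W n k r m M).Omega n :=
  ((if z then ω.1.2.1 else ω.1.1, if z then ω.1.1 else ω.1.2.1, ω.2.2.1),
    ((z, (ω.1.2.2, ω.2.1.2.1, (ω.2.1.2.2, ω.2.2.2))), ω.2.1.1))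

lemma un_prod (A B : Type) [Fintype A] [Fintype B] : un (A × B) = un A * un B := by
  simp only [un, Fintype.card_prod, Nat.cast_mul, one_div, mul_inv]

omit [DecidableEq X] in
lemma sum_Pz (z : Bool) (φ : (prot I W n k r m M).Omega n → ℝ) :
    ∑ ω, (prot I W n k r m M).Pz W n z ω * φ ω =
      ∑ ω, un (Tk (Fin n → Y) k) * pi0 I W ω.2 * φ (emb I W z ω) := by
  symm
  refine Fintype.sum_of_injective (emb I W z) ?_ _ _ ?_ ?_
  · rintro ⟨⟨K, K', g⟩, ⟨y, h, σ⟩, x, ν⟩ ⟨⟨L, L', g'⟩, ⟨y', h', σ'⟩, x', ν'⟩ e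
    simp only [emb, Prod.mk.injEq] at e
    obtain ⟨⟨h1, h2, h3⟩, ⟨-, h5⟩, h6⟩ := e
    have h3' : x = x' := h3
    have h5' : (g, h, σ, ν) = (g', h', σ', ν') := h5
    simp only [Prod.mk.injEq] at h5'
    cases z <;> simp_all
  · intro ω hω
    rw [(prot I W n k r m M).Pz_eq_zero W n, zero_mul]
    intro hz
    apply hω
    obtain ⟨⟨K, K', x⟩, ⟨z', g, h, σ, ν⟩, y⟩ := ω
    refine ⟨((if z then K' else K, if z then K else K', g), (y, h, σ), x, ν), ?_⟩
    simp only at hz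
    subst hz
    cases z' <;> rfl
  · intro ω
    congr 1
    simp only [Protocol.Pz, Protocol.P0, Protocol.pA0, Protocol.pBz, chanWt_eq]
    simp only [emb, if_true, prot, pi0, pn, un_prod (Key k), un_key,
      un_prod ((Fin n → Y) → Key k), un_prod (Hs (Fin n → Y) r m)]
    ring

omit [DecidableEq X] [Nonempty Y] in
lemma sum_pi0 (ψ : (Fin n → X) → Hs (Fin n → Y) r m → (Fin n → Y) → Cn r m M → ℝ) :
    ∑ y : BX X Y n r m M, pi0 I W y * ψ y.2.1 y.1.2.1 y.1.1 (y.1.2.2, y.2.2) =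
      ∑ x, pn I x * ∑ h, un (Hs (Fin n → Y) r m) * ∑ u, wn W x u *
        ∑ c, un (Cn r m M) * ψ x h u c := by
  let e : (Fin n → X) × Hs (Fin n → Y) r m × (Fin n → Y) × Cn r m M ≃ BX X Y n r m M :=
    ⟨fun t => ((t.2.2.1, t.2.1, t.2.2.2.1), t.1, t.2.2.2.2),
      fun y => (y.2.1, y.1.2.1, y.1.1, y.1.2.2, y.2.2), fun _ => rfl, fun _ => rfl⟩
  rw [← e.sum_comp, Fintype.sum_prod_type]
  refine Finset.sum_congr rfl fun x _ => ?_
  rw [Fintype.sum_prod_type, Finset.mul_sum]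
  refine Finset.sum_congr rfl fun h _ => ?_
  rw [Fintype.sum_prod_type, Finset.mul_sum, Finset.mul_sum]
  refine Finset.sum_congr rfl fun u _ => ?_
  rw [Finset.mul_sum, Finset.mul_sum, Finset.mul_sum]
  refine Finset.sum_congr rfl fun c _ => ?_
  simp only [e, Equiv.coe_fn_mk, pi0]
  ring

omit [DecidableEq X] in
lemma sum_Pz' (z : Bool)
    (ψ : (Fin n → X) → Hs (Fin n → Y) r m → (Fin n → Y) → Cn r m M → ℝ) :
    ∑ ω, (prot I W n k r m M).Pz W n z ω * ψ ω.1.2.2 ω.2.1.2.2.1 ω.2.2 ω.2.1.2.2.2 =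
      ∑ x, pn I x * ∑ h, un (Hs (Fin n → Y) r m) * ∑ u, wn W x u *
        ∑ c, un (Cn r m M) * ψ x h u c := by
  rw [sum_Pz, Fintype.sum_prod_type, ← sum_pi0, ← one_mul (∑ y : BX X Y n r m M, _),
    ← sum_un (Tk (Fin n → Y) k), Finset.sum_mul]
  refine Finset.sum_congr rfl fun t _ => ?_
  rw [Finset.mul_sum]
  exact Finset.sum_congr rfl fun y _ => mul_assoc _ _ _

omit [DecidableEq X] in
lemma pn_nonneg (x : Fin n → X) : 0 ≤ pn I x := Finset.prod_nonneg fun _ _ => I.h0 _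

omit [DecidableEq X] in
lemma pn_sum : ∑ x : Fin n → X, pn I x = 1 := by
  unfold pn
  rw [← Fintype.sum_pow, I.h1, one_pow]

variable {W}

omit [Fintype X] [DecidableEq X] [Fintype Y] [DecidableEq Y] [Nonempty Y] in
lemma wn_nonneg (hW0 : ∀ x y, 0 ≤ W x y) (x : Fin n → X) (y : Fin n → Y) : 0 ≤ wn W x y :=
  Finset.prod_nonneg fun _ _ => hW0 _ _

omit [Fintype X] [DecidableEq X] [DecidableEq Y] [Nonempty Y] in
lemma wn_sum (hW1 : ∀ x, ∑ y, W x y = 1) (x : Fin n → X) : ∑ y, wn W x y = 1 := by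
  unfold wn
  rw [sum_pi_prod]
  simp [hW1]

omit [DecidableEq X] in
lemma errz_le (hW0 : ∀ x y, 0 ≤ W x y) (z : Bool) :
    (prot I W n k r m M).errz W n z ≤
      ∑ x : Fin n → X, pn I x * ∑ h : Hs (Fin n → Y) r m,
        un (Hs (Fin n → Y) r m) * err (wn W x) h := by
  have := sum_Pz' I W (n := n) (k := k) (r := r) (m := m) (M := M) z
    fun x h u _ => if dec (wn W x) h (h u) ≠ u then 1 else 0
  simp only [← Finset.sum_mul, sum_un, one_mul] at this
  unfold err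
  rw [← this]
  refine Finset.sum_le_sum fun ω _ => ?_
  have h0 := (prot I W n k r m M).Pz_nonneg hW0 n z ω
  by_cases hz : ω.2.1.1 = z
  · by_cases h : dec (wn W ω.1.2.2) ω.2.1.2.2.1 (ω.2.1.2.2.1 ω.2.2) = ω.2.2
    · rw [if_neg, if_neg (not_not.2 h), mul_zero]
      rw [out_eq, not_not, h, hz, add_sub_cancel_right]
    · rw [if_pos h, mul_one]
      split_ifs
      exacts [le_rfl, h0]
  · rw [(prot I W n k r m M).Pz_eq_zero W n hz]
    simp

variable (W) in
/-- The statistic of Alice. -/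
noncomputable def TA (ω : (prot I W n k r m M).Omega n) : Tk (Fin n → Y) k × (Fin n → X) ×
    Hs (Fin n → Y) r m × (Key r × Key m) × (Key r × Key m) :=
  ((ω.1.1, ω.1.2.1, ω.2.1.2.1), ω.1.2.2, ω.2.1.2.2.1,
    fin2 ω.2.1.1 (wn W ω.1.2.2) ω.2.1.2.2.1 ω.2.2 ω.2.1.2.2.2 false,
    fin2 ω.2.1.1 (wn W ω.1.2.2) ω.2.1.2.2.1 ω.2.2 ω.2.1.2.2.2 true)

lemma mass_TA (hW0 : ∀ x y, 0 ≤ W x y) (z : Bool) (t : Tk (Fin n → Y) k) (x : Fin n → X)
    (h : Hs (Fin n → Y) r m) (s0 s1 : Key r × Key m) :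
    mass ((prot I W n k r m M).Pz W n z) (TA I W) (t, x, h, s0, s1) ≤
      un (Tk (Fin n → Y) k) * (pn I x * (un (Hs (Fin n → Y) r m) *
        (mass (wn W x) h (if z then s1 else s0) * Q M (wn W x) h (if z then s0 else s1)))) := by
  classical
  rw [mass_transfer (sum_Pz I W z), mass_eq, Fintype.sum_prod_type,
    Finset.sum_eq_single (if z then (t.2.1, t.1, t.2.2) else t)]
  · obtain ⟨a, ha⟩ : ∃ a, a = if z then s1 else s0 := ⟨_, rfl⟩
    obtain ⟨b, hb⟩ : ∃ b, b = if z then s0 else s1 := ⟨_, rfl⟩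
    rw [← ha, ← hb]
    have := sum_pi0 I W (M := M) fun x' h' u c =>
      if x' = x ∧ h' = h ∧ h u = a ∧ fs M (wn W x) h c = b then 1 else 0
    rw [Finset.sum_eq_single x (fun _ _ e => by simp [e]) (by simp),
      Finset.sum_eq_single h (fun _ _ e => by simp [e]) (by simp)] at this
    have e0 : ∑ u, wn W x u * ∑ c, un (Cn r m M) *
        (if x = x ∧ h = h ∧ h u = a ∧ fs M (wn W x) h c = b then 1 else 0) =
        mass (wn W x) h a * Q M (wn W x) h b := by
      rw [mass_eq, Finset.sum_mul]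
      refine Finset.sum_congr rfl fun u _ => ?_
      by_cases e : h u = a <;> simp [e, Q, mass_eq]
    rw [e0] at this
    rw [← this, Finset.mul_sum]
    refine Finset.sum_le_sum fun y _ => ?_
    have p0 : 0 ≤ pi0 I W y := mul_nonneg (pn_nonneg I _) (mul_nonneg (un_pos _).le
      (mul_nonneg (wn_nonneg hW0 _ _) (un_pos _).le))
    have p1 := un_pos (Tk (Fin n → Y) k)
    by_cases e : TA I W (emb I W z (if z then (t.2.1, t.1, t.2.2) else t, y)) = (t, x, h, s0, s1)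
    · have : y.2.1 = x ∧ y.1.2.1 = h ∧ h y.1.1 = a ∧ fs M (wn W x) h (y.1.2.2, y.2.2) = b := by
        simp only [TA, emb, Prod.mk.injEq, fin2] at e
        obtain ⟨-, a1, a2, a3, a4⟩ := e
        cases z <;> simp_all
      rw [if_pos e, if_pos this, mul_one]
    · rw [if_neg e]
      positivity
  · rintro ⟨K, K', g⟩ _ hn
    refine Finset.sum_eq_zero fun y _ => if_neg fun e => hn ?_
    have := congrArg Prod.fst e
    simp only [TA, emb] at this
    cases z
    · exact this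
    · simp [← this]
  · simp

lemma leakA_le (hM : 0 < M) (hW0 : ∀ x y, 0 ≤ W x y) (hW1 : ∀ x, ∑ y, W x y = 1) :
    (prot I W n k r m M).leakA W n * Real.log 2 ≤
      ∑ x : Fin n → X, pn I x * ∑ h : Hs (Fin n → Y) r m,
        un (Hs (Fin n → Y) r m) * kl M (wn W x) h := by
  classical
  have hP := (prot I W n k r m M).law_nonneg hW0 n
  have h1 := (prot I W n k r m M).law_sum hW1 n
  have d := mi_le_of_det hP h1
    (fun ω => (ω.1, (prot I W n k r m M).inputs ω.1 ω.2.1 (List.ofFn ω.2.2),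
      (prot I W n k r m M).comm n ω)) (TA I W) (fun ω => ω.2.1.1) fun ω ω' _ _ e => by
      simp only [TA, Prod.mk.injEq] at e
      obtain ⟨⟨a1, a2, a3⟩, a4, a5, a6, a7⟩ := e
      have e1 : ω.1 = ω'.1 := Prod.ext a1 (Prod.ext a2 a4)
      have e2 : fin2 ω.2.1.1 (wn W ω.1.2.2) ω.2.1.2.2.1 ω.2.2 ω.2.1.2.2.2 =
          fin2 ω'.2.1.1 (wn W ω'.1.2.2) ω'.2.1.2.2.1 ω'.2.2 ω'.2.1.2.2.2 :=
        funext fun z => by cases z; exacts [a6, a7]
      refine Prod.ext e1 (Prod.ext ?_ ?_)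
      · simp only
        rw [e1]
        exact inputs_eq I W _ _ _ _ _ (by simp)
      · refine (comm_eq I W ω).trans (Eq.trans ?_ (comm_eq I W ω').symm)
        rw [e2, a5, a3, e1]
  let c : (prot I W n k r m M).Omega n → ℝ := fun ω =>
    un (Tk (Fin n → Y) k) * (pn I ω.1.2.2 * un (Hs (Fin n → Y) r m))
  let a : (prot I W n k r m M).Omega n → ℝ := fun ω =>
    mass (wn W ω.1.2.2) ω.2.1.2.2.1 (ω.2.1.2.2.1 ω.2.2)
  let b : (prot I W n k r m M).Omega n → ℝ := fun ω =>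
    Q M (wn W ω.1.2.2) ω.2.1.2.2.1 (ω.2.1.2.2.1 ω.2.2)
  let q : (prot I W n k r m M).Omega n → ℝ := fun ω =>
    Q M (wn W ω.1.2.2) ω.2.1.2.2.1 (fs M (wn W ω.1.2.2) ω.2.1.2.2.1 ω.2.1.2.2.2)
  have pos : ∀ ω, (prot I W n k r m M).law W n ω ≠ 0 → 0 < c ω ∧ 0 < a ω ∧ 0 < b ω ∧ 0 < q ω := by
    intro ω hω
    unfold Protocol.law at hω
    rw [chanWt_eq] at hω
    have e1 : pn I ω.1.2.2 ≠ 0 :=
      (mul_ne_zero_iff.1 (mul_ne_zero_iff.1 (mul_ne_zero_iff.1 hω).1).1).2
    have e2 := mass_pos (wn_nonneg hW0 ω.1.2.2) ω.2.1.2.2.1 (mul_ne_zero_iff.1 hω).2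
    exact ⟨mul_pos (un_pos _) (mul_pos (lt_of_le_of_ne (pn_nonneg I _) e1.symm) (un_pos _)), e2,
      Q_pos hM (wn_nonneg hW0 _) _ e2.ne', mass_pos (fun _ => (un_pos _).le) _ (un_pos _).ne'⟩
  have hQ0 : ∀ (x : Fin n → X) (h : Hs (Fin n → Y) r m) s, 0 ≤ Q M (wn W x) h s := fun x h s =>
    mass_nonneg (fun _ => (un_pos _).le) _ _
  have hQ1 : ∀ (x : Fin n → X) (h : Hs (Fin n → Y) r m), ∑ s, Q M (wn W x) h s = 1 := fun x h => by
    have := sum_mass (fun _ : Cn r m M => un (Cn r m M)) (fs M (wn W x) h) fun _ => 1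
    simpa only [mul_one, sum_un, Q] using this
  have eq1 : ∀ ω : (prot I W n k r m M).Omega n, un (Tk (Fin n → Y) k) * (pn I (TA I W ω).2.1 *
      (un (Hs (Fin n → Y) r m) * (Q M (wn W (TA I W ω).2.1) (TA I W ω).2.2.1 (TA I W ω).2.2.2.1 *
        Q M (wn W (TA I W ω).2.1) (TA I W ω).2.2.1 (TA I W ω).2.2.2.2))) = c ω * (b ω * q ω) := by
    intro ω
    simp only [TA, fin2, b, c, q]
    cases ω.2.1.1 <;> simp <;> ring
  have g1 := gibbs hP h1 (TA I W) (fun t => un (Tk (Fin n → Y) k) * (pn I t.2.1 *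
      (un (Hs (Fin n → Y) r m) * (Q M (wn W t.2.1) t.2.2.1 t.2.2.2.1 *
        Q M (wn W t.2.1) t.2.2.1 t.2.2.2.2))))
    (fun t => mul_nonneg (un_pos _).le (mul_nonneg (pn_nonneg I _) (mul_nonneg (un_pos _).le
      (mul_nonneg (hQ0 _ _ _) (hQ0 _ _ _)))))
    (by
      simp only [Fintype.sum_prod_type (α₁ := Tk (Fin n → Y) k),
        Fintype.sum_prod_type (α₁ := Fin n → X), Fintype.sum_prod_type (α₁ := Hs (Fin n → Y) r m),
        Fintype.sum_prod_type (α₁ := Key r × Key m), ← Finset.mul_sum, hQ1, mul_one, sum_un,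
        pn_sum, le_refl])
    (fun ω hω => by
      obtain ⟨p1, -, p3, p4⟩ := pos ω hω
      rw [eq1]; positivity)
  simp only [eq1] at g1
  have g2 := H_le_log_card hP h1 (fun ω => ω.2.1.1)
  simp only [Fintype.card_bool, Nat.cast_ofNat] at g2
  have g3 := le_H hP (fun ω => (TA I W ω, ω.2.1.1)) (fun ω => 1 / 2 * (c ω * (a ω * q ω)))
    fun ω _ => by
      have e : mass ((prot I W n k r m M).law W n) (fun ω => (TA I W ω, ω.2.1.1))
          (TA I W ω, ω.2.1.1) =
          1 / 2 * mass ((prot I W n k r m M).Pz W n ω.2.1.1) (TA I W) (TA I W ω) := by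
        simp only [mass_eq, Finset.mul_sum]
        refine Finset.sum_congr rfl fun ω' _ => ?_
        by_cases hz : ω'.2.1.1 = ω.2.1.1
        · simp only [Prod.mk.injEq, hz, and_true]
          split_ifs
          · rw [← hz]; exact (prot I W n k r m M).law_eq W n ω'
          · simp
        · simp [hz, (prot I W n k r m M).Pz_eq_zero W n hz]
      rw [e]
      refine mul_le_mul_of_nonneg_left ((mass_TA I hW0 ω.2.1.1 _ _ _ _ _).trans (le_of_eq ?_))
        (by norm_num)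
      simp only [fin2, a, c, q]
      cases ω.2.1.1 <;> simp <;> ring
  have key : ∑ ω, (prot I W n k r m M).law W n ω * -Real.log (c ω * (b ω * q ω)) + Real.log 2 -
      ∑ ω, (prot I W n k r m M).law W n ω * -Real.log (1 / 2 * (c ω * (a ω * q ω))) =
      ∑ ω, (prot I W n k r m M).law W n ω * Real.log (a ω / b ω) := by
    have e : Real.log 2 = ∑ ω, (prot I W n k r m M).law W n ω * Real.log 2 := by
      rw [← Finset.sum_mul, h1, one_mul]
    rw [e]
    simp only [← Finset.sum_add_distrib, ← Finset.sum_sub_distrib]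
    refine Finset.sum_congr rfl fun ω _ => ?_
    by_cases hω : (prot I W n k r m M).law W n ω = 0
    · simp [hω]
    obtain ⟨p1, p2, p3, p4⟩ := pos ω hω
    generalize c ω = c', a ω = a', b ω = b', q ω = q' at *
    rw [Real.log_mul p1.ne' (by positivity), Real.log_mul p3.ne' p4.ne',
      Real.log_mul (by norm_num) (by positivity), Real.log_mul p1.ne' (by positivity),
      Real.log_mul p2.ne' p4.ne', Real.log_div p2.ne' p3.ne', one_div, Real.log_inv]
    ring
  have fin : ∑ ω, (prot I W n k r m M).law W n ω * Real.log (a ω / b ω) =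
      ∑ x : Fin n → X, pn I x * ∑ h : Hs (Fin n → Y) r m,
        un (Hs (Fin n → Y) r m) * kl M (wn W x) h := by
    have s := fun z => sum_Pz' I W (n := n) (k := k) (r := r) (m := m) (M := M) z
      fun x h u _ => Real.log (mass (wn W x) h (h u) / Q M (wn W x) h (h u))
    simp only [← Finset.sum_mul, sum_un, one_mul] at s
    simp only [(prot I W n k r m M).law_eq' W n _ true, mul_assoc, ← Finset.mul_sum, add_mul,
      Finset.sum_add_distrib, a, b, s, kl]
    ring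
  unfold Protocol.leakA
  linarith

end Pool.Agent.Lib.MP_426fec_lc.Gen
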