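import Pool.Agent.Lib.MP_426fec_lc.Gen5

/-! Leakage to Bob. -/

set_option autoImplicit false

namespace Pool.Agent.Lib.MP_426fec_lc.Gen

open Finset

variable {X Y : Type} [Fintype X] [DecidableEq X] [Fintype Y] [DecidableEq Y] [Nonempty Y]
  (I : Inp X) (W : X → Y → ℝ) {n k r m M : ℕ}

/-- The law of the outputs. -/
def p1 (y : Fin n → Y) : ℝ := ∑ x, pn I x * wn W x y

/-- The joint law of two conditionally independent outputs. -/
def p2 (y u : Fin n → Y) : ℝ := ∑ x, pn I x * (wn W x y * wn W x u)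

/-- The short side information. -/
abbrev Al (m M : ℕ) : Type :=
  (Fin m → Fin (M + 2)) × (Fin (m + 1) → Bool → Fin (M + 1)) × Key m × Bool

lemma sum_le_add {T : Type} [Fintype T] {v f g : T → ℝ} {a c : ℝ} (h0 : ∀ t, 0 ≤ v t)
    (h1 : ∑ t, v t = 1) (h : ∀ t, f t ≤ g t * a + c) :
    ∑ t, v t * f t ≤ ∑ t, v t * g t * a + c := by
  calc _ ≤ ∑ t, v t * (g t * a + c) :=
        Finset.sum_le_sum fun t _ => mul_le_mul_of_nonneg_left (h t) (h0 t)
    _ = _ := by simp only [mul_add, Finset.sum_add_distrib, ← Finset.sum_mul, h1, one_mul, mul_assoc]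

lemma sum_le_add' {T : Type} [Fintype T] {v f g : T → ℝ} {a c : ℝ} (h0 : ∀ t, 0 ≤ v t)
    (h1 : ∑ t, v t = 1) (h : ∀ t, f t ≤ a * g t + c) :
    ∑ t, v t * f t ≤ ∑ t, a * (v t * g t) + c := by
  simpa only [mul_comm a] using sum_le_add (a := a) h0 h1 fun t => by simpa [mul_comm a] using h t

variable {W}

omit [DecidableEq X] in
lemma leakB_le (hM : 0 < M) (hW0 : ∀ x y, 0 ≤ W x y) (hW1 : ∀ x, ∑ y, W x y = 1) (z : Bool)
    {l γ : ℝ} (hl : 0 < l) (hγ : 0 < γ) :
    (prot I W n k r m M).leakB W n z * Real.log 2 ≤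
      (∑ x : Fin n → X, pn I x * ∑ h : Hs (Fin n → Y) r m, un (Hs (Fin n → Y) r m) *
        (2 * (γ + kl M (wn W x) h / γ + err (wn W x) h))) * Real.log (1 + l * 2 ^ k) +
      2 * (∑ x : Fin n → X, pn I x * ∑ y, wn W x y * ∑ u, wn W x u *
        Real.log (1 + l * 2 ^ k * (2 * 2 ^ r * (p2 I W y u / p1 I W y)))) +
      Fintype.card (Al m M) / l := by
  classical
  have w0 := wn_nonneg (n := n) hW0
  have w1 := wn_sum (n := n) hW1
  have q0 : ∀ y : BX X Y n r m M, 0 ≤ pi0 I W y := fun y => mul_nonneg (pn_nonneg I _)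
    (mul_nonneg (un_pos _).le (mul_nonneg (w0 _ _) (un_pos _).le))
  have q1 : ∑ y : BX X Y n r m M, pi0 I W y = 1 := by
    simpa only [mul_one, sum_un, w1, pn_sum] using
      sum_pi0 I W (n := n) (r := r) (m := m) (M := M) fun _ _ _ _ => 1
  have a1 : ∀ y : Fin n → Y, 0 ≤ p1 I W y := fun y =>
    Finset.sum_nonneg fun x _ => mul_nonneg (pn_nonneg I _) (w0 _ _)
  have a2 : ∀ y u : Fin n → Y, 0 ≤ p2 I W y u := fun y u =>
    Finset.sum_nonneg fun x _ => mul_nonneg (pn_nonneg I _) (mul_nonneg (w0 _ _) (w0 _ _))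
  have a3 : ∀ y u : Fin n → Y, p2 I W y u ≤ p2 I W y u / p1 I W y * p1 I W y := by
    intro y u
    by_cases h : p1 I W y = 0
    · rw [h, mul_zero, ← h]
      refine Finset.sum_le_sum fun x _ => mul_le_mul_of_nonneg_left
        (mul_le_of_le_one_right (w0 _ _) ?_) (pn_nonneg I _)
      rw [← w1 x]
      exact Finset.single_le_sum (fun u _ => w0 x u) (Finset.mem_univ u)
    · rw [div_mul_cancel₀ _ h]
  let sf : BX X Y n r m M → Key r × Key m := fun y => fs M (wn W y.2.1) y.1.2.1 (y.1.2.2, y.2.2)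
  let ss : BX X Y n r m M → Bool → Key r × Key m := fun y =>
    fin2 z (wn W y.2.1) y.1.2.1 y.1.1 (y.1.2.2, y.2.2)
  let gd : BX X Y n r m M → Prop := fun y => Good M (wn W y.2.1) y.1.2.1 (sf y)
  let u : BX X Y n r m M → Fin n → Y := fun y => dec (wn W y.2.1) y.1.2.1 (sf y)
  let al : BX X Y n r m M → Al m M := fun y => (y.2.2, fun i z' =>
    ann M (wn W y.2.1) y.1.2.1 (ss y z').1 i (tr i (ss y z').2), (sf y).2, decide (gd y))
  let β : BX X Y n r m M → ℝ := fun y =>
    if gd y then 2 * 2 ^ r * (p2 I W y.1.1 (u y) / p1 I W y.1.1) else 1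
  have b0 : ∀ y u' : Fin n → Y, 0 ≤ 2 * 2 ^ r * (p2 I W y u' / p1 I W y) := fun y u' =>
    mul_nonneg (by positivity) (div_nonneg (a2 _ _) (a1 _))
  have e0 : (prot I W n k r m M).leakB W n z =
      mi (fun ω : Tk (Fin n → Y) k × BX X Y n r m M => un (Tk (Fin n → Y) k) * pi0 I W ω.2)
        (fun ω => ((emb I W z ω).2.1.2, (emb I W z ω).2.2,
          (prot I W n k r m M).comm n (emb I W z ω))) (fun ω => ω.1.2.1) := by
    unfold Protocol.leakB
    rw [(prot I W n k r m M).condOn_eq hW1, mi_transfer (sum_Pz I W z)]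
    cases z <;> rfl
  rw [e0]
  refine (amplify q0 q1 al u (fun y => dec (wn W y.2.1) y.1.2.1 (y.1.2.1 y.1.1)) β
    (fun y => ite_nonneg (b0 _ _) zero_le_one) (fun y => ?_) hl _ ?_).trans ?_
  · by_cases hg : gd y
    swap
    · simp only [β, if_neg hg, one_mul]
      exact Finset.sum_le_sum fun x _ => by split_ifs; exacts [le_rfl, q0 _]
    have e1 : 2 ^ r * ∑ x, pi0 I W (M := M) (y.1, x) =
        un (Hs (Fin n → Y) r m) * p1 I W y.1.1 := by
      rw [Fintype.sum_prod_type, p1, Finset.mul_sum, Finset.mul_sum]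
      refine Finset.sum_congr rfl fun x _ => ?_
      simp only [pi0, un_prod (Key r), un_key, ← Finset.mul_sum, sum_un]
      field_simp
    have e2 : un (Hs (Fin n → Y) r m) * (2 * p2 I W y.1.1 (u y)) ≤
        β y * ∑ x, pi0 I W (M := M) (y.1, x) := by
      simp only [β, if_pos hg]
      have := mul_le_mul_of_nonneg_left (a3 y.1.1 (u y)) (un_pos (Hs (Fin n → Y) r m)).le
      calc _ ≤ 2 * (p2 I W y.1.1 (u y) / p1 I W y.1.1) *
            (un (Hs (Fin n → Y) r m) * p1 I W y.1.1) := by linarith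
        _ = _ := by rw [← e1]; ring
    refine le_trans ?_ e2
    rw [Fintype.sum_prod_type, p2, Finset.mul_sum, Finset.mul_sum]
    refine Finset.sum_le_sum fun x _ => ?_
    have g := good_le (M := M) (w0 x) y.1.2.1 (φ := fun u' => if u' = u y then 1 else 0)
      fun _ => ite_nonneg zero_le_one le_rfl
    simp only [mul_ite, mul_one, mul_zero, Finset.sum_ite_eq', Finset.mem_univ, if_true] at g
    rw [Fintype.sum_prod_type] at g
    have g' := le_trans (Finset.single_le_sum (fun σ _ => Finset.sum_nonneg fun ν _ =>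
      ite_nonneg (ite_nonneg (un_pos _).le le_rfl) le_rfl) (Finset.mem_univ y.1.2.2)) g
    have c0 : 0 ≤ pn I x * (un (Hs (Fin n → Y) r m) * wn W x y.1.1) :=
      mul_nonneg (pn_nonneg I _) (mul_nonneg (un_pos _).le (w0 _ _))
    refine le_trans ?_ ((mul_le_mul_of_nonneg_left g' c0).trans (le_of_eq (by ring)))
    rw [Finset.mul_sum]
    refine Finset.sum_le_sum fun ν _ => ?_
    by_cases e : al (y.1, x, ν) = al y ∧ u (y.1, x, ν) = u y
    · have e3 : gd (y.1, x, ν) := by
        have : decide (gd (y.1, x, ν)) = decide (gd y) := congrArg (fun t => t.2.2.2) e.1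
        simpa [hg] using this
      rw [if_pos e, if_pos e3, if_pos e.2]
      exact le_of_eq (by simp only [pi0]; ring)
    · rw [if_neg e]
      exact mul_nonneg c0 (ite_nonneg (ite_nonneg (un_pos _).le le_rfl) le_rfl)
  · rintro ⟨⟨K, K', g⟩, b, x, ν⟩ ⟨⟨L, L', g'⟩, b', x', ν'⟩ rfl h2 rfl h4 h5
    simp only [al, Prod.mk.injEq] at h2 h4 h5
    obtain ⟨rfl, h6, h7, -⟩ := h2
    have h8 : sf (b, x, ν) = sf (b, x', ν) := Prod.ext rfl h7
    have h9 : ss (b, x, ν) = ss (b, x', ν) := by
      funext z'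
      simp only [ss, fin2]
      split_ifs
      exacts [rfl, h8]
    refine Prod.ext rfl (Prod.ext rfl ?_)
    refine (comm_eq I W _).trans (Eq.trans ?_ (comm_eq I W _).symm)
    congr 1
    change lastT (stt b.2.1 g (ss (b, x, ν))) (fun i => rA M (if z then K' else K)
        (if z then K else K') (wn W x) (stt b.2.1 g (ss (b, x, ν)) i)) (m + 1) =
      lastT (stt b.2.1 g (ss (b, x', ν))) (fun i => rA M (if z then L' else L)
        (if z then L else L') (wn W x') (stt b.2.1 g (ss (b, x', ν)) i)) (m + 1)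
    rw [← h9]
    refine lastT_congr _ _ fun i hi => Prod.ext ?_ ?_
    · have := congrFun h6 ⟨i, hi⟩
      rw [← h9] at this
      exact this
    · funext z'
      simp only [rA, stt]
      by_cases hm : i = m
      · subst hm
        simp only [u, ← h8] at h5
        cases z <;> cases z' <;> simpa [tr_full, ss, fin2] using by assumption
      · rw [if_neg hm, if_neg hm]
  · refine add_le_add ?_ le_rfl
    have s := sum_pi0 I W (n := n) (r := r) (m := m) (M := M) fun x h y c =>
      Real.log (1 + l * 2 ^ k * β ((y, h, c.1), x, c.2))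
    refine (le_of_eq s).trans ?_
    rw [Finset.sum_mul, Finset.mul_sum, ← Finset.sum_add_distrib]
    refine Finset.sum_le_sum fun x _ => ?_
    rw [mul_assoc, mul_left_comm 2, ← mul_add]
    refine mul_le_mul_of_nonneg_left ?_ (pn_nonneg I _)
    rw [Finset.sum_mul]
    refine sum_le_add (fun _ => (un_pos _).le) (sum_un _) fun h => ?_
    refine le_trans ?_ (add_comm _ _).le
    rw [Finset.mul_sum]
    refine sum_le_add' (w0 x) (w1 x) fun y => le_trans ?_ (add_comm _ _).le
    have hL : 0 ≤ Real.log (1 + l * 2 ^ k) :=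
      Real.log_nonneg (le_add_of_nonneg_right (by positivity))
    refine le_trans ?_ (add_le_add (mul_le_mul_of_nonneg_right (bad_le hM (w0 x) (w1 x) h hγ) hL)
      (good_le (M := M) (w0 x) h fun u' => Real.log_nonneg
        (le_add_of_nonneg_right (mul_nonneg (a := l * 2 ^ k) (by positivity) (b0 y u')))))
    rw [Finset.sum_mul, ← Finset.sum_add_distrib]
    refine Finset.sum_le_sum fun c _ => le_of_eq ?_
    by_cases hg : Good M (wn W x) h (fs M (wn W x) h c) <;> simp [β, gd, sf, u, hg]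

end Pool.Agent.Lib.MP_426fec_lc.Gen
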