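import Pool.Agent.Lib.MP_426fec_lc.Gen6

/-! Exponential moment bounds for the error terms. -/

set_option autoImplicit false

namespace Pool.Agent.Lib.MP_426fec_lc.Gen

open Finset

lemma mgf2 {T : Type} [Fintype T] {P : T → ℝ} (hP : ∀ t, 0 ≤ P t) (h1 : ∑ t, P t = 1)
    (L : T → ℝ) {C s : ℝ} (hL : ∀ t, |L t| ≤ C) (hs : |s| * C ≤ 1) :
    ∑ t, P t * Real.exp (s * L t) ≤ Real.exp (s * ∑ t, P t * L t + s ^ 2 * C ^ 2) := by
  calc ∑ t, P t * Real.exp (s * L t) ≤ ∑ t, P t * (1 + s * L t + s ^ 2 * C ^ 2) := by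
        refine Finset.sum_le_sum fun t _ => mul_le_mul_of_nonneg_left ?_ (hP t)
        have h2 : |s * L t| ≤ 1 := by
          rw [abs_mul]
          exact (mul_le_mul_of_nonneg_left (hL t) (abs_nonneg _)).trans hs
        have h3 := (abs_le.1 (Real.abs_exp_sub_one_sub_id_le h2)).2
        have h4 : (L t) ^ 2 ≤ C ^ 2 := by
          rw [← sq_abs]; exact pow_le_pow_left₀ (abs_nonneg _) (hL t) 2
        have h5 := mul_le_mul_of_nonneg_left h4 (sq_nonneg s)
        rw [mul_pow] at h3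
        linarith
    _ = 1 + (s * ∑ t, P t * L t + s ^ 2 * C ^ 2) := by
        simp only [mul_add, Finset.sum_add_distrib, mul_one, h1, ← Finset.sum_mul, one_mul,
          Finset.mul_sum, mul_left_comm s]
        ring
    _ ≤ _ := by rw [add_comm]; exact Real.add_one_le_exp _

variable {X Y : Type} [Fintype X] [Fintype Y] (I : Inp X) (W : X → Y → ℝ) {n k r m M : ℕ}

/-- The law of one output letter. -/
def q1 (y : Y) : ℝ := ∑ x, I.p x * W x y

/-- The joint law of two conditionally independent output letters. -/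
def q2 (y u : Y) : ℝ := ∑ x, I.p x * (W x y * W x u)

/-- The entropy of the output given the input, in nats. -/
noncomputable def mu : ℝ := ∑ x, ∑ y, I.p x * W x y * -Real.log (W x y)

/-- The entropy of the second output given the first, in nats. -/
noncomputable def eta : ℝ :=
  ∑ x, ∑ o : Y × Y, I.p x * (W x o.1 * W x o.2) * -Real.log (q2 I W o.1 o.2 / q1 I W o.1)

/-- A bound for the information density. -/
noncomputable def cC : ℝ := ∑ x, ∑ y, |Real.log (W x y)|

omit [Fintype Y] in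
lemma p1_eq (y : Fin n → Y) : p1 I W y = ∏ i, q1 I W (y i) := by
  simp only [p1, q1, pn, wn, ← Finset.prod_mul_distrib]
  exact sum_pi_prod fun i x => I.p x * W x (y i)

omit [Fintype Y] in
lemma p2_eq (y u : Fin n → Y) : p2 I W y u = ∏ i, q2 I W (y i) (u i) := by
  simp only [p2, q2, pn, wn, ← Finset.prod_mul_distrib]
  exact sum_pi_prod fun i x => I.p x * (W x (y i) * W x (u i))

variable {W}

lemma mgfW (hW0 : ∀ x y, 0 ≤ W x y) (hW1 : ∀ x, ∑ y, W x y = 1) {s : ℝ} (hs : |s| * cC W ≤ 1) :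
    ∑ x : Fin n → X, pn I x * ∑ y, wn W x y * Real.exp (s * ∑ i, -Real.log (W (x i) (y i))) ≤
      Real.exp (n * (s * mu I W + s ^ 2 * cC W ^ 2)) := by
  have a := mgf2 (P := fun t : X × Y => I.p t.1 * W t.1 t.2)
    (fun t => mul_nonneg (I.h0 _) (hW0 _ _))
    (by simp only [Fintype.sum_prod_type, ← Finset.mul_sum, hW1, mul_one, I.h1])
    (fun t => -Real.log (W t.1 t.2)) (C := cC W) (fun t => by
      rw [abs_neg]
      exact (Finset.single_le_sum (f := fun y => |Real.log (W t.1 y)|) (fun _ _ => abs_nonneg _)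
        (Finset.mem_univ t.2)).trans (Finset.single_le_sum (f := fun x => ∑ y, |Real.log (W x y)|)
        (fun _ _ => Finset.sum_nonneg fun _ _ => abs_nonneg _) (Finset.mem_univ t.1))) hs
  simp only [Fintype.sum_prod_type] at a
  rw [Real.exp_nat_mul]
  refine le_trans (le_of_eq ?_) (pow_le_pow_left₀ (Finset.sum_nonneg fun x _ => Finset.sum_nonneg
    fun y _ => mul_nonneg (mul_nonneg (I.h0 _) (hW0 _ _)) (Real.exp_pos _).le) a n)
  rw [← sum_prod_pow]
  simp only [Finset.mul_sum, Real.exp_sum, pn, wn, Finset.prod_mul_distrib, mul_assoc]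

omit [Fintype X] [Fintype Y] in
lemma exp_wn {x : Fin n → X} {y : Fin n → Y} (hW0 : ∀ x y, 0 ≤ W x y) (h : wn W x y ≠ 0) :
    Real.exp (∑ i, -Real.log (W (x i) (y i))) = (wn W x y)⁻¹ := by
  rw [Real.exp_sum, wn, ← Finset.prod_inv_distrib]
  refine Finset.prod_congr rfl fun i _ => ?_
  rw [Real.exp_neg, Real.exp_log (lt_of_le_of_ne (hW0 _ _)
    (Finset.prod_ne_zero_iff.1 h i (Finset.mem_univ i)).symm)]

lemma sum_swap {A B : Type} [Fintype A] [Fintype B] (a : A → ℝ) (b : B → ℝ) (f : A → B → ℝ) :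
    ∑ s, a s * ∑ t, b t * f s t = ∑ t, b t * ∑ s, a s * f s t := by
  simp only [Finset.mul_sum]
  rw [Finset.sum_comm]
  exact Finset.sum_congr rfl fun _ _ => Finset.sum_congr rfl fun _ _ => by ring

variable [DecidableEq Y] [Nonempty Y]

lemma err_le (hW0 : ∀ x y, 0 ≤ W x y) (hW1 : ∀ x, ∑ y, W x y = 1) {s : ℝ} (h0 : 0 < s)
    (h1 : s ≤ 1) (hs : s * cC W ≤ 1) :
    ∑ x : Fin n → X, pn I x * ∑ h : Hs (Fin n → Y) r m,
      un (Hs (Fin n → Y) r m) * err (wn W x) h ≤
      Real.exp (s * (n * mu I W - (r + m) * Real.log 2) + n * s ^ 2 * cC W ^ 2) := by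
  have a := mgfW I (n := n) hW0 hW1 (s := s) (by rwa [abs_of_pos h0])
  refine le_trans ?_ ((mul_le_mul_of_nonneg_left a
    (Real.exp_pos (-(s * ((r + m) * Real.log 2)))).le).trans (le_of_eq ?_))
  · rw [Finset.mul_sum]
    refine Finset.sum_le_sum fun x _ => ?_
    rw [mul_left_comm]
    refine mul_le_mul_of_nonneg_left ?_ (pn_nonneg I _)
    simp only [err]
    rw [sum_swap, Finset.mul_sum]
    refine Finset.sum_le_sum fun y _ => ?_
    rw [mul_left_comm]
    by_cases hy : wn W x y = 0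
    · simp [hy]
    refine mul_le_mul_of_nonneg_left ?_ (wn_nonneg hW0 _ _)
    rw [← Real.exp_add, ← mul_neg, ← mul_add]
    refine min_le_exp h0 h1 ?_ ((avg_err (wn_nonneg hW0 x) (wn_sum hW1 x) hy).trans (le_of_eq ?_))
    · refine le_trans (Finset.sum_le_sum fun h _ => mul_le_of_le_one_right (un_pos _).le ?_)
        (sum_un _).le
      split_ifs <;> norm_num
    · rw [Real.exp_add, exp_wn hW0 hy, Real.exp_neg, ← Nat.cast_add, Real.exp_nat_mul,
        Real.exp_log two_pos, pow_add, one_div, div_eq_mul_inv]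
  · rw [← Real.exp_add]; congr 1; ring

omit [Nonempty Y] in
lemma kl_avg (hM : 0 < M) (hW0 : ∀ x y, 0 ≤ W x y) (hW1 : ∀ x, ∑ y, W x y = 1) {s t : ℝ}
    (h0 : 0 < s) (h1 : s ≤ 1) (hs : s * cC W ≤ 1)
    (hr : r = 0 ∨ r * Real.log 2 ≤ n * mu I W - t) :
    ∑ x : Fin n → X, pn I x * ∑ h : Hs (Fin n → Y) r m,
      un (Hs (Fin n → Y) r m) * kl M (wn W x) h ≤
      m * (2 / M) + Real.exp (-(s * t) + n * s ^ 2 * cC W ^ 2) / s := by
  have b : ∑ x : Fin n → X, pn I x * ∑ h : Hs (Fin n → Y) r m, un (Hs (Fin n → Y) r m) *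
      ∑ y, wn W x y * Real.log (2 ^ r * mass (wn W x) (fun u => (h u).1) (h y).1) ≤
      Real.exp (-(s * t) + n * s ^ 2 * cC W ^ 2) / s := by
    rcases hr with rfl | hr
    · refine le_trans (Finset.sum_nonpos fun x _ => mul_nonpos_of_nonneg_of_nonpos (pn_nonneg I _)
        (Finset.sum_nonpos fun h _ => mul_nonpos_of_nonneg_of_nonpos (un_pos _).le
        (Finset.sum_nonpos fun y _ => mul_nonpos_of_nonneg_of_nonpos (wn_nonneg hW0 _ _) ?_)))
        (by positivity)
      rw [pow_zero, one_mul]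
      exact Real.log_nonpos (mass_nonneg (wn_nonneg hW0 x) _ _)
        (mass_le_one (wn_nonneg hW0 x) (wn_sum hW1 x) _ _)
    have a := mgfW I (n := n) hW0 hW1 (s := -s) (by rwa [abs_neg, abs_of_pos h0])
    refine le_trans ?_ ((mul_le_mul_of_nonneg_left a
      (div_pos (Real.exp_pos (s * (r * Real.log 2))) h0).le).trans ?_)
    · rw [Finset.mul_sum]
      refine Finset.sum_le_sum fun x _ => ?_
      rw [mul_left_comm]
      refine mul_le_mul_of_nonneg_left ?_ (pn_nonneg I _)
      rw [sum_swap, Finset.mul_sum]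
      refine Finset.sum_le_sum fun y _ => ?_
      rw [mul_left_comm]
      by_cases hy : wn W x y = 0
      · simp [hy]
      refine mul_le_mul_of_nonneg_left ((avg_log (wn_nonneg hW0 x) (wn_sum hW1 x) hy).trans ?_)
        (wn_nonneg hW0 _ _)
      have e : 2 ^ r * wn W x y =
          Real.exp (r * Real.log 2 - ∑ i, -Real.log (W (x i) (y i))) := by
        rw [Real.exp_sub, exp_wn hW0 hy, Real.exp_nat_mul, Real.exp_log two_pos, div_inv_eq_mul]
      rw [e]
      refine (log_one_add_exp_le h0 h1 _).trans (le_of_eq ?_)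
      rw [div_mul_eq_mul_div, ← Real.exp_add]
      congr 2
      ring
    · rw [div_mul_eq_mul_div, ← Real.exp_add]
      refine div_le_div_of_nonneg_right (Real.exp_le_exp.2 ?_) h0.le
      nlinarith [mul_le_mul_of_nonneg_left hr h0.le]
  refine le_trans ?_ (add_le_add le_rfl b)
  refine le_trans ?_ (add_comm _ _).le
  simpa only [mul_one] using sum_le_add (a := 1) (pn_nonneg I) (pn_sum I) fun x => by
    simpa only [mul_one] using sum_le_add (a := 1) (fun _ => (un_pos _).le) (sum_un _) fun h => by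
      rw [mul_one, add_comm]
      exact kl_le hM (wn_nonneg hW0 x) (wn_sum hW1 x) h

omit [DecidableEq Y] [Nonempty Y] in
lemma pair_le (hW0 : ∀ x y, 0 ≤ W x y) (hW1 : ∀ x, ∑ y, W x y = 1) {δ : ℝ} (hδ : 0 < δ) :
    ∃ s : ℝ, 0 < s ∧ ∀ (n : ℕ) (T : ℝ), 0 < T →
      ∑ x : Fin n → X, pn I x * ∑ y, wn W x y * ∑ u, wn W x u *
        Real.log (1 + T * (p2 I W y u / p1 I W y)) ≤
      Real.exp (s * (Real.log T - n * (eta I W - δ))) / s := by
  have hp : ∀ t : X × Y × Y, 0 ≤ I.p t.1 * (W t.1 t.2.1 * W t.1 t.2.2) := fun t =>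
    mul_nonneg (I.h0 _) (mul_nonneg (hW0 _ _) (hW0 _ _))
  obtain ⟨s, h0, h1, a⟩ := exists_mgf hp
    (by simp only [Fintype.sum_prod_type, ← Finset.mul_sum, hW1, mul_one, I.h1])
    (fun t => Real.log (q2 I W t.2.1 t.2.2 / q1 I W t.2.1)) hδ
  simp only [Fintype.sum_prod_type (α₁ := X)] at a
  refine ⟨s, h0, fun n T hT => ?_⟩
  have b := pow_le_pow_left₀ (Finset.sum_nonneg fun x _ => Finset.sum_nonneg
    fun o _ => mul_nonneg (hp (x, o)) (Real.exp_pos _).le) a n
  rw [← sum_prod_pow, ← Real.exp_nat_mul] at b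
  refine le_trans ?_ ((mul_le_mul_of_nonneg_left b
    (div_pos (Real.exp_pos (s * Real.log T)) h0).le).trans (le_of_eq ?_))
  · rw [Finset.mul_sum]
    refine Finset.sum_le_sum fun x _ => ?_
    rw [← (Equiv.arrowProdEquivProdArrow (Fin n) (fun _ => Y) fun _ => Y).symm.sum_comp,
      Fintype.sum_prod_type, Finset.mul_sum, Finset.mul_sum]
    refine Finset.sum_le_sum fun y _ => ?_
    rw [Finset.mul_sum, Finset.mul_sum, Finset.mul_sum]
    refine Finset.sum_le_sum fun u _ => ?_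
    simp only [Equiv.arrowProdEquivProdArrow, Equiv.coe_fn_symm_mk, Finset.prod_mul_distrib]
    by_cases h : ∏ i, I.p (x i) * (W (x i) (y i) * W (x i) (u i)) = 0
    · simp only [Finset.prod_mul_distrib] at h
      rw [h, ← mul_assoc, ← mul_assoc, mul_assoc (pn I x)]
      simp only [pn, wn, h, zero_mul, mul_zero, le_refl]
    have h2 : ∀ i, 0 < I.p (x i) * (W (x i) (y i) * W (x i) (u i)) := fun i =>
      lt_of_le_of_ne (hp (x i, y i, u i)) (Finset.prod_ne_zero_iff.1 h i (Finset.mem_univ i)).symm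
    have h3 : ∀ i, 0 < q2 I W (y i) (u i) := fun i => (h2 i).trans_le
      (Finset.single_le_sum (fun x' _ => hp (x', y i, u i)) (Finset.mem_univ (x i)))
    have h4 : ∀ i, 0 < q1 I W (y i) := fun i => by
      refine lt_of_lt_of_le ?_ (Finset.single_le_sum (f := fun x' => I.p x' * W x' (y i))
        (fun x' _ => mul_nonneg (I.h0 _) (hW0 _ _)) (Finset.mem_univ (x i)))
      refine lt_of_le_of_ne (mul_nonneg (I.h0 _) (hW0 _ _)) fun e => (h2 i).ne' ?_
      rw [← mul_assoc, ← e, zero_mul]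
    have e : T * (p2 I W y u / p1 I W y) =
        Real.exp (Real.log T + ∑ i, Real.log (q2 I W (y i) (u i) / q1 I W (y i))) := by
      rw [Real.exp_add, Real.exp_log hT, Real.exp_sum, p1_eq, p2_eq, ← Finset.prod_div_distrib]
      congr 1
      exact Finset.prod_congr rfl fun i _ => (Real.exp_log (div_pos (h3 i) (h4 i))).symm
    have c := mul_le_mul_of_nonneg_left (log_one_add_exp_le h0 h1
      (Real.log T + ∑ i, Real.log (q2 I W (y i) (u i) / q1 I W (y i))))
      (mul_nonneg (pn_nonneg I x) (mul_nonneg (wn_nonneg hW0 x y) (wn_nonneg hW0 x u)))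
    rw [mul_add, Real.exp_add (s * _), Finset.mul_sum, Real.exp_sum] at c
    rw [e]
    simp only [pn, wn] at c ⊢
    exact le_trans (le_of_eq (by ring)) (c.trans (le_of_eq (by ring)))
  · rw [div_mul_eq_mul_div, ← Real.exp_add]
    congr 2
    simp only [eta, mul_neg, Finset.sum_neg_distrib]
    ring

end Pool.Agent.Lib.MP_426fec_lc.Gen
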