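import Pool.Agent.Lib.MP_426fec_lc.Gen7

/-! Choice of the parameters. -/

set_option autoImplicit false

namespace Pool.Agent.Lib.MP_426fec_lc.Gen

open Finset Filter Topology

lemma card_Al {b : ℕ} (hb : 1 ≤ b) : Fintype.card (Al (7 * b ^ 5) (4 ^ b)) ≤ 2 ^ (100 * b ^ 6) := by
  have h1 : 4 ^ b + 2 ≤ 2 ^ (4 * b) := by
    have : 2 ≤ 4 ^ b := le_trans (by norm_num) (Nat.pow_le_pow_right (by norm_num) hb)
    have e : 2 ^ (4 * b) = 4 ^ b * 4 ^ b := by rw [← mul_pow, pow_mul]; norm_num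
    nlinarith
  have h5 : 1 ≤ b ^ 5 := Nat.one_le_pow _ _ hb
  have h6 : b ^ 5 ≤ b ^ 6 := Nat.pow_le_pow_right hb (by norm_num)
  simp only [Fintype.card_prod, Fintype.card_fun, Fintype.card_fin, Fintype.card_bool, ZMod.card]
  calc _ ≤ (2 ^ (4 * b)) ^ (7 * b ^ 5) * (((2 ^ (4 * b)) ^ 2) ^ (7 * b ^ 5 + 1) *
        (2 ^ (7 * b ^ 5) * 2 ^ 1)) := by gcongr <;> omega
    _ = 2 ^ (4 * b * (7 * b ^ 5) + 4 * b * 2 * (7 * b ^ 5 + 1) + 7 * b ^ 5 + 1) := by
        simp only [← pow_mul, ← pow_add, add_assoc]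
    _ ≤ _ := Nat.pow_le_pow_right (by norm_num) (by
        have : b ≤ b ^ 6 := Nat.le_self_pow (by norm_num) b
        have e : b * b ^ 5 = b ^ 6 := by ring
        nlinarith)

lemma sum_lin {A B : Type} [Fintype A] [Fintype B] {a : A → ℝ} {b : B → ℝ} (ha : ∑ s, a s = 1)
    (hb : ∑ t, b t = 1) (f g : A → B → ℝ) (c : ℝ) :
    ∑ s, a s * ∑ t, b t * (2 * (c + f s t / c + g s t)) =
      2 * (c + (∑ s, a s * ∑ t, b t * f s t) / c + ∑ s, a s * ∑ t, b t * g s t) := by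
  simp only [mul_add, Finset.sum_add_distrib, ← Finset.sum_mul, ha, hb, one_mul,
    mul_left_comm _ (2 : ℝ), ← mul_div_assoc, ← Finset.sum_div, ← Finset.mul_sum]

variable {X Y : Type} [Fintype X] [DecidableEq X] [Fintype Y] [DecidableEq Y] [Nonempty Y]
  (I : Inp X) {W : X → Y → ℝ}

omit [DecidableEq X] [DecidableEq Y] [Nonempty Y] in
lemma mu_nonneg (hW0 : ∀ x y, 0 ≤ W x y) (hW1 : ∀ x, ∑ y, W x y = 1) : 0 ≤ mu I W := by
  refine Finset.sum_nonneg fun x _ => Finset.sum_nonneg fun y _ =>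
    mul_nonneg (mul_nonneg (I.h0 _) (hW0 _ _)) (neg_nonneg.2 (Real.log_nonpos (hW0 _ _) ?_))
  rw [← hW1 x]
  exact Finset.single_le_sum (fun y _ => hW0 x y) (Finset.mem_univ y)

omit [DecidableEq X] in
lemma bounds (hW0 : ∀ x y, 0 ≤ W x y) (hW1 : ∀ x, ∑ y, W x y = 1) {n b r : ℕ} (hb : 1 ≤ b)
    (hn : (n : ℝ) ≤ 256 * b ^ 8) (hC : cC W ≤ b ^ 4)
    (hr : r = ⌊(n * mu I W - 2 * b ^ 5) / Real.log 2⌋₊) :
    ∑ x : Fin n → X, pn I x * ∑ h : Hs (Fin n → Y) r (7 * b ^ 5),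
      un (Hs (Fin n → Y) r (7 * b ^ 5)) * err (wn W x) h ≤ Real.exp (256 * cC W ^ 2) / 4 ^ b ∧
    ∑ x : Fin n → X, pn I x * ∑ h : Hs (Fin n → Y) r (7 * b ^ 5),
      un (Hs (Fin n → Y) r (7 * b ^ 5)) * kl (4 ^ b) (wn W x) h ≤
        (14 + Real.exp (256 * cC W ^ 2)) * b ^ 5 / 4 ^ b := by
  have hb1 : (1 : ℝ) ≤ b := by exact_mod_cast hb
  have hl := Real.log_two_gt_d9
  have s0 : (0 : ℝ) < 1 / b ^ 4 := by positivity
  have s1 : (1 : ℝ) / b ^ 4 ≤ 1 := by rw [div_le_one (by positivity)]; exact one_le_pow₀ hb1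
  have s2 : (1 : ℝ) / b ^ 4 * cC W ≤ 1 := by
    rw [one_div_mul_eq_div, div_le_one (by positivity)]; exact hC
  have s3 : n * ((1 : ℝ) / b ^ 4) ^ 2 * cC W ^ 2 ≤ 256 * cC W ^ 2 := by
    refine mul_le_mul_of_nonneg_right ?_ (sq_nonneg _)
    rw [one_div_pow, mul_one_div, div_le_iff₀ (by positivity), ← pow_mul]
    exact hn
  have s4 : ∀ t : ℝ, t ≤ -(2 * b) + 256 * cC W ^ 2 →
      Real.exp t ≤ Real.exp (256 * cC W ^ 2) / 4 ^ b := by
    intro t ht
    refine (Real.exp_le_exp.2 ht).trans ?_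
    rw [Real.exp_add, Real.exp_neg, inv_mul_eq_div, mul_comm 2, Real.exp_nat_mul]
    gcongr
    have := Real.add_one_le_exp (1 : ℝ)
    rw [show (2 : ℝ) = 1 + 1 by norm_num, Real.exp_add]
    nlinarith
  have s5 : (1 : ℝ) / b ^ 4 * (2 * b ^ 5) = 2 * b := by field_simp
  have b5 : (1 : ℝ) ≤ b ^ 5 := one_le_pow₀ hb1
  constructor
  · refine (err_le I hW0 hW1 s0 s1 s2).trans (s4 _ ?_)
    have a := Nat.lt_floor_add_one ((n * mu I W - 2 * b ^ 5) / Real.log 2)
    rw [← hr, div_lt_iff₀ (by linarith)] at a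
    have c : n * mu I W - (r + ((7 * b ^ 5 : ℕ) : ℝ)) * Real.log 2 ≤ -(2 * b ^ 5) := by
      push_cast
      nlinarith
    have := mul_le_mul_of_nonneg_left c s0.le
    linarith
  · refine (kl_avg I (by positivity) hW0 hW1 (t := 2 * b ^ 5) s0 s1 s2 ?_).trans ?_
    · rcases le_total ((n * mu I W - 2 * b ^ 5) / Real.log 2) 0 with h | h
      · exact Or.inl (hr.trans (Nat.floor_of_nonpos h))
      · refine Or.inr ?_
        rw [← le_div_iff₀ (by linarith), hr]
        exact Nat.floor_le h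
    · have a := s4 (-(1 / b ^ 4 * (2 * b ^ 5)) + n * ((1 : ℝ) / b ^ 4) ^ 2 * cC W ^ 2) (by linarith)
      have c : (b : ℝ) ^ 4 ≤ b ^ 5 := pow_le_pow_right₀ hb1 (by norm_num)
      rw [div_div_eq_mul_div, div_one]
      push_cast
      calc _ ≤ 7 * (b : ℝ) ^ 5 * (2 / 4 ^ b) + Real.exp (256 * cC W ^ 2) / 4 ^ b * b ^ 5 := by
            gcongr
        _ = _ := by ring

theorem achieve (hW0 : ∀ x y, 0 ≤ W x y) (hW1 : ∀ x, ∑ y, W x y = 1) {ρ : ℝ} (hρ : 0 ≤ ρ)
    (hlt : ρ * Real.log 2 < eta I W - mu I W) : Achievable W ρ := by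
  obtain ⟨δ, hδ⟩ : ∃ δ, δ = (eta I W - mu I W - ρ * Real.log 2) / 3 := ⟨_, rfl⟩
  have hδ0 : 0 < δ := by linarith
  obtain ⟨s, hs, hpair⟩ := pair_le I hW0 hW1 hδ0
  obtain ⟨K, hK⟩ : ∃ K, K = Real.exp (256 * cC W ^ 2) := ⟨_, rfl⟩
  have hK0 : 0 < K := hK ▸ Real.exp_pos _
  have hl := Real.log_two_gt_d9
  have hl' := Real.log_two_lt_d9
  have hμ := mu_nonneg I hW0 hW1
  let b : ℕ → ℕ := Nat.nthRoot 8
  let k : ℕ → ℕ := fun n => ⌊ρ * n⌋₊
  let r : ℕ → ℕ := fun n => ⌊(n * mu I W - 2 * b n ^ 5) / Real.log 2⌋₊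
  let π : ∀ n, Protocol X Y (k n) := fun n => prot I W n (k n) (r n) (7 * b n ^ 5) (4 ^ b n)
  have tb : Tendsto b atTop atTop := tendsto_atTop.2 fun B =>
    (eventually_ge_atTop (B ^ 8)).mono fun n hn => (Nat.le_nthRoot_iff (by norm_num)).2 hn
  have tb' : Tendsto (fun n => (b n : ℝ)) atTop atTop := tendsto_natCast_atTop_atTop.comp tb
  have ev : ∀ᶠ n in atTop, 1 ≤ b n ∧ (b n : ℝ) ^ 8 ≤ n ∧ (n : ℝ) ≤ 256 * b n ^ 8 ∧
      cC W ≤ b n ^ 4 ∧ 102 ≤ δ * b n ^ 2 := by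
    filter_upwards [tb.eventually_ge_atTop 1, tb'.eventually_ge_atTop (cC W),
      tb'.eventually_ge_atTop (102 / δ)] with n h1 h2 h3
    have h4 : (1 : ℝ) ≤ b n := by exact_mod_cast h1
    refine ⟨h1, by exact_mod_cast Nat.pow_nthRoot_le_iff.2 (Or.inl (by norm_num)), ?_,
      h2.trans (le_self_pow₀ h4 (by norm_num)), ?_⟩
    · have h5 : (n : ℝ) ≤ (b n + 1) ^ 8 := by
        exact_mod_cast (Nat.lt_pow_nthRoot_add_one (by norm_num) n).le
      calc (n : ℝ) ≤ (2 * b n) ^ 8 := h5.trans (by gcongr; linarith)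
        _ = _ := by ring
    · rw [div_le_iff₀' hδ0] at h3
      exact h3.trans (mul_le_mul_of_nonneg_left (le_self_pow₀ h4 (by norm_num)) hδ0.le)
  have lim : ∀ (c : ℝ) (j : ℕ) (a : ℝ), 1 < a →
      Tendsto (fun n => c * (b n : ℝ) ^ j / a ^ b n) atTop (𝓝 0) := fun c j a ha => by
    have := ((tendsto_pow_const_div_const_pow_of_one_lt j ha).comp tb).const_mul c
    simpa only [mul_zero, Function.comp_def, mul_div_assoc] using this
  have hleak : ∀ z, Tendsto (fun n => (π n).leakB W n z) atTop (𝓝 0) := by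
    intro z
    have t := (((lim (2 * (15 + 2 * K) * (102 + 256 * ρ)) 13 2 (by norm_num)).add
      (lim (2 / s) 0 (Real.exp (s * δ)) (Real.one_lt_exp_iff.2 (by positivity)))).add
      (lim 1 0 2 (by norm_num))).div_const (Real.log 2)
    simp only [add_zero, zero_div, pow_zero, mul_one] at t
    refine squeeze_zero' (Eventually.of_forall fun n => ?_) (ev.mono fun n h => ?_) t
    · unfold Protocol.leakB
      rw [(π n).condOn_eq hW1]
      exact mi_nonneg ((π n).Pz_nonneg hW0 n z) ((π n).Pz_sum hW1 n z) _ _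
    obtain ⟨h1, h2, h3, h4, h5⟩ := h
    obtain ⟨a1, a2⟩ := bounds I hW0 hW1 h1 h3 h4 rfl
    rw [← hK] at a1 a2
    have hb : (1 : ℝ) ≤ b n := by exact_mod_cast h1
    have k1 : (k n : ℝ) ≤ ρ * n := Nat.floor_le (by positivity)
    have r1 : r n * Real.log 2 ≤ n * mu I W := by
      rcases le_total ((n * mu I W - 2 * b n ^ 5) / Real.log 2) 0 with h | h
      · rw [show r n = 0 from Nat.floor_of_nonpos h, Nat.cast_zero, zero_mul]; positivity
      · have := Nat.floor_le h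
        rw [le_div_iff₀ (by linarith)] at this
        exact this.trans (sub_le_self _ (by positivity))
    rw [le_div_iff₀ (by linarith)]
    refine (leakB_le I (by positivity) hW0 hW1 z (l := 2 ^ (101 * b n ^ 6)) (γ := 1 / 2 ^ b n)
      (by positivity) (by positivity)).trans (add_le_add (add_le_add ?_ ?_) ?_)
    · rw [sum_lin (pn_sum I) (sum_un _)]
      have c1 : Real.log (1 + 2 ^ (101 * b n ^ 6) * 2 ^ k n) ≤ (102 + 256 * ρ) * b n ^ 8 := by
        have : (1 : ℝ) ≤ 2 ^ (101 * b n ^ 6) * 2 ^ k n :=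
          one_le_mul_of_one_le_of_one_le (one_le_pow₀ one_le_two) (one_le_pow₀ one_le_two)
        refine (Real.log_le_log (by positivity)
          (show _ ≤ (2 : ℝ) ^ (1 + (101 * b n ^ 6 + k n)) by rw [pow_add, pow_add]; linarith)).trans ?_
        rw [Real.log_pow]
        push_cast
        have d1 : (b n : ℝ) ^ 6 ≤ b n ^ 8 := pow_le_pow_right₀ hb (by norm_num)
        have d2 : (1 : ℝ) ≤ b n ^ 8 := one_le_pow₀ hb
        have d3 := mul_le_mul_of_nonneg_left h3 hρ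
        refine (mul_le_of_le_one_right (by positivity) (by linarith)).trans (by linarith)
      have c0 : 0 ≤ Real.log (1 + 2 ^ (101 * b n ^ 6) * 2 ^ k n) :=
        Real.log_nonneg (le_add_of_nonneg_right (by positivity))
      have e4 : (4 : ℝ) ^ b n = 2 ^ b n * 2 ^ b n := by rw [← mul_pow]; norm_num
      have d2 : (1 : ℝ) ≤ b n ^ 5 := one_le_pow₀ hb
      have d4 : (1 : ℝ) ≤ 2 ^ b n := one_le_pow₀ one_le_two
      have c2 : K / 4 ^ b n ≤ K * b n ^ 5 / 2 ^ b n := by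
        rw [e4]; gcongr; exacts [by nlinarith, by nlinarith]
      have c3 : (1 : ℝ) / 2 ^ b n ≤ b n ^ 5 / 2 ^ b n := by gcongr
      have c4 := div_le_div_of_nonneg_right a2 (show (0 : ℝ) ≤ 1 / 2 ^ b n by positivity)
      rw [show (14 + K) * (b n : ℝ) ^ 5 / 4 ^ b n / (1 / 2 ^ b n) =
        (14 + K) * b n ^ 5 / 2 ^ b n by rw [e4]; field_simp] at c4
      calc _ ≤ (2 * (15 + 2 * K) * b n ^ 5 / 2 ^ b n) *
            Real.log (1 + 2 ^ (101 * b n ^ 6) * 2 ^ k n) := by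
            refine mul_le_mul_of_nonneg_right ?_ c0
            simp only [mul_div_assoc] at *
            linarith
        _ ≤ (2 * (15 + 2 * K) * b n ^ 5 / 2 ^ b n) * ((102 + 256 * ρ) * b n ^ 8) := by gcongr
        _ = _ := by ring
    · simp only [← mul_assoc (_ * 2 ^ k n : ℝ)]
      refine (mul_le_mul_of_nonneg_left (hpair n _ (by positivity)) zero_le_two).trans ?_
      rw [← Real.exp_nat_mul, div_right_comm, mul_div_assoc', div_eq_mul_inv 2, ← Real.exp_neg]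
      gcongr
      rw [Real.log_mul (by positivity) (by positivity), Real.log_mul (by positivity) (by positivity),
        Real.log_mul (by positivity) (by positivity), Real.log_pow, Real.log_pow, Real.log_pow,
        mul_left_comm, ← mul_neg]
      refine mul_le_mul_of_nonneg_left ?_ hs.le
      push_cast
      have d1 : (1 : ℝ) ≤ b n ^ 6 := one_le_pow₀ hb
      have d2 : (b n : ℝ) ≤ b n ^ 8 := le_self_pow₀ hb (by norm_num)
      have d3 := mul_le_mul_of_nonneg_right h5 (show (0 : ℝ) ≤ b n ^ 6 by positivity)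
      have d4 := mul_le_mul_of_nonneg_left h2 hδ0.le
      have d5 := mul_le_mul_of_nonneg_left d2 hδ0.le
      have d6 := mul_le_mul_of_nonneg_right k1 (show 0 ≤ Real.log 2 by linarith)
      have d7 : n * (eta I W - δ) = n * mu I W + ρ * n * Real.log 2 + 2 * (δ * n) := by
        rw [hδ]; ring
      nlinarith
    · have := card_Al h1
      rw [div_le_div_iff₀ (by positivity) (by positivity), one_mul]
      have d : b n ≤ b n ^ 6 := Nat.le_self_pow (by norm_num) _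
      exact_mod_cast (Nat.mul_le_mul_right _ this).trans (by
        rw [← pow_add]; exact Nat.pow_le_pow_right (by norm_num) (by omega))
  refine ⟨k, π, (tendsto_nat_floor_mul_div_atTop hρ).comp tendsto_natCast_atTop_atTop, ?_, ?_,
    hleak false, hleak true⟩
  · refine squeeze_zero' (Eventually.of_forall fun n => ?_) (ev.mono fun n h => ?_)
      (lim K 0 4 (by norm_num))
    · linarith [(π n).errz_add W n, (π n).errz_nonneg hW0 n false, (π n).errz_nonneg hW0 n true]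
    · have a := (bounds I hW0 hW1 h.1 h.2.2.1 h.2.2.2.1 rfl).1
      have a0 := (errz_le I (k := k n) (M := 4 ^ b n) hW0 false).trans a
      have a1 := (errz_le I (k := k n) (M := 4 ^ b n) hW0 true).trans a
      rw [pow_zero, mul_one, hK]
      linarith [(π n).errz_add W n]
  · refine squeeze_zero' (Eventually.of_forall fun n =>
      mi_nonneg ((π n).law_nonneg hW0 n) ((π n).law_sum hW1 n) _ _) (ev.mono fun n h => ?_)
      (lim ((14 + K) / Real.log 2) 5 4 (by norm_num))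
    have a := (leakA_le I (k := k n) (by positivity) hW0 hW1).trans
      (bounds I hW0 hW1 h.1 h.2.2.1 h.2.2.2.1 rfl).2
    rw [← le_div_iff₀ (by linarith), ← hK] at a
    exact a.trans (le_of_eq (by ring))

end Pool.Agent.Lib.MP_426fec_lc.Gen
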