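import Pool.Agent.Lib.MP_426fec_lc.Gen8

/-! The lower bound in terms of mutual information. -/

set_option autoImplicit false

namespace Pool.Agent.Lib.MP_426fec_lc.Gen

open Finset

variable {X Y : Type} [Fintype X] [Fintype Y] (I : Inp X) {W : X → Y → ℝ}

lemma mi_sub_mi (hW0 : ∀ x y, 0 ≤ W x y) (hW1 : ∀ x, ∑ y, W x y = 1) :
    (mi (fun ω : X × Y × Y => I.p ω.1 * W ω.1 ω.2.1 * W ω.1 ω.2.2) (fun ω => ω.1) (fun ω => ω.2.1) -
      mi (fun ω : X × Y × Y => I.p ω.1 * W ω.1 ω.2.1 * W ω.1 ω.2.2) (fun ω => ω.2.1)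
        (fun ω => ω.2.2)) * Real.log 2 = eta I W - mu I W := by
  classical
  obtain ⟨p, hp⟩ : ∃ p, p = fun ω : X × Y × Y => I.p ω.1 * W ω.1 ω.2.1 * W ω.1 ω.2.2 := ⟨_, rfl⟩
  rw [← hp, sub_mul, mi_eq, mi_eq]
  have m1 : ∀ a, mass p (fun ω => ω.1) a = I.p a := fun a => by
    simp [mass_eq, hp, Fintype.sum_prod_type, ← Finset.mul_sum, hW1]
  have m2 : ∀ a, mass p (fun ω => (ω.1, ω.2.1)) a = I.p a.1 * W a.1 a.2 := fun a => by
    simp [mass_eq, hp, Fintype.sum_prod_type, ← Finset.mul_sum, hW1, Prod.ext_iff, ite_and]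
  have m3 : ∀ a, mass p (fun ω => ω.2.2) a = q1 I W a := fun a => by
    simp [mass_eq, hp, Fintype.sum_prod_type, ← Finset.mul_sum, ← Finset.sum_mul, hW1, q1]
  have m4 : ∀ a, mass p (fun ω => (ω.2.1, ω.2.2)) a = q2 I W a.1 a.2 := fun a => by
    simp [mass_eq, hp, Fintype.sum_prod_type, q2, Prod.ext_iff, ite_and, mul_assoc]
  have e1 : H p (fun ω => (ω.1, ω.2.1)) - H p (fun ω => ω.1) = mu I W := by
    simp only [H, m1, m2, mu, ← Finset.sum_sub_distrib, Fintype.sum_prod_type]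
    refine Finset.sum_congr rfl fun x _ => Finset.sum_congr rfl fun y _ => ?_
    simp only [hp, ← mul_sub, ← Finset.mul_sum, ← Finset.sum_mul, hW1]
    by_cases h : I.p x * W x y = 0
    · rcases mul_eq_zero.1 h with h | h <;> simp [h]
    · rw [Real.log_mul (mul_ne_zero_iff.1 h).1 (mul_ne_zero_iff.1 h).2]; ring
  have e2 : H p (fun ω => (ω.2.1, ω.2.2)) - H p (fun ω => ω.2.2) = eta I W := by
    have : H p (fun ω => ω.2.2) = ∑ ω, p ω * -Real.log (q1 I W ω.2.1) := by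
      simp only [H, m3, Fintype.sum_prod_type]
      simp only [hp]
      refine Finset.sum_congr rfl fun x _ => ?_
      rw [Finset.sum_comm]
      exact Finset.sum_congr rfl fun y _ => Finset.sum_congr rfl fun u _ => by ring
    rw [this]
    simp only [H, m4, eta, ← Finset.sum_sub_distrib, Fintype.sum_prod_type (α₁ := X)]
    refine Finset.sum_congr rfl fun x _ => Finset.sum_congr rfl fun o _ => ?_
    simp only [hp, ← mul_assoc]
    by_cases h : I.p x * W x o.1 * W x o.2 = 0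
    · simp [h]
    have h3 : 0 < q2 I W o.1 o.2 := lt_of_lt_of_le (lt_of_le_of_ne
      (mul_nonneg (I.h0 _) (mul_nonneg (hW0 _ _) (hW0 _ _))) (by rw [← mul_assoc]; exact Ne.symm h))
      (Finset.single_le_sum (f := fun x' => I.p x' * (W x' o.1 * W x' o.2))
        (fun x' _ => mul_nonneg (I.h0 _) (mul_nonneg (hW0 _ _) (hW0 _ _))) (Finset.mem_univ x))
    have h4 : 0 < q1 I W o.1 := lt_of_lt_of_le (lt_of_le_of_ne
      (mul_nonneg (I.h0 _) (hW0 _ _)) (Ne.symm (mul_ne_zero_iff.1 h).1))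
      (Finset.single_le_sum (f := fun x' => I.p x' * W x' o.1)
        (fun x' _ => mul_nonneg (I.h0 _) (hW0 _ _)) (Finset.mem_univ x))
    rw [Real.log_div h3.ne' h4.ne']
    ring
  linarith

theorem le_cap (hW0 : ∀ x y, 0 ≤ W x y) (hW1 : ∀ x, ∑ y, W x y = 1) {P : X → ℝ}
    (hP0 : ∀ x, 0 ≤ P x) (hP1 : ∑ x, P x = 1) :
    mi (fun ω : X × Y × Y => P ω.1 * W ω.1 ω.2.1 * W ω.1 ω.2.2) (fun ω => ω.1) (fun ω => ω.2.1) -
      mi (fun ω : X × Y × Y => P ω.1 * W ω.1 ω.2.1 * W ω.1 ω.2.2) (fun ω => ω.2.1)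
        (fun ω => ω.2.2) ≤ otCapacity W := by
  classical
  have hX : Nonempty X := by
    by_contra h
    rw [not_nonempty_iff] at h
    simp at hP1
  have hY : Nonempty Y := by
    by_contra h
    rw [not_nonempty_iff] at h
    simpa using hW1 hX.some
  have e := mi_sub_mi ⟨P, hP0, hP1, hX.some⟩ hW0 hW1
  have hnn : 0 ≤ otCapacity W := Real.sSup_nonneg fun R hR => by
    obtain ⟨k, π, hk, -⟩ := hR
    exact ge_of_tendsto' hk fun n => by positivity
  refine le_of_forall_lt_imp_le_of_dense fun ρ hρ => ?_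
  rcases lt_or_ge ρ 0 with h | h
  · exact h.le.trans hnn
  · refine le_csSup (bddAbove_achievable hW0 hW1) (achieve ⟨P, hP0, hP1, hX.some⟩ hW0 hW1 h ?_)
    rw [← e]
    exact mul_lt_mul_of_pos_right hρ (Real.log_pos one_lt_two)

end Pool.Agent.Lib.MP_426fec_lc.Gen
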