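import Pool.Agent.Lib.MP_426fec_lc.Entropy

set_option autoImplicit false

namespace Pool.Agent.Lib.MP_426fec_lc

open Finset

namespace Protocol

variable {X Y Q : Type} {k : ℕ} (π : Protocol X Y k)

lemma gap_rect {a a' : Key k × Key k × π.M} {b b' : Bool × π.N} {ys ys' : List Y}
    {f f' : List π.Msg} (h : π.gap a b ys f = π.gap a' b' ys' f') :
    f = f' ∧ π.gap a b' ys' f = π.gap a b ys f := by
  unfold gap at h ⊢
  generalize π.r = r at h ⊢
  induction r with
  | zero => exact ⟨h, rfl⟩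
  | succ r ih =>
    simp only [Function.iterate_succ_apply', List.cons.injEq] at h ⊢
    obtain ⟨h1, h2, h3⟩ := h
    obtain ⟨e1, e2⟩ := ih h3
    refine ⟨e1, ?_, ?_, e2⟩
    · rw [e2, h1, h2, h3]
    · rw [e2]

lemma trans_rect {a a' : Key k × Key k × π.M} {b b' : Bool × π.N} :
    ∀ {ys ys' : List Y}, ys.length = ys'.length → π.trans a b ys = π.trans a' b' ys' →
      π.trans a b' ys' = π.trans a b ys ∧ π.inputs a b' ys' = π.inputs a b ys
  | [], [], _, h => ⟨(π.gap_rect h).2, rfl⟩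
  | [], _ :: _, hl, _ => by simp at hl
  | _ :: _, [], hl, _ => by simp at hl
  | y :: ys, y' :: ys', hl, h => by
    have hl' : ys.length = ys'.length := by simpa using hl
    obtain ⟨e1, e2⟩ := π.gap_rect h
    obtain ⟨e3, e4⟩ := trans_rect hl' e1
    refine ⟨?_, ?_⟩
    · simp only [trans]; rw [e3]; exact e2
    · simp only [inputs, nextIn]; rw [e3, e4, hl']

lemma comm_rect {n : ℕ} {a a' : Key k × Key k × π.M} {c c' : (Bool × π.N) × (Fin n → Y)}
    (h : π.comm n (a, c) = π.comm n (a', c')) :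
    π.comm n (a, c') = π.comm n (a, c) ∧
      π.inputs a c'.1 (List.ofFn c'.2) = π.inputs a c.1 (List.ofFn c.2) :=
  π.trans_rect (by simp) h

/-- A causal product of weights. -/
def cw (w : X → Y → Q → ℝ) (a : Key k × Key k × π.M) (b : Bool × π.N) : List Y → List Q → ℝ
  | y :: ys, q :: qs => w (π.nextIn a b ys) y q * cw w a b ys qs
  | _, _ => 1

/-- A causal sum of scores. -/
def cs (g : X → Y → Q → ℝ) (a : Key k × Key k × π.M) (b : Bool × π.N) : List Y → List Q → ℝ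
  | y :: ys, q :: qs => g (π.nextIn a b ys) y q + cs g a b ys qs
  | _, _ => 0

end Protocol

lemma sum_succ_ofFn {Y : Type} [Fintype Y] (n : ℕ) (φ : List Y → ℝ) :
    ∑ y : Fin (n + 1) → Y, φ (List.ofFn y) = ∑ y : Fin n → Y, ∑ y0, φ (y0 :: List.ofFn y) := by
  rw [← (Fin.consEquiv fun _ : Fin (n + 1) => Y).sum_comp, Fintype.sum_prod_type, Finset.sum_comm]
  refine Finset.sum_congr rfl fun y _ => Finset.sum_congr rfl fun y0 _ => ?_
  simp [Fin.consEquiv, List.ofFn_succ]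

lemma sum_succ_ofFn2 {Y Q : Type} [Fintype Y] [Fintype Q] (n : ℕ) (φ : List Y → List Q → ℝ) :
    ∑ y : Fin (n + 1) → Y, ∑ q : Fin (n + 1) → Q, φ (List.ofFn y) (List.ofFn q) =
      ∑ y : Fin n → Y, ∑ q : Fin n → Q, ∑ y0, ∑ q0, φ (y0 :: List.ofFn y) (q0 :: List.ofFn q) := by
  rw [sum_succ_ofFn n (fun ys => ∑ q : Fin (n + 1) → Q, φ ys (List.ofFn q))]
  refine Finset.sum_congr rfl fun y _ => ?_
  rw [Finset.sum_comm (s := univ (α := Fin n → Q))]
  exact Finset.sum_congr rfl fun y0 _ => sum_succ_ofFn n (fun qs => φ (y0 :: List.ofFn y) qs)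

/-- The product of a kernel along two lists. -/
def zw {X Q : Type} (κ : X → Q → ℝ) : List X → List Q → ℝ
  | x :: xs, q :: qs => κ x q * zw κ xs qs
  | _, _ => 1

lemma zw_nonneg {X Q : Type} {κ : X → Q → ℝ} (h : ∀ x q, 0 ≤ κ x q) :
    ∀ xs qs, 0 ≤ zw κ xs qs
  | [], _ => by simp [zw]
  | _ :: _, [] => by simp [zw]
  | x :: xs, q :: qs => mul_nonneg (h x q) (zw_nonneg h xs qs)

lemma zw_sum {X Q : Type} [Fintype Q] {κ : X → Q → ℝ} (h : ∀ x, ∑ q, κ x q = 1) :
    ∀ (n : ℕ) (xs : List X), xs.length = n → ∑ q : Fin n → Q, zw κ xs (List.ofFn q) = 1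
  | 0, [], _ => by simp [zw]
  | n + 1, x :: xs, hl => by
    rw [sum_succ_ofFn n (fun qs => zw κ (x :: xs) qs)]
    simp only [zw, ← Finset.sum_mul, h, one_mul]
    exact zw_sum h n xs (by simpa using hl)

namespace Protocol

variable {X Y Q : Type} {k : ℕ} (π : Protocol X Y k)

lemma length_inputs (a : Key k × Key k × π.M) (b : Bool × π.N) :
    ∀ ys : List Y, (π.inputs a b ys).length = ys.length
  | [] => rfl
  | _ :: ys => by simp [inputs, length_inputs a b ys]

lemma chanWt_nonneg {W : X → Y → ℝ} (hW : ∀ x y, 0 ≤ W x y) (a : Key k × Key k × π.M)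
    (b : Bool × π.N) : ∀ ys, 0 ≤ π.chanWt W a b ys
  | [] => zero_le_one
  | _ :: ys => mul_nonneg (hW _ _) (chanWt_nonneg hW a b ys)

lemma chanWt_sum [Fintype Y] {W : X → Y → ℝ} (hW : ∀ x, ∑ y, W x y = 1)
    (a : Key k × Key k × π.M) (b : Bool × π.N) :
    ∀ n : ℕ, ∑ y : Fin n → Y, π.chanWt W a b (List.ofFn y) = 1
  | 0 => by simp [chanWt]
  | n + 1 => by
    rw [sum_succ_ofFn n (fun ys => π.chanWt W a b ys)]
    simp only [chanWt, ← Finset.sum_mul, hW, one_mul]
    exact chanWt_sum hW a b n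

lemma cw_nonneg {w : X → Y → Q → ℝ} (h : ∀ x y q, 0 ≤ w x y q) (a : Key k × Key k × π.M)
    (b : Bool × π.N) : ∀ ys qs, 0 ≤ π.cw w a b ys qs
  | [], _ => by simp [cw]
  | _ :: _, [] => by simp [cw]
  | y :: ys, q :: qs => mul_nonneg (h _ y q) (cw_nonneg h a b ys qs)

lemma cw_sum [Fintype Y] [Fintype Q] {w : X → Y → Q → ℝ} (hw : ∀ x, ∑ y, ∑ q, w x y q = 1)
    (a : Key k × Key k × π.M) (b : Bool × π.N) :
    ∀ n : ℕ, ∑ y : Fin n → Y, ∑ q : Fin n → Q, π.cw w a b (List.ofFn y) (List.ofFn q) = 1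
  | 0 => by simp [cw]
  | n + 1 => by
    rw [sum_succ_ofFn2 n (fun ys qs => π.cw w a b ys qs)]
    simp only [cw, ← Finset.sum_mul, hw, one_mul]
    exact cw_sum hw a b n

lemma cw_cs_le [Fintype Y] [Fintype Q] {w g : X → Y → Q → ℝ} (h0 : ∀ x y q, 0 ≤ w x y q)
    (hw : ∀ x, ∑ y, ∑ q, w x y q = 1) {B : ℝ} (hB : ∀ x, ∑ y, ∑ q, w x y q * g x y q ≤ B)
    (a : Key k × Key k × π.M) (b : Bool × π.N) :
    ∀ n : ℕ, ∑ y : Fin n → Y, ∑ q : Fin n → Q, π.cw w a b (List.ofFn y) (List.ofFn q) *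
      π.cs g a b (List.ofFn y) (List.ofFn q) ≤ n * B
  | 0 => by simp [cw, cs]
  | n + 1 => by
    rw [sum_succ_ofFn2 n (fun ys qs => π.cw w a b ys qs * π.cs g a b ys qs)]
    have ih := cw_cs_le h0 hw hB a b n
    have h1 := π.cw_sum hw a b n
    calc _ ≤ ∑ y : Fin n → Y, ∑ q : Fin n → Q, (π.cw w a b (List.ofFn y) (List.ofFn q) * B +
            π.cw w a b (List.ofFn y) (List.ofFn q) * π.cs g a b (List.ofFn y) (List.ofFn q)) := by
          refine Finset.sum_le_sum fun y _ => Finset.sum_le_sum fun q _ => ?_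
          simp only [cw, cs]
          set c := π.cw w a b (List.ofFn y) (List.ofFn q)
          set d := π.cs g a b (List.ofFn y) (List.ofFn q)
          set x := π.nextIn a b (List.ofFn y)
          have e : ∑ y0, ∑ q0, w x y0 q0 * c * (g x y0 q0 + d) =
              c * (∑ y0, ∑ q0, w x y0 q0 * g x y0 q0) + c * d * ∑ y0, ∑ q0, w x y0 q0 := by
            simp only [Finset.mul_sum, ← Finset.sum_add_distrib]
            refine Finset.sum_congr rfl fun _ _ => Finset.sum_congr rfl fun _ _ => ?_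
            ring
          rw [e, hw, mul_one]
          have := mul_le_mul_of_nonneg_left (hB x) (π.cw_nonneg h0 a b (List.ofFn y) (List.ofFn q))
          linarith
      _ ≤ _ := by
          simp only [Finset.sum_add_distrib, ← Finset.sum_mul, h1]
          push_cast
          linarith

lemma chanWt_mul_zw (W : X → Y → ℝ) (κ : X → Q → ℝ) (a : Key k × Key k × π.M) (b : Bool × π.N) :
    ∀ (ys : List Y) (qs : List Q), ys.length = qs.length →
      π.chanWt W a b ys * zw κ (π.inputs a b ys) qs = π.cw (fun x y q => W x y * κ x q) a b ys qs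
  | [], [], _ => by simp [chanWt, zw, cw, inputs]
  | y :: ys, q :: qs, hl => by
    simp only [chanWt, zw, cw, inputs]
    rw [← chanWt_mul_zw W κ a b ys qs (by simpa using hl)]
    ring

lemma zw_mul_zw (κ : X → Q → ℝ) (s : Y → Q → ℝ) (a : Key k × Key k × π.M) (b : Bool × π.N) :
    ∀ (ys : List Y) (qs : List Q), ys.length = qs.length →
      zw κ (π.inputs a b ys) qs * zw s ys qs = π.cw (fun x y q => κ x q * s y q) a b ys qs
  | [], [], _ => by simp [zw, cw, inputs]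
  | y :: ys, q :: qs, hl => by
    simp only [zw, cw, inputs]
    rw [← zw_mul_zw κ s a b ys qs (by simpa using hl)]
    ring

lemma log_cw {w : X → Y → Q → ℝ} {r s : Y → Q → ℝ} (h0 : ∀ x y q, 0 ≤ w x y q)
    (hrs : ∀ x y q, 0 < w x y q → 0 < r y q ∧ 0 < s y q)
    (a : Key k × Key k × π.M) (b : Bool × π.N) :
    ∀ (ys : List Y) (qs : List Q), π.cw w a b ys qs ≠ 0 →
      0 < zw r ys qs ∧ 0 < zw s ys qs ∧
      Real.log (π.cw w a b ys qs) - Real.log (zw r ys qs) - Real.log (zw s ys qs) =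
        π.cs (fun x y q => Real.log (w x y q / (r y q * s y q))) a b ys qs
  | [], _, _ => by simp [zw, cw, cs]
  | _ :: _, [], _ => by simp [zw, cw, cs]
  | y :: ys, q :: qs, h => by
    simp only [zw, cw, cs] at h ⊢
    obtain ⟨h1, h2⟩ := mul_ne_zero_iff.1 h
    obtain ⟨i1, i2, i3⟩ := log_cw h0 hrs a b ys qs h2
    obtain ⟨j1, j2⟩ := hrs _ y q (lt_of_le_of_ne (h0 _ _ _) (Ne.symm h1))
    refine ⟨mul_pos j1 i1, mul_pos j2 i2, ?_⟩
    rw [Real.log_mul h1 h2, Real.log_mul j1.ne' i1.ne', Real.log_mul j2.ne' i2.ne',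
      Real.log_div h1 (mul_pos j1 j2).ne', Real.log_mul j1.ne' j2.ne', ← i3]
    ring

end Protocol

end Pool.Agent.Lib.MP_426fec_lc
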