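import Pool.Agent.Lib.MP_426fec_lc.Converse2

set_option autoImplicit false

namespace Pool.Agent.Lib.MP_426fec_lc

open Finset Matrix

/-- The data of a one-letter translation scheme. -/
structure Sch (X Y A R V F : Type) [Fintype A] [Fintype R] where
  pA : A → ℝ
  pR : R → ℝ
  hA0 : ∀ a, 0 ≤ pA a
  hA1 : ∑ a, pA a = 1
  hR0 : ∀ a, 0 ≤ pR a
  hR1 : ∑ a, pR a = 1
  ι : A → X
  e : A → V → F
  v : Bool → Y × R → V
  l : Bool → Y × R → F
  x0 : X

/-- The public messages. -/
inductive Mg (V F : Type) (n k r : ℕ) : Type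
  | nil : Mg V F n k r
  | vv : (Fin n → V) → Mg V F n k r
  | hc : (Fin r → Fin n → F) → (Fin r → F) → Mg V F n k r
  | sg : (Fin r → F) → Mg V F n k r
  | fin : (Bool → (Fin n → F) → Key k) → Key k → Key k → Mg V F n k r

/-- The seeds of the hash functions. -/
abbrev Seed (F : Type) (n k r : ℕ) : Type := (Fin r → Fin n → F) × (Bool → (Fin n → F) → Key k)

/-- The vector E if j is true and zero otherwise. -/
def sel {G : Type} [Zero G] (j : Bool) (E : G) : G := if j then E else 0

/-- A list of length n as a function. -/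
def toFn {Y : Type} {n : ℕ} (ys : List Y) (h : ys.length = n) : Fin n → Y :=
  fun i => ys.get (i.cast h.symm)

lemma toFn_ofFn {Y : Type} {n : ℕ} (y : Fin n → Y) (h : (List.ofFn y).length = n) :
    toFn (List.ofFn y) h = y := by
  funext i
  simp [toFn]

lemma Protocol.chanWt_ofFn {X Y : Type} {k : ℕ} (π : Protocol X Y k) (W : X → Y → ℝ)
    (a : Key k × Key k × π.M) (b : Bool × π.N) (xs : ℕ → X)
    (h : ∀ ys, π.nextIn a b ys = xs ys.length) :
    ∀ (m : ℕ) (y : Fin m → Y), π.chanWt W a b (List.ofFn y) = ∏ i : Fin m, W (xs (m - 1 - i)) (y i)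
  | 0, _ => by simp [Protocol.chanWt]
  | m + 1, y => by
    rw [List.ofFn_succ, Protocol.chanWt, h, Protocol.chanWt_ofFn π W a b xs h m,
      Fin.prod_univ_succ]
    simp only [List.length_ofFn, Nat.add_sub_cancel, Fin.val_zero, Nat.sub_zero, Fin.val_succ]
    congr 1
    refine Finset.prod_congr rfl fun i _ => ?_
    congr 2
    omega

namespace Sch

variable {X Y A R V F : Type} [Fintype A] [Fintype R] [Fintype Y] [Field F] [Fintype F]
  [DecidableEq F] [DecidableEq V] (S : Sch X Y A R V F) (W : X → Y → ℝ)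

/-- The law of the public letter and the shifted label given the letter of Alice. -/
noncomputable def mu (z : Bool) (a : A) (v : V) (w : F) : ℝ :=
  ∑ o : Y × R, if S.v z o = v ∧ S.l z o + sel z (S.e a v) = w then W (S.ι a) o.1 * S.pR o.2 else 0

/-- The product weights used by the decoder. -/
noncomputable def mun {n : ℕ} (a : Fin n → A) (v : Fin n → V) (w : Fin n → F) : ℝ :=
  ∏ i, S.mu W false (a i) (v i) (w i)

lemma exists_dec {n r : ℕ} (a : Fin n → A) (v : Fin n → V) (G : Fin r → Fin n → F)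
    (σ : Fin r → F) : ∃ d : Fin n → F, ∀ w, Matrix.of G *ᵥ w = σ →
      Matrix.of G *ᵥ d = σ ∧ S.mun W a v w ≤ S.mun W a v d := by
  by_cases h : (univ.filter fun w => Matrix.of G *ᵥ w = σ).Nonempty
  · obtain ⟨d, hd, hm⟩ := Finset.exists_max_image _ (S.mun W a v) h
    exact ⟨d, fun w hw => ⟨by simpa using hd, hm w (by simpa using hw)⟩⟩
  · exact ⟨0, fun w hw => absurd ⟨w, by simpa using hw⟩ h⟩

/-- The maximum likelihood decoder. -/
noncomputable def dec {n r : ℕ} (a : Fin n → A) (v : Fin n → V) (G : Fin r → Fin n → F)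
    (σ : Fin r → F) : Fin n → F := (S.exists_dec W a v G σ).choose

/-- The shift vector. -/
def Ev {n : ℕ} (a : Fin n → A) (v : Fin n → V) : Fin n → F := fun i => S.e (a i) (v i)

/-- The encrypted string number j. -/
noncomputable def cj {n k r : ℕ} (j : Bool) (K : Key k) (a : Fin n → A) (g : Seed F n k r)
    (v : Fin n → V) (σ : Fin r → F) : Key k :=
  K + g.2 j (S.dec W a v g.1 σ - sel j (S.Ev a v))

/-- The messages of Alice. -/
noncomputable def aM {n k r : ℕ} (a : Key k × Key k × (Fin n → A) × Seed F n k r) :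
    List (Mg V F n k r) → Mg V F n k r
  | Mg.vv v :: _ => Mg.hc a.2.2.2.1 (Matrix.of a.2.2.2.1 *ᵥ S.Ev a.2.2.1 v)
  | Mg.sg σ :: _ :: Mg.vv v :: _ => Mg.fin a.2.2.2.2 (S.cj W false a.1 a.2.2.1 a.2.2.2 v σ)
      (S.cj W true a.2.1 a.2.2.1 a.2.2.2 v σ)
  | _ => Mg.nil

/-- The messages of Bob after the last session. -/
def bM {n k r : ℕ} (z : Bool) (o : Fin n → Y × R) : List (Mg V F n k r) → Mg V F n k r
  | Mg.hc G c :: _ => Mg.sg (Matrix.of G *ᵥ (fun i => S.l z (o i)) + sel z c)
  | Mg.fin _ _ _ :: _ => Mg.nil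
  | _ => Mg.vv fun i => S.v z (o i)

/-- The output of Bob. -/
def oM {n k r : ℕ} (z : Bool) (o : Fin n → Y × R) : List (Mg V F n k r) → Key k
  | _ :: Mg.fin h c0 c1 :: _ => (if z then c1 else c0) - h z (fun i => S.l z (o i))
  | _ => 0

/-- The protocol. -/
noncomputable def prot (n k r : ℕ) : Protocol X Y k where
  M := (Fin n → A) × Seed F n k r
  N := Fin n → R
  Msg := Mg V F n k r
  finM := inferInstance
  finN := inferInstance
  pM := fun m => (∏ i, S.pA (m.1 i)) * (1 / Fintype.card (Seed F n k r))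
  pN := fun ρ => ∏ i, S.pR (ρ i)
  pM_nonneg := fun m => mul_nonneg (Finset.prod_nonneg fun i _ => S.hA0 _) (by positivity)
  pN_nonneg := fun m => Finset.prod_nonneg fun i _ => S.hR0 _
  pM_sum := by
    change ∑ m : (Fin n → A) × Seed F n k r, _ = _
    rw [Fintype.sum_prod_type]
    simp only [← Finset.mul_sum, Finset.sum_const, Finset.card_univ, nsmul_eq_mul]
    rw [mul_one_div_cancel (by positivity)]
    simp only [mul_one]
    rw [← Fintype.sum_pow, S.hA1, one_pow]
  pN_sum := by
    change ∑ m : Fin n → R, _ = _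
    rw [← Fintype.sum_pow, S.hR1, one_pow]
  r := 3
  aMsg := S.aM W
  bMsg := fun b ys f => if h : ys.length = n then S.bM b.1 (fun i => (toFn ys h i, b.2 i)) f
    else Mg.nil
  inp := fun a t _ => if h : t < n then S.ι (a.2.2.1 ⟨n - 1 - t, by omega⟩) else S.x0
  out := fun b ys f => if h : ys.length = n then S.oM b.1 (fun i => (toFn ys h i, b.2 i)) f
    else 0

variable {n k r : ℕ}

lemma gap_early (a : Key k × Key k × (S.prot W n k r).M) (b : Bool × (S.prot W n k r).N)
    (ys : List Y) (h : ys.length ≠ n) (m : ℕ) :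
    (S.prot W n k r).gap a b ys (List.replicate m Mg.nil) = List.replicate (m + 6) Mg.nil := by
  cases m <;> simp [Protocol.gap, prot, h, aM, List.replicate_succ]

lemma trans_early (a : Key k × Key k × (S.prot W n k r).M) (b : Bool × (S.prot W n k r).N) :
    ∀ ys : List Y, ys.length < n →
      (S.prot W n k r).trans a b ys = List.replicate (6 * ys.length + 6) Mg.nil
  | [], h => by
    have := S.gap_early W a b [] h.ne 0
    simpa [Protocol.trans] using this
  | y :: ys, h => by
    rw [Protocol.trans, trans_early a b ys (by simp at h; omega)]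
    refine (S.gap_early W a b _ h.ne _).trans ?_
    simp [mul_add]

/-- The last six messages. -/
noncomputable def last (K0 K1 : Key k) (a : Fin n → A) (g : Seed F n k r) (z : Bool)
    (o : Fin n → Y × R) : List (Mg V F n k r) :=
  let v := fun i => S.v z (o i)
  let c := Matrix.of g.1 *ᵥ S.Ev a v
  let σ := Matrix.of g.1 *ᵥ (fun i => S.l z (o i)) + sel z c
  [Mg.nil, Mg.fin g.2 (S.cj W false K0 a g v σ) (S.cj W true K1 a g v σ), Mg.sg σ, Mg.hc g.1 c,
    Mg.vv v, Mg.nil]

lemma gap_last (a : Key k × Key k × (S.prot W n k r).M) (b : Bool × (S.prot W n k r).N)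
    (ys : List Y) (h : ys.length = n) (m : ℕ) :
    (S.prot W n k r).gap a b ys (List.replicate m Mg.nil) =
      S.last W a.1 a.2.1 a.2.2.1 a.2.2.2 b.1 (fun i => (toFn ys h i, b.2 i)) ++
        List.replicate m Mg.nil := by
  cases m <;> simp [Protocol.gap, prot, h, aM, bM, last, List.replicate_succ]

lemma comm_eq (ω : (S.prot W n k r).Omega n) :
    (S.prot W n k r).comm n ω = S.last W ω.1.1 ω.1.2.1 ω.1.2.2.1 ω.1.2.2.2 ω.2.1.1
      (fun i => (ω.2.2 i, ω.2.1.2 i)) ++ List.replicate (6 * n) Mg.nil := by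
  have hl : (List.ofFn ω.2.2).length = n := by simp
  have e := toFn_ofFn ω.2.2 hl
  unfold Protocol.comm
  generalize List.ofFn ω.2.2 = ys at hl e
  rw [← e]
  cases ys with
  | nil =>
    have := S.gap_last W ω.1 ω.2.1 [] hl 0
    have hn : 6 * n = 0 := by simp at hl; omega
    rw [hn]
    exact this
  | cons y ys =>
    have hn : 6 * n = 6 * ys.length + 6 := by simp at hl; omega
    rw [Protocol.trans, S.trans_early W _ _ ys (by simp at hl; omega), hn]
    exact S.gap_last W _ _ _ hl _

lemma out_eq (ω : (S.prot W n k r).Omega n) :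
    (S.prot W n k r).out ω.2.1 (List.ofFn ω.2.2) ((S.prot W n k r).comm n ω) =
      S.oM ω.2.1.1 (fun i => (ω.2.2 i, ω.2.1.2 i))
        (S.last W ω.1.1 ω.1.2.1 ω.1.2.2.1 ω.1.2.2.2 ω.2.1.1 (fun i => (ω.2.2 i, ω.2.1.2 i))) := by
  rw [comm_eq]
  simp [prot, toFn_ofFn, last, oM]

lemma chanWt_eq (a : Key k × Key k × (S.prot W n k r).M) (b : Bool × (S.prot W n k r).N)
    (y : Fin n → Y) :
    (S.prot W n k r).chanWt W a b (List.ofFn y) = ∏ i, W (S.ι (a.2.2.1 i)) (y i) := by
  rw [(S.prot W n k r).chanWt_ofFn W a b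
    (fun t => if h : t < n then S.ι (a.2.2.1 ⟨n - 1 - t, by omega⟩) else S.x0) (fun _ => rfl)]
  refine Finset.prod_congr rfl fun i _ => ?_
  have hi := i.2
  rw [dif_pos (by omega)]
  have : (⟨n - 1 - (n - 1 - i), by omega⟩ : Fin n) = i := by
    ext
    simp only
    omega
  rw [this]

lemma inputs_eq (a : Key k × Key k × (S.prot W n k r).M) (b b' : Bool × (S.prot W n k r).N) :
    ∀ ys ys' : List Y, ys.length = ys'.length →
      (S.prot W n k r).inputs a b ys = (S.prot W n k r).inputs a b' ys'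
  | [], [], _ => rfl
  | y :: ys, y' :: ys', h => by
    have h' : ys.length = ys'.length := by simpa using h
    simp only [Protocol.inputs, Protocol.nextIn]
    rw [inputs_eq a b b' ys ys' h', h']
    rfl

end Sch

end Pool.Agent.Lib.MP_426fec_lc
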