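import Pool.Agent.Lib.MP_426fec_lc.Rect

set_option autoImplicit false

namespace Pool.Agent.Lib.MP_426fec_lc

open Finset

namespace Protocol

variable {X Y Q : Type} {k : ℕ} (π : Protocol X Y k)

/-- The law of a run under given priors of Alice and Bob. -/
noncomputable def P0 (W : X → Y → ℝ) (pA : Key k × Key k × π.M → ℝ) (pB : Bool × π.N → ℝ) (n : ℕ)
    (ω : π.Omega n) : ℝ :=
  pA ω.1 * pB ω.2.1 * π.chanWt W ω.1 ω.2.1 (List.ofFn ω.2.2)

/-- The kernel producing the auxiliary sequence. -/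
noncomputable def kq (κ : X → Q → ℝ) (n : ℕ) (ω : π.Omega n) (q : Fin n → Q) : ℝ :=
  zw κ (π.inputs ω.1 ω.2.1 (List.ofFn ω.2.2)) (List.ofFn q)

lemma kq_nonneg {κ : X → Q → ℝ} (h : ∀ x q, 0 ≤ κ x q) (n : ℕ) (ω : π.Omega n) (q : Fin n → Q) :
    0 ≤ π.kq κ n ω q := zw_nonneg h _ _

lemma kq_sum [Fintype Q] {κ : X → Q → ℝ} (h : ∀ x, ∑ q, κ x q = 1) (n : ℕ) (ω : π.Omega n) :
    ∑ q, π.kq κ n ω q = 1 := zw_sum h n _ (by simp [length_inputs])

lemma P0_nonneg {W : X → Y → ℝ} (hW : ∀ x y, 0 ≤ W x y) {pA : Key k × Key k × π.M → ℝ}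
    {pB : Bool × π.N → ℝ} (hA : ∀ a, 0 ≤ pA a) (hB : ∀ b, 0 ≤ pB b) (n : ℕ) (ω : π.Omega n) :
    0 ≤ π.P0 W pA pB n ω := mul_nonneg (mul_nonneg (hA _) (hB _)) (π.chanWt_nonneg hW _ _ _)

lemma P0_sum [Fintype Y] {W : X → Y → ℝ} (hW : ∀ x, ∑ y, W x y = 1)
    {pA : Key k × Key k × π.M → ℝ}
    {pB : Bool × π.N → ℝ} (hA : ∑ a, pA a = 1) (hB : ∑ b, pB b = 1) (n : ℕ) :
    ∑ ω, π.P0 W pA pB n ω = 1 := by
  unfold P0
  rw [Fintype.sum_prod_type]
  simp only [Fintype.sum_prod_type (α₁ := Bool × π.N), ← Finset.mul_sum, π.chanWt_sum hW, mul_one,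
    hB, hA]

lemma tension [Fintype Y] [Fintype Q] {W : X → Y → ℝ} (hW0 : ∀ x y, 0 ≤ W x y)
    (hW1 : ∀ x, ∑ y, W x y = 1) {κ : X → Q → ℝ} (hκ0 : ∀ x q, 0 ≤ κ x q)
    (hκ1 : ∀ x, ∑ q, κ x q = 1) {r s : Y → Q → ℝ} (hr0 : ∀ y q, 0 ≤ r y q)
    (hr1 : ∀ y, ∑ q, r y q = 1) (hs0 : ∀ y q, 0 ≤ s y q) (hs1 : ∀ q, ∑ y, s y q = 1)
    (hrs : ∀ x y q, 0 < W x y * κ x q → 0 < r y q ∧ 0 < s y q) {B : ℝ}
    (hB : ∀ x, ∑ y, ∑ q, W x y * κ x q * Real.log (W x y * κ x q / (r y q * s y q)) ≤ B)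
    {pA : Key k × Key k × π.M → ℝ} {pB : Bool × π.N → ℝ} (hA0 : ∀ a, 0 ≤ pA a)
    (hB0 : ∀ b, 0 ≤ pB b) (hA1 : ∑ a, pA a = 1) (hB1 : ∑ b, pB b = 1) (n : ℕ)
    (P : π.Omega n × (Fin n → Q) → ℝ) (hP : P = fun x => π.P0 W pA pB n x.1 * π.kq κ n x.1 x.2) :
    (H P (fun x => (x.2, x.1.2, π.comm n x.1)) - H P (fun x => (x.1.2, π.comm n x.1))
        - H P id + H P (fun x => x.1)) +
      (H P (fun x => (x.1.1, x.2, π.comm n x.1)) + H P (fun x => (x.2, x.1.2, π.comm n x.1))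
        - H P (fun x => (x.2, π.comm n x.1)) - H P id) ≤ n * B := by
  classical
  have hP00 := π.P0_nonneg hW0 hA0 hB0 n
  have hP0 : ∀ x, 0 ≤ P x := fun x => by
    rw [hP]; exact mul_nonneg (hP00 _) (π.kq_nonneg hκ0 _ _ _)
  have hP1 : ∑ x, P x = 1 := by
    rw [hP, Fintype.sum_prod_type]
    simp only [← Finset.mul_sum, π.kq_sum hκ1, mul_one]
    exact π.P0_sum hW1 hA1 hB1 n
  -- factorisation of P
  have hfac : ∀ x, P x = pA x.1.1 * pB x.1.2.1 *
      π.cw (fun x y q => W x y * κ x q) x.1.1 x.1.2.1 (List.ofFn x.1.2.2) (List.ofFn x.2) := by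
    intro x
    rw [hP, ← π.chanWt_mul_zw W κ _ _ _ _ (by simp)]
    simp only [P0, kq]; ring
  have hw0 : ∀ x y q, 0 ≤ W x y * κ x q := fun x y q => mul_nonneg (hW0 _ _) (hκ0 _ _)
  have hlog := fun x : π.Omega n × (Fin n → Q) => fun h : P x ≠ 0 =>
    π.log_cw hw0 hrs x.1.1 x.1.2.1 (List.ofFn x.1.2.2) (List.ofFn x.2)
      (by rw [hfac] at h; exact (mul_ne_zero_iff.1 h).2)
  have hApos : ∀ x, P x ≠ 0 → 0 < pA x.1.1 := fun x h => by
    rw [hfac] at h
    exact lt_of_le_of_ne (hA0 _) (Ne.symm (mul_ne_zero_iff.1 (mul_ne_zero_iff.1 h).1).1)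
  have hBpos : ∀ x, P x ≠ 0 → 0 < pB x.1.2.1 := fun x h => by
    rw [hfac] at h
    exact lt_of_le_of_ne (hB0 _) (Ne.symm (mul_ne_zero_iff.1 (mul_ne_zero_iff.1 h).1).2)
  have hkpos : ∀ x, P x ≠ 0 → 0 < π.kq κ n x.1 x.2 := fun x h => by
    rw [hP] at h
    exact lt_of_le_of_ne (π.kq_nonneg hκ0 _ _ _) (Ne.symm (mul_ne_zero_iff.1 h).2)
  have hP0pos : ∀ x, P x ≠ 0 → 0 < π.P0 W pA pB n x.1 := fun x h => by
    rw [hP] at h
    exact lt_of_le_of_ne (hP00 _) (Ne.symm (mul_ne_zero_iff.1 h).1)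
  -- the two factors
  set φ : (Key k × Key k × π.M) → (Fin n → Q) × List π.Msg → ℝ := fun a c =>
    pA a * (if h : ∃ d, π.comm n (a, d) = c.2 then π.kq κ n (a, h.choose) c.1 else 0) with hφ
  set ψ : (Bool × π.N) × (Fin n → Y) → (Fin n → Q) × List π.Msg → ℝ := fun d c =>
    pB d.1 * (if ∃ a, π.comm n (a, d) = c.2 then zw s (List.ofFn d.2) (List.ofFn c.1) else 0)
    with hψ
  have hφ0 : ∀ a c, 0 ≤ φ a c := fun a c => by
    refine mul_nonneg (hA0 _) ?_
    split_ifs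
    · exact π.kq_nonneg hκ0 _ _ _
    · exact le_rfl
  have hψ0 : ∀ d c, 0 ≤ ψ d c := fun d c => by
    refine mul_nonneg (hB0 _) ?_
    split_ifs
    · exact zw_nonneg hs0 _ _
    · exact le_rfl
  have hφe : ∀ a d q, φ a (q, π.comm n (a, d)) = pA a * π.kq κ n (a, d) q := by
    intro a d q
    have h : ∃ d', π.comm n (a, d') = π.comm n (a, d) := ⟨d, rfl⟩
    simp only [hφ, dif_pos h]
    unfold kq
    rw [(π.comm_rect h.choose_spec).2]
  have hψe : ∀ a d q, ψ d (q, π.comm n (a, d)) = pB d.1 * zw s (List.ofFn d.2) (List.ofFn q) := by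
    intro a d q
    have h : ∃ a', π.comm n (a', d) = π.comm n (a, d) := ⟨a, rfl⟩
    simp only [hψ, if_pos h]
  have hφψ : ∀ a d q f, f ≠ π.comm n (a, d) → φ a (q, f) * ψ d (q, f) = 0 := by
    intro a d q f hf
    by_cases h1 : ∃ d', π.comm n (a, d') = f
    · by_cases h2 : ∃ a', π.comm n (a', d) = f
      · obtain ⟨d', h1⟩ := h1
        obtain ⟨a', h2⟩ := h2
        exact absurd ((π.comm_rect (h1.trans h2.symm)).1.trans h1).symm hf
      · simp only [hψ, if_neg h2, mul_zero]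
    · simp only [hφ, dif_neg h1, mul_zero, zero_mul]
  set Φ : (Fin n → Q) × List π.Msg → ℝ := fun c => ∑ a, φ a c with hΦ
  set Ψ : (Fin n → Q) × List π.Msg → ℝ := fun c => ∑ d, ψ d c with hΨ
  have hΦ0 : ∀ c, 0 ≤ Φ c := fun c => Finset.sum_nonneg fun a _ => hφ0 a c
  have hΨ0 : ∀ c, 0 ≤ Ψ c := fun c => Finset.sum_nonneg fun a _ => hψ0 a c
  have hφpos : ∀ x, P x ≠ 0 → 0 < φ x.1.1 (x.2, π.comm n x.1) := fun x h => by
    rw [show π.comm n x.1 = π.comm n (x.1.1, x.1.2) from rfl, hφe]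
    exact mul_pos (hApos x h) (hkpos x h)
  have hψpos : ∀ x, P x ≠ 0 → 0 < ψ x.1.2 (x.2, π.comm n x.1) := fun x h => by
    rw [show π.comm n x.1 = π.comm n (x.1.1, x.1.2) from rfl, hψe]
    exact mul_pos (hBpos x h) (hlog x h).2.1
  have hΦpos : ∀ x, P x ≠ 0 → 0 < Φ (x.2, π.comm n x.1) := fun x h =>
    lt_of_lt_of_le (hφpos x h) (Finset.single_le_sum (f := fun a => φ a (x.2, π.comm n x.1))
      (fun a _ => hφ0 a _) (Finset.mem_univ _))
  have hΨpos : ∀ x, P x ≠ 0 → 0 < Ψ (x.2, π.comm n x.1) := fun x h =>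
    lt_of_lt_of_le (hψpos x h) (Finset.single_le_sum (f := fun a => ψ a (x.2, π.comm n x.1))
      (fun a _ => hψ0 a _) (Finset.mem_univ _))
  have g1 := cond_gibbs hP0 hP1 (fun x => x.2) (fun x => (x.1.2, π.comm n x.1))
    (fun x => (x.2, x.1.2, π.comm n x.1)) (fun _ _ _ _ a b => by rw [a, b])
    (fun q d => zw r (List.ofFn d.1.2) (List.ofFn q)) (fun _ _ => zw_nonneg hr0 _ _)
    (fun d => (zw_sum hr1 n _ (by simp)).le) (fun x h => (hlog x h).1)
  have g2 := cond_gibbs hP0 hP1 (fun x => x.1.1) (fun x => (x.2, π.comm n x.1))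
    (fun x => (x.1.1, x.2, π.comm n x.1)) (fun _ _ _ _ a b => by rw [a, b])
    (fun a c => φ a c / Φ c) (fun a c => div_nonneg (hφ0 _ _) (hΦ0 _))
    (fun c => by rw [← Finset.sum_div]; exact div_self_le_one _)
    (fun x h => div_pos (hφpos x h) (hΦpos x h))
  have g3 := cond_gibbs hP0 hP1 (fun x => x.1.2) (fun x => (x.2, π.comm n x.1))
    (fun x => (x.2, x.1.2, π.comm n x.1)) (fun _ _ _ _ a b => by
      have b1 := congrArg Prod.fst b
      have b2 := congrArg Prod.snd b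
      simp only at a b1 b2
      rw [a, b1, b2])
    (fun a c => ψ a c / Ψ c) (fun a c => div_nonneg (hψ0 _ _) (hΨ0 _))
    (fun c => by rw [← Finset.sum_div]; exact div_self_le_one _)
    (fun x h => div_pos (hψpos x h) (hΨpos x h))
  have g4 := gibbs_image hP0 hP1 (fun x => (x.2, π.comm n x.1)) (fun c => Φ c * Ψ c)
    (fun c => mul_nonneg (hΦ0 c) (hΨ0 c)) (univ ×ˢ (univ.image (π.comm n)))
    (fun x => by simp) ?_ (fun x h => mul_pos (hΦpos x h) (hΨpos x h))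
  swap
  · rw [Finset.sum_product]
    calc ∑ q : Fin n → Q, ∑ f ∈ univ.image (π.comm n), Φ (q, f) * Ψ (q, f)
        = ∑ q : Fin n → Q, ∑ a, ∑ d, ∑ f ∈ univ.image (π.comm n), φ a (q, f) * ψ d (q, f) := by
          refine Finset.sum_congr rfl fun q _ => ?_
          simp only [hΦ, hΨ, Finset.sum_mul_sum]
          rw [Finset.sum_comm]
          refine Finset.sum_congr rfl fun a _ => ?_
          rw [Finset.sum_comm]
      _ = ∑ q : Fin n → Q, ∑ a, ∑ d : (Bool × π.N) × (Fin n → Y), pA a * pB d.1 *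
            π.cw (fun x y q => κ x q * s y q) a d.1 (List.ofFn d.2) (List.ofFn q) := by
          refine Finset.sum_congr rfl fun q _ => Finset.sum_congr rfl fun a _ =>
            Finset.sum_congr rfl fun d _ => ?_
          rw [Finset.sum_eq_single (π.comm n (a, d)) (fun f _ hf => hφψ a d q f hf) (by simp),
            hφe, hψe, ← π.zw_mul_zw κ s _ _ _ _ (by simp)]
          simp only [kq]; ring
      _ = ∑ a, ∑ b, pA a * pB b * ∑ y : Fin n → Y, ∑ q : Fin n → Q,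
            π.cw (fun x y q => κ x q * s y q) a b (List.ofFn y) (List.ofFn q) := by
          rw [Finset.sum_comm]
          refine Finset.sum_congr rfl fun a _ => ?_
          rw [Finset.sum_comm, Fintype.sum_prod_type]
          simp only [Finset.mul_sum]
      _ ≤ 1 := by
          have : ∀ x, ∑ y, ∑ q, κ x q * s y q = 1 := fun x => by
            rw [Finset.sum_comm]
            simp only [← Finset.mul_sum, hs1, mul_one, hκ1]
          simp only [π.cw_sum this, mul_one, ← Finset.mul_sum, hB1, hA1, le_refl]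
  have g5 := le_H_inj hP0 id Function.injective_id
  have g6 : H P (fun x => x.1) ≤ ∑ x, P x * -Real.log (π.P0 W pA pB n x.1) := by
    have e := H_ext (π.P0 W pA pB n) (π.kq κ n) (π.kq_sum hκ1 n) id
    rw [← hP] at e
    refine (le_of_eq e).trans ((H_le_id hP00 id).trans (le_of_eq ?_))
    rw [hP, Fintype.sum_prod_type (α₁ := π.Omega n)]
    refine Finset.sum_congr rfl fun ω _ => ?_
    simp only [mul_right_comm (π.P0 W pA pB n ω) (π.kq κ n ω _)]
    rw [← Finset.mul_sum, π.kq_sum hκ1, mul_one]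
  have key : ∑ x : π.Omega n × (Fin n → Q), P x * π.cs (fun x y q => Real.log (W x y * κ x q / (r y q * s y q)))
      x.1.1 x.1.2.1 (List.ofFn x.1.2.2) (List.ofFn x.2) ≤ n * B := by
    have hw1 : ∀ x, ∑ y, ∑ q, W x y * κ x q = 1 := fun x => by
      simp only [← Finset.mul_sum, hκ1, mul_one, hW1]
    have h := fun a b => π.cw_cs_le (g := fun x y q => Real.log (W x y * κ x q / (r y q * s y q)))
      hw0 hw1 hB a b n
    calc _ = ∑ a, ∑ b, pA a * pB b * ∑ y : Fin n → Y, ∑ q : Fin n → Q,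
            π.cw (fun x y q => W x y * κ x q) a b (List.ofFn y) (List.ofFn q) *
            π.cs (fun x y q => Real.log (W x y * κ x q / (r y q * s y q))) a b
              (List.ofFn y) (List.ofFn q) := by
          simp only [hfac, Fintype.sum_prod_type (α₁ := π.Omega n),
            Fintype.sum_prod_type (α₁ := Key k × Key k × π.M),
            Fintype.sum_prod_type (α₁ := Bool × π.N), Finset.mul_sum, mul_assoc]
      _ ≤ ∑ a, ∑ b, pA a * pB b * (n * B) :=
          Finset.sum_le_sum fun a _ => Finset.sum_le_sum fun b _ =>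
            mul_le_mul_of_nonneg_left (h a b) (mul_nonneg (hA0 a) (hB0 b))
      _ = n * B := by
          simp only [← Finset.sum_mul, ← Finset.mul_sum, hB1, hA1, mul_one, one_mul]
  have e : ∑ x, P x * -Real.log (zw r (List.ofFn x.1.2.2) (List.ofFn x.2)) +
      ∑ x, P x * -Real.log (π.P0 W pA pB n x.1) +
      ∑ x, P x * -Real.log (φ x.1.1 (x.2, π.comm n x.1) / Φ (x.2, π.comm n x.1)) +
      ∑ x, P x * -Real.log (ψ x.1.2 (x.2, π.comm n x.1) / Ψ (x.2, π.comm n x.1)) +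
      ∑ x, P x * -Real.log (Φ (x.2, π.comm n x.1) * Ψ (x.2, π.comm n x.1)) -
      2 * ∑ x, P x * -Real.log (P x) =
      ∑ x, P x * π.cs (fun x y q => Real.log (W x y * κ x q / (r y q * s y q)))
        x.1.1 x.1.2.1 (List.ofFn x.1.2.2) (List.ofFn x.2) := by
    rw [Finset.mul_sum]
    simp only [← Finset.sum_add_distrib, ← Finset.sum_sub_distrib]
    refine Finset.sum_congr rfl fun x _ => ?_
    by_cases h : P x = 0
    · simp [h]
    obtain ⟨l1, l2, l3⟩ := hlog x h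
    have c0 : π.cw (fun x y q => W x y * κ x q) x.1.1 x.1.2.1 (List.ofFn x.1.2.2)
        (List.ofFn x.2) ≠ 0 := by rw [hfac] at h; exact (mul_ne_zero_iff.1 h).2
    have a1 : Real.log (P x) = Real.log (π.P0 W pA pB n x.1) + Real.log (π.kq κ n x.1 x.2) := by
      rw [← Real.log_mul (hP0pos x h).ne' (hkpos x h).ne', hP]
    have a2 : Real.log (P x) = Real.log (pA x.1.1) + Real.log (pB x.1.2.1) +
        Real.log (π.cw (fun x y q => W x y * κ x q) x.1.1 x.1.2.1 (List.ofFn x.1.2.2)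
          (List.ofFn x.2)) := by
      rw [hfac, Real.log_mul (mul_pos (hApos x h) (hBpos x h)).ne' c0,
        Real.log_mul (hApos x h).ne' (hBpos x h).ne']
    have a3 : Real.log (φ x.1.1 (x.2, π.comm n x.1)) =
        Real.log (pA x.1.1) + Real.log (π.kq κ n x.1 x.2) := by
      rw [show π.comm n x.1 = π.comm n (x.1.1, x.1.2) from rfl, hφe,
        Real.log_mul (hApos x h).ne' (hkpos x h).ne']
    have a4 : Real.log (ψ x.1.2 (x.2, π.comm n x.1)) =
        Real.log (pB x.1.2.1) + Real.log (zw s (List.ofFn x.1.2.2) (List.ofFn x.2)) := by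
      rw [show π.comm n x.1 = π.comm n (x.1.1, x.1.2) from rfl, hψe,
        Real.log_mul (hBpos x h).ne' l2.ne']
    rw [Real.log_div (hφpos x h).ne' (hΦpos x h).ne', Real.log_div (hψpos x h).ne' (hΨpos x h).ne',
      Real.log_mul (hΦpos x h).ne' (hΨpos x h).ne', ← l3, a3, a4]
    have : -Real.log (P x) = -(1 / 2) * (Real.log (P x) + Real.log (P x)) := by ring
    rw [this]
    nth_rewrite 1 [a1]
    nth_rewrite 1 [a2]
    ring
  simp only at g1 g2 g3 g4
  linarith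

end Protocol

end Pool.Agent.Lib.MP_426fec_lc
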