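import Pool.Agent.Lib.MP_426fec_lc.Scheme

set_option autoImplicit false

namespace Pool.Agent.Lib.MP_426fec_lc

open Finset Matrix

lemma mass_transfer {Ω Ω' α : Type} [Fintype Ω] [Fintype Ω'] {P : Ω → ℝ} {P' : Ω' → ℝ}
    {emb : Ω' → Ω} (h : ∀ φ : Ω → ℝ, ∑ ω, P ω * φ ω = ∑ ω, P' ω * φ (emb ω)) (f : Ω → α) (a : α) :
    mass P f a = mass P' (fun ω => f (emb ω)) a := by
  classical
  have := h fun ω => if f ω = a then 1 else 0
  simpa [mass_eq] using this

lemma H_transfer {Ω Ω' α : Type} [Fintype Ω] [Fintype Ω'] {P : Ω → ℝ} {P' : Ω' → ℝ}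
    {emb : Ω' → Ω} (h : ∀ φ : Ω → ℝ, ∑ ω, P ω * φ ω = ∑ ω, P' ω * φ (emb ω)) (f : Ω → α) :
    H P f = H P' (fun ω => f (emb ω)) := by
  unfold H
  rw [h]
  simp only [mass_transfer h]

lemma mi_transfer {Ω Ω' α β : Type} [Fintype Ω] [Fintype Ω'] {P : Ω → ℝ} {P' : Ω' → ℝ}
    {emb : Ω' → Ω} (h : ∀ φ : Ω → ℝ, ∑ ω, P ω * φ ω = ∑ ω, P' ω * φ (emb ω)) (f : Ω → α)
    (g : Ω → β) : mi P f g = mi P' (fun ω => f (emb ω)) (fun ω => g (emb ω)) := by
  unfold mi
  simp only [ent_eq, H_transfer h]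

lemma sum_prod_pow {A O : Type} [Fintype A] [Fintype O] (n : ℕ) (f : A → O → ℝ) :
    ∑ a : Fin n → A, ∑ o : Fin n → O, ∏ i, f (a i) (o i) = (∑ a, ∑ o, f a o) ^ n := by
  rw [Fintype.sum_pow]
  refine Finset.sum_congr rfl fun a _ => ?_
  rw [Finset.prod_univ_sum]
  simp

lemma sum_pi_prod {O : Type} [Fintype O] {n : ℕ} (f : Fin n → O → ℝ) :
    ∑ o : Fin n → O, ∏ i, f i (o i) = ∏ i, ∑ o, f i o := by
  rw [Finset.prod_univ_sum]
  simp

lemma avg_ker {G T : Type} [AddCommGroup G] [AddCommGroup T] [Fintype G] [Fintype T]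
    [DecidableEq T] (φ : G →+ T) (hφ : Function.Surjective φ) :
    ∑ g, (if φ g = 0 then (1 : ℝ) / Fintype.card G else 0) = 1 / Fintype.card T := by
  classical
  have h1 : ∀ t, (univ.filter fun g => φ g = t).card = (univ.filter fun g => φ g = 0).card :=
    fun t => AddMonoidHom.card_fiber_eq_of_mem_range φ (hφ t) (hφ 0)
  have h2 : Fintype.card G = Fintype.card T * (univ.filter fun g => φ g = 0).card := by
    rw [← Finset.card_univ, Finset.card_eq_sum_card_fiberwise (f := φ) (t := univ) (by simp)]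
    simp [h1]
  rw [← Finset.sum_filter, Finset.sum_const, nsmul_eq_mul, h2]
  have hT : (Fintype.card T : ℝ) ≠ 0 := by positivity
  have h0 : ((univ.filter fun g => φ g = 0).card : ℝ) ≠ 0 := by
    have : (univ.filter fun g => φ g = 0).Nonempty := ⟨0, by simp⟩
    exact_mod_cast this.card_pos.ne'
  push_cast
  field_simp

lemma mulVec_surj {F : Type} [Field F] {n r : ℕ} {d : Fin n → F} (hd : d ≠ 0) (c : Fin r → F) :
    ∃ G : Fin r → Fin n → F, Matrix.of G *ᵥ d = c := by
  classical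
  obtain ⟨i, hi⟩ := Function.ne_iff.1 hd
  refine ⟨fun j i' => if i' = i then c j / d i else 0, ?_⟩
  funext j
  have hi' : d i ≠ 0 := hi
  simp [Matrix.mulVec, dotProduct, hi']

/-- The collision probability of the linear hash. -/
lemma avg_lin {F : Type} [Field F] [Fintype F] [DecidableEq F] {n k r : ℕ} {d : Fin n → F}
    (hd : d ≠ 0) : ∑ g : Seed F n k r, (if Matrix.of g.1 *ᵥ d = 0 then
      (1 : ℝ) / Fintype.card (Seed F n k r) else 0) = 1 / Fintype.card F ^ r := by
  have := avg_ker (G := Seed F n k r) (T := Fin r → F)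
    ⟨⟨fun g => Matrix.of g.1 *ᵥ d, Matrix.zero_mulVec d⟩,
      fun g g' => by rw [← Matrix.add_mulVec]; rfl⟩
    (fun c => by
      obtain ⟨G, hG⟩ := mulVec_surj hd c
      exact ⟨(G, 0), hG⟩)
  simpa using this

/-- The collision probability of the pair of hashes. -/
lemma avg_pair {F : Type} [Field F] [Fintype F] [DecidableEq F] {n k r : ℕ} {d s s' : Fin n → F}
    (hd : d ≠ 0) (hs : s ≠ s') (j : Bool) :
    ∑ g : Seed F n k r, (if Matrix.of g.1 *ᵥ d = 0 ∧ g.2 j s = g.2 j s' then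
      (1 : ℝ) / Fintype.card (Seed F n k r) else 0) = 1 / (Fintype.card F ^ r * 2 ^ k) := by
  have := avg_ker (G := Seed F n k r) (T := (Fin r → F) × Key k)
    ⟨⟨fun g => (Matrix.of g.1 *ᵥ d, g.2 j s - g.2 j s'), 
      Prod.ext (Matrix.zero_mulVec d) (by simp)⟩,
      fun g g' => by
        refine Prod.ext ?_ ?_
        · simp only [Prod.fst_add]; rw [← Matrix.add_mulVec]; rfl
        · simp only [Prod.snd_add, Pi.add_apply]; abel⟩
    (fun c => by
      obtain ⟨G, hG⟩ := mulVec_surj hd c.1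
      refine ⟨(G, fun _ t => if t = s then c.2 else 0), ?_⟩
      simp [hG, hs.symm])
  simpa [sub_eq_zero] using this

lemma exists_mgf {T : Type} [Fintype T] {P : T → ℝ} (hP : ∀ t, 0 ≤ P t) (h1 : ∑ t, P t = 1)
    (L : T → ℝ) {δ : ℝ} (hδ : 0 < δ) :
    ∃ s : ℝ, 0 < s ∧ s ≤ 1 ∧
      ∑ t, P t * Real.exp (s * L t) ≤ Real.exp (s * (∑ t, P t * L t + δ)) := by
  set C := ∑ t, |L t| + 1 with hC
  have hC1 : 1 ≤ C := by
    have : 0 ≤ ∑ t, |L t| := Finset.sum_nonneg fun t _ => abs_nonneg _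
    linarith
  have hL : ∀ t, |L t| ≤ C := fun t => by
    have := Finset.single_le_sum (f := fun t => |L t|) (fun t _ => abs_nonneg _) (Finset.mem_univ t)
    linarith
  set s := min (1 / C) (δ / C ^ 2) with hs
  have hs0 : 0 < s := by positivity
  have hs1 : s * C ≤ 1 := by rw [← le_div_iff₀ (by linarith)]; exact min_le_left _ _
  have hs2 : s * C ^ 2 ≤ δ := by rw [← le_div_iff₀ (by positivity)]; exact min_le_right _ _
  refine ⟨s, hs0, by nlinarith, ?_⟩
  calc ∑ t, P t * Real.exp (s * L t) ≤ ∑ t, P t * (1 + s * L t + s * δ) := by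
        refine Finset.sum_le_sum fun t _ => mul_le_mul_of_nonneg_left ?_ (hP t)
        have h2 : |s * L t| ≤ 1 := by
          rw [abs_mul, abs_of_pos hs0]
          exact (mul_le_mul_of_nonneg_left (hL t) hs0.le).trans hs1
        have h3 := (abs_le.1 (Real.abs_exp_sub_one_sub_id_le h2)).2
        have h4 : (L t) ^ 2 ≤ C ^ 2 := by
          rw [← sq_abs]; exact pow_le_pow_left₀ (abs_nonneg _) (hL t) 2
        have h5 : (s * L t) ^ 2 ≤ s * δ := by
          calc (s * L t) ^ 2 = s * (s * (L t) ^ 2) := by ring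
            _ ≤ s * (s * C ^ 2) := by gcongr
            _ ≤ s * δ := by gcongr
        linarith
    _ = 1 + s * (∑ t, P t * L t + δ) := by
        simp only [mul_add, Finset.sum_add_distrib, mul_one, h1, ← Finset.sum_mul, one_mul,
          Finset.mul_sum, mul_left_comm s]
        ring
    _ ≤ _ := by rw [add_comm]; exact Real.add_one_le_exp _

lemma log_one_add_exp_le {s : ℝ} (hs : 0 < s) (hs1 : s ≤ 1) (t : ℝ) :
    Real.log (1 + Real.exp t) ≤ Real.exp (s * t) / s := by
  rw [le_div_iff₀ hs]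
  rcases le_total t 0 with h | h
  · have h1 : Real.log (1 + Real.exp t) ≤ Real.exp t := by
      have := Real.log_le_sub_one_of_pos (show 0 < 1 + Real.exp t by positivity)
      linarith
    have h2 : Real.exp t ≤ Real.exp (s * t) := Real.exp_le_exp.2 (by nlinarith)
    have h3 : 0 ≤ Real.log (1 + Real.exp t) :=
      Real.log_nonneg (by linarith [Real.exp_pos t])
    nlinarith
  · have h1 : Real.log (1 + Real.exp t) ≤ 1 + t := by
      rw [Real.log_le_iff_le_exp (by positivity), Real.exp_add]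
      have h2 : 1 ≤ Real.exp t := Real.one_le_exp h
      have h3 : 2 ≤ Real.exp 1 := by linarith [Real.add_one_le_exp (1 : ℝ)]
      nlinarith
    have h2 := Real.add_one_le_exp (s * t)
    nlinarith

lemma min_le_exp {s : ℝ} (hs : 0 < s) (hs1 : s ≤ 1) {x t : ℝ} (h1 : x ≤ 1)
    (h2 : x ≤ Real.exp t) : x ≤ Real.exp (s * t) := by
  rcases le_total t 0 with h | h
  · exact h2.trans (Real.exp_le_exp.2 (by nlinarith))
  · exact h1.trans (Real.one_le_exp (by positivity))

end Pool.Agent.Lib.MP_426fec_lc
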